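import Pool.Agent.H52.MG.Defs

/-!
# Targets of the MG project (global rigidity of squares of graphs in three dimensions)

Every target is a `def T_xxx : Prop`. The proofs are described in the table `mg_modules`.
-/

set_option autoImplicit false

noncomputable section

open Classical Module
open scoped Matrix

namespace Pool.Agent.H52.MG

/-! ### A. Foundations -/

/-- DER: derivations of `ℝ` with prescribed values on algebraically independent numbers. -/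
def T_DER : Prop := ∀ (ι : Type) [Finite ι] (x : ι → ℝ), AlgebraicIndependent ℚ x →
  ∀ w : ι → ℝ, ∃ D : Derivation ℚ ℝ ℝ, ∀ i, D (x i) = w i

/-- EXG: generic configurations exist. -/
def T_EXG : Prop := ∀ (V : Type) [Fintype V], ∃ p : V → Vec, Gen p

/-- rational polynomial functions of the configuration -/
def Pol {V : Type} [Fintype V] (f : (V → Vec) → ℝ) : Prop :=
  ∃ P : MvPolynomial (V × Fin 3) ℚ, ∀ p : V → Vec,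
    f p = MvPolynomial.aeval (fun x : V × Fin 3 => p x.1 x.2) P

/-- SEMI: kernels of rational polynomial matrices are smallest at generic configurations. -/
def T_SEMI : Prop := ∀ (V : Type) [Fintype V] (ι κ : Type) [Fintype ι] [Fintype κ]
  (a : ι → κ → (V → Vec) → ℝ), (∀ i j, Pol (a i j)) → ∀ p p0 : V → Vec, Gen p →
  finrank ℝ (LinearMap.ker (Matrix.mulVecLin (Matrix.of fun i j => a i j p))) ≤
    finrank ℝ (LinearMap.ker (Matrix.mulVecLin (Matrix.of fun i j => a i j p0)))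

/-- GS: semicontinuity for systems of screws. -/
def T_GS : Prop := ∀ (V : Type) [Fintype V] (E : Set (V × V)) (A : Set (V × V × V))
  (B : Set (V × V × V × V)) (p p0 : V → Vec), Gen p →
  finrank ℝ (Gsys E A B p) ≤ finrank ℝ (Gsys E A B p0)

/-- IM: semicontinuity for infinitesimal motions of bar frameworks. -/
def T_IM : Prop := ∀ (V : Type) [Fintype V] (H : SimpleGraph V) (p p0 : V → Vec), Gen p →
  finrank ℝ (infMot H p) ≤ finrank ℝ (infMot H p0)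

/-- RANK: equivalent configurations of a generic one have the same stresses. -/
def T_RANK : Prop := ∀ (V : Type) [Fintype V] (H : SimpleGraph V) (p q : V → Vec), Gen p →
  Eqv H p q → (∀ ω, IsStress H ω p → IsStress H ω q) ∧
    finrank ℝ (infMot H q) = finrank ℝ (infMot H p)

/-- ISO: partial isometries extend. -/
def T_ISO : Prop := ∀ (V : Type) [Fintype V] (X : Set V) (p q : V → Vec), Cgr X p q →
  ∃ (L : Matrix (Fin 3) (Fin 3) ℝ) (t : Vec), Orth L ∧ ∀ x ∈ X, q x = L *ᵥ p x + t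

/-- GP: generic configurations are in general position. -/
def T_GP : Prop := ∀ (V : Type) [Fintype V] (p : V → Vec), Gen p →
  (∀ a b : V, a ≠ b → p a ≠ p b) ∧
  (∀ a b e : V, a ≠ b → a ≠ e → b ≠ e → (p b - p a) ⨯₃ (p e - p a) ≠ 0) ∧
  (∀ a b e f : V, a ≠ b → a ≠ e → a ≠ f → b ≠ e → b ≠ f → e ≠ f →
    (p b - p a) ⬝ᵥ ((p e - p a) ⨯₃ (p f - p a)) ≠ 0)

/-- CLQ: infinitesimal motions of a complete graph are screws. -/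
def T_CLQ : Prop := ∀ (V : Type) [Fintype V] (p : V → Vec), Gen p → ∀ (X : Set V) (m : V → Vec),
  (∀ u ∈ X, ∀ w ∈ X, (m u - m w) ⬝ᵥ (p u - p w) = 0) → ∃ S : Scr, ∀ u ∈ X, m u = ev S (p u)

/-- RES: resolution of loads. -/
def T_RES : Prop := ∀ (V : Type) [Fintype V] (H : SimpleGraph V) (p F : V → Vec),
  (∀ m ∈ infMot H p, ∑ v, F v ⬝ᵥ m v = 0) →
  ∃ ω : V → V → ℝ, (∀ u w, ω u w = ω w u) ∧ (∀ u w, ¬ H.Adj u w → ω u w = 0) ∧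
    ∀ u, ∑ w, ω u w • (p u - p w) = F u

/-- RED: a redundant bar is stressed. -/
def T_RED : Prop := ∀ (V : Type) [Fintype V] (H : SimpleGraph V) (p : V → Vec) (a b : V),
  H.Adj a b → (∀ m ∈ infMot (delE H a b) p, (m a - m b) ⬝ᵥ (p a - p b) = 0) →
  ∃ ω, IsStress H ω p ∧ ω a b ≠ 0

/-- TL: the vertex removal lemma. -/
def T_TL : Prop := ∀ (V : Type) [Fintype V] (H : SimpleGraph V) (p q : V → Vec) (v : V) (k : ℕ),
  Gen p → Eqv H p q → finrank ℝ (infMot (delV H v) p) ≤ 9 + k →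
  ∃ W : Submodule ℝ Vec, 3 ≤ finrank ℝ W + k ∧
    ∀ X Y : Set V, v ∈ X → v ∈ Y → 4 ≤ X.ncard → 4 ≤ Y.ncard →
    ∀ (L : Matrix (Fin 3) (Fin 3) ℝ) (t : Vec) (L' : Matrix (Fin 3) (Fin 3) ℝ) (t' : Vec),
      Orth L → Orth L' → (∀ x ∈ X, q x = L *ᵥ p x + t) → (∀ x ∈ Y, q x = L' *ᵥ p x + t') →
      ∀ w ∈ W, L *ᵥ w = L' *ᵥ w

/-- HB: motions of the bar graph minus an atom come from pinned screw motions. -/
def T_HB : Prop := ∀ (V : Type) [Fintype V] (G : SimpleGraph V) (c : V → V) (p : V → Vec) (v : V),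
  Gen p → ∀ m ∈ infMot (delV (HP G c) v) p, ∃ S ∈ PinMot G c p v, ∀ x, x ≠ v → m x = ev (S x) (p x)

/-- FB: dimension bound from HB. -/
def T_FB : Prop := ∀ (V : Type) [Fintype V] (G : SimpleGraph V) (c : V → V) (p : V → Vec) (v : V)
  (N : Submodule ℝ (V → Scr)), Gen p →
  (∀ S ∈ PinMot G c p v, ∃ S' ∈ N, ∀ x, x ≠ v → S' x = S x) →
  finrank ℝ (infMot (delV (HP G c) v) p) ≤ 3 + finrank ℝ N

/-- the field generated by the coordinates of the atoms of `A` -/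
def KA {V : Type} (p : V → Vec) (A : Set V) : IntermediateField ℚ ℝ :=
  IntermediateField.adjoin ℚ {r | ∃ v ∈ A, ∃ i, r = p v i}

/-- RG: relative genericity. -/
def T_RG : Prop := ∀ (V : Type) [Fintype V] (p : V → Vec) (A : Set V), Gen p →
  ∀ (P : MvPolynomial (V × Fin 3) (KA p A)) (p0 : V → Vec), (∀ v ∈ A, p0 v = p v) →
  MvPolynomial.aeval (fun x : V × Fin 3 => p0 x.1 x.2) P ≠ 0 →
  MvPolynomial.aeval (fun x : V × Fin 3 => p x.1 x.2) P ≠ 0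

/-- RK: kernels over a subfield. -/
def T_RK : Prop := ∀ (F : IntermediateField ℚ ℝ) (ι κ : Type) [Fintype ι] [Fintype κ]
  (M : Matrix ι κ ℝ), (∀ i j, M i j ∈ F) →
  ∃ (n : ℕ) (b : Fin n → κ → ℝ), (∀ i j, b i j ∈ F) ∧ LinearIndependent ℝ b ∧
    Submodule.span ℝ (Set.range b) = LinearMap.ker M.mulVecLin

/-- URK: relative motions have a basis over the field of the used atoms. -/
def T_URK : Prop := ∀ (V : Type) [Fintype V] (G : SimpleGraph V) (c : V → V) (p : V → Vec)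
  (s t : V) (A : Set V), (∀ u w, G.Adj u w → c u ≠ c w → u ∈ A) →
  ∃ (n : ℕ) (b : Fin n → Scr), (∀ i j, (b i).1 j ∈ KA p A ∧ (b i).2 j ∈ KA p A) ∧
    LinearIndependent ℝ b ∧ Submodule.span ℝ (Set.range b) = Urel G c p s t

/-- M4: four common atoms. -/
def T_M4 : Prop := ∀ (V : Type) [Fintype V] (p q : V → Vec) (X Y : Set V) (a b e f : V), Gen p →
  Cgr X p q → Cgr Y p q → a ∈ X ∩ Y → b ∈ X ∩ Y → e ∈ X ∩ Y → f ∈ X ∩ Y →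
  a ≠ b → a ≠ e → a ≠ f → b ≠ e → b ≠ f → e ≠ f → Cgr (X ∪ Y) p q

/-- FOUR: an atom with four preserved distances. -/
def T_FOUR : Prop := ∀ (V : Type) [Fintype V] (p q : V → Vec) (X : Set V) (z a b e f : V), Gen p →
  Cgr X p q → a ∈ X → b ∈ X → e ∈ X → f ∈ X →
  a ≠ b → a ≠ e → a ≠ f → b ≠ e → b ≠ f → e ≠ f →
  dsq (q z) (q a) = dsq (p z) (p a) → dsq (q z) (q b) = dsq (p z) (p b) →
  dsq (q z) (q e) = dsq (p z) (p e) → dsq (q z) (q f) = dsq (p z) (p f) →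
  Cgr (insert z X) p q

/-- DEG: classes of degree at least three have bodies with at least four atoms. -/
def T_DEG : Prop := ∀ (V : Type) [Fintype V] (G : SimpleGraph V) (c : V → V) (v : V),
  3 ≤ dgc G c v → 4 ≤ (Bd G c v).ncard

/-! ### B. The molecular theorem -/

/-- CNT: counting. -/
def T_CNT : Prop := ∀ (K : Type) [Fintype K] (m : K → K → ℕ), MSym m → (∀ x, 2 ≤ mdeg m x) →
  (∀ x y, mdeg m x = 2 → mdeg m y = 2 → m x y = 0) →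
  12 * Fintype.card K + (∑ x, ∑ y, if mdeg m x ≠ 2 ∧ mdeg m y ≠ 2 then m x y else 0) ≤
    5 * ∑ x, mdeg m x

/-- MTC: case distinction for multigraphs. -/
def T_MTC : Prop := ∀ (K : Type) [Fintype K] (m : K → K → ℕ) (k : ℕ), MSym m →
  2 ≤ Fintype.card K → (∀ Q : K → K, -(2 * (k : ℤ)) ≤ ms2 m Q) →
  (∃ x, mdeg m x ≤ 1) ∨
  (∃ Z : Finset K, 2 ≤ Z.card ∧ Z.card < Fintype.card K ∧ ∀ Q : K → K, 0 ≤ al m Z Q) ∨
  (∃ x y, 0 < m x y ∧ ∀ Q : K → K, Q x ≠ Q y → 10 - 2 * (k : ℤ) ≤ ms2 m Q) ∨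
  (Fintype.card K = 2 ∧ ∀ x, mdeg m x = 2) ∨
  (Fintype.card K = 3 ∧ ∀ x y, x ≠ y → m x y = 1) ∨
  (1 ≤ k ∧ ∃ x y z, mdeg m x = 2 ∧ y ≠ z ∧ m x y = 1 ∧ m x z = 1 ∧ m y z = 0 ∧
    ∀ Q : K → K, 2 ≤ pt Q → Q x = Q y → Q x = Q z → 2 - 2 * (k : ℤ) ≤ ms2 m Q) ∨
  (k = 0 ∧ ∃ a b e f, mdeg m b = 2 ∧ mdeg m e = 2 ∧ m a b = 1 ∧ m b e = 1 ∧ m e f = 1 ∧
    a ≠ e ∧ b ≠ f ∧ a ≠ f)

/-- QUO: the quotient multigraph of a class structure. -/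
def T_QUO : Prop := ∀ (V : Type) [Fintype V] (G : SimpleGraph V) (c : V → V),
  ∃ (K : Type) (_ : Fintype K) (m : K → K → ℕ) (π : V → K),
    Function.Surjective π ∧ (∀ u w, π u = π w ↔ c u = c w) ∧ MSym m ∧ Fintype.card K = pt c ∧
    (∀ u w, c u ≠ c w → m (π u) (π w) = mu G c u w) ∧
    (∀ v, mdeg m (π v) = dgc G c v) ∧
    (∀ (L : Type) (Q : K → L), cr2 G (fun v => Q (π v)) = me2 m Q) ∧
    (∀ (L : Type) (Q : K → L) (Z : Finset K),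
      cr2 (delS G {v | π v ∉ Z}) (fun v => Q (π v)) =
        ∑ x ∈ Z, ∑ y ∈ Z, if Q x ≠ Q y then m x y else 0) ∧
    (∀ Z : Finset K, mcut m Z = ((Finset.univ : Finset (V × V)).filter
      (fun x => π x.1 ∈ Z ∧ π x.2 ∉ Z ∧ G.Adj x.1 x.2)).card)

/-- RISO: merging an isolated class. -/
def T_RISO : Prop := ∀ (V : Type) [Fintype V] (G : SimpleGraph V) (c : V → V) (a b : V) (k : ℕ),
  c a ≠ c b → dgc G c a = 0 → Cnd G c k → 6 ≤ k ∧ Cnd G (mrg c b a) (k - 6)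

/-- RPEN: merging a class of degree one. -/
def T_RPEN : Prop := ∀ (V : Type) [Fintype V] (G : SimpleGraph V) (c : V → V) (a b : V) (k : ℕ),
  c a ≠ c b → G.Adj a b → dgc G c a = 1 → Cnd G c k → 1 ≤ k ∧ Cnd G (mrg c b a) (k - 1)

/-- RDEL: deleting an edge. -/
def T_RDEL : Prop := ∀ (V : Type) [Fintype V] (G : SimpleGraph V) (c : V → V) (a b : V) (k : ℕ),
  G.Adj a b → (∀ d : V → V, Coarse c d → d a ≠ d b → 10 - 2 * (k : ℤ) ≤ s2 G d) →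
  Cnd G c k → Cnd (delE G a b) c k

/-- RRED: suppressing a class of degree two. -/
def T_RRED : Prop := ∀ (V : Type) [Fintype V] (G : SimpleGraph V) (c : V → V) (x₁ x₂ y z : V)
  (j : ℕ), c x₁ = c x₂ → c y ≠ c x₁ → c z ≠ c x₁ → c y ≠ c z → G.Adj x₁ y → G.Adj x₂ z →
  (∀ u w, c u = c x₁ → c w ≠ c x₁ → G.Adj u w → (u = x₁ ∧ w = y) ∨ (u = x₂ ∧ w = z)) →
  ¬ G.Adj y z →
  (∀ d : V → V, Coarse c d → 2 ≤ pt d → d x₁ = d y → d x₁ = d z → -(2 * (j : ℤ)) ≤ s2 G d) →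
  Cnd G c (j + 1) → Cnd (addE (delS G (cls c x₁)) y z) (mrg c y x₁) j

/-- RCHN: reductions of a chain. -/
def T_RCHN : Prop := ∀ (V : Type) [Fintype V] (G : SimpleGraph V) (c : V → V)
  (s x x' y y' t : V), Chain G c s x x' y y' t →
  (Cnd G c 0 → c s ≠ c t → Cnd (GRc G c x y) (cRc c s x y) 3 ∧
    Cnd (addE (addE (GRc G c x y) x' s) x' t) (mrg c s y) 0) ∧
  (Tt G c → Cnd (GRc G c x y) (cRc c s x y) 2 ∧
    ∀ d : V → V, Coarse (cRc c s x y) d → d s = d t → 0 ≤ s2 (GRc G c x y) d)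

/-- The cases of the molecular theorem for class structures. -/
def MTCase {V : Type} [Fintype V] (G : SimpleGraph V) (c : V → V) (k : ℕ) : Prop :=
  (∃ a b, c a ≠ c b ∧ 6 ≤ k ∧ Cnd G (mrg c b a) (k - 6)) ∨
  (∃ a b, c a ≠ c b ∧ G.Adj a b ∧ 1 ≤ k ∧ Cnd G (mrg c b a) (k - 1)) ∨
  (∃ (Z : Set V) (a b e : V), ClU c Z ∧ a ∈ Z ∧ b ∈ Z ∧ c a ≠ c b ∧ e ∉ Z ∧
    Cnd (delS G Zᶜ) (fun v => if v ∈ Z then c v else c a) 0) ∨
  (∃ a b, c a ≠ c b ∧ G.Adj a b ∧ Cnd (delE G a b) c k) ∨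
  (∃ a u b w, c b = c a ∧ c w = c u ∧ c a ≠ c u ∧ G.Adj a u ∧ G.Adj b w ∧ ¬ (a = b ∧ u = w) ∧
    ∀ v, c v = c a ∨ c v = c u) ∨
  (∃ a₁ b₁ b₂ e₂ e₃ a₃, c a₃ = c a₁ ∧ c b₂ = c b₁ ∧ c e₃ = c e₂ ∧ c a₁ ≠ c b₁ ∧ c b₁ ≠ c e₂ ∧
    c a₁ ≠ c e₂ ∧ G.Adj a₁ b₁ ∧ G.Adj b₂ e₂ ∧ G.Adj e₃ a₃ ∧
    ∀ v, c v = c a₁ ∨ c v = c b₁ ∨ c v = c e₂) ∨
  (∃ (j : ℕ) (x₁ x₂ y z : V), k = j + 1 ∧ c x₁ = c x₂ ∧ c y ≠ c x₁ ∧ c z ≠ c x₁ ∧ c y ≠ c z ∧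
    G.Adj x₁ y ∧ G.Adj x₂ z ∧
    (∀ u w, c u = c x₁ → c w ≠ c x₁ → G.Adj u w → (u = x₁ ∧ w = y) ∨ (u = x₂ ∧ w = z)) ∧
    Cnd (addE (delS G (cls c x₁)) y z) (mrg c y x₁) j) ∨
  (k = 0 ∧ ∃ s x x' y y' t, Chain G c s x x' y y' t ∧ c s ≠ c t ∧
    Cnd (GRc G c x y) (cRc c s x y) 3 ∧
    Cnd (addE (addE (GRc G c x y) x' s) x' t) (mrg c s y) 0)

/-- MTR: every class structure falls under one of the cases. -/
def T_MTR : Prop := ∀ (V : Type) [Fintype V] (G : SimpleGraph V) (c : V → V) (k : ℕ),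
  2 ≤ pt c → Cnd G c k → MTCase G c k

/-- MGA: merging two classes, geometric bounds. -/
def T_MGA : Prop := ∀ (V : Type) [Fintype V] (G : SimpleGraph V) (c : V → V) (p : V → Vec)
  (a b : V), finrank ℝ (Mot G c p) ≤ finrank ℝ (Mot G (mrg c b a) p) + 6 ∧
  (G.Adj a b → p a ≠ p b → finrank ℝ (Mot G c p) ≤ finrank ℝ (Mot G (mrg c b a) p) + 1)

/-- MG2: two classes. -/
def T_MG2 : Prop := ∀ (V : Type) [Fintype V] (G : SimpleGraph V) (c : V → V) (p : V → Vec)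
  (a u b w : V), Gen p → c b = c a → c w = c u → c a ≠ c u → G.Adj a u → G.Adj b w →
  ¬ (a = b ∧ u = w) → (∀ v, c v = c a ∨ c v = c u) → finrank ℝ (Mot G c p) ≤ 6

/-- MG3: triangle. -/
def T_MG3 : Prop := ∀ (V : Type) [Fintype V] (G : SimpleGraph V) (c : V → V) (p : V → Vec)
  (a₁ b₁ b₂ e₂ e₃ a₃ : V), Gen p → c a₃ = c a₁ → c b₂ = c b₁ → c e₃ = c e₂ → c a₁ ≠ c b₁ →
  c b₁ ≠ c e₂ → c a₁ ≠ c e₂ → G.Adj a₁ b₁ → G.Adj b₂ e₂ → G.Adj e₃ a₃ →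
  (∀ v, c v = c a₁ ∨ c v = c b₁ ∨ c v = c e₂) → finrank ℝ (Mot G c p) ≤ 6

/-- MG4: suppressing a class of degree two. -/
def T_MG4 : Prop := ∀ (V : Type) [Fintype V] (G : SimpleGraph V) (c : V → V) (p : V → Vec)
  (x₁ x₂ y z : V) (j : ℕ), Gen p → c x₁ = c x₂ → c y ≠ c x₁ → c z ≠ c x₁ → c y ≠ c z →
  G.Adj x₁ y → G.Adj x₂ z →
  (∀ u w, c u = c x₁ → c w ≠ c x₁ → G.Adj u w → (u = x₁ ∧ w = y) ∨ (u = x₂ ∧ w = z)) →
  finrank ℝ (Mot (addE (delS G (cls c x₁)) y z) (mrg c y x₁) p) ≤ 6 + j →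
  finrank ℝ (Mot G c p) ≤ 7 + j

/-- LA5: positions of two hinge points. -/
def T_LA5 : Prop := ∀ (U : Submodule ℝ Scr) (s a t : Vec), finrank ℝ U ≤ 3 →
  (a - s) ⨯₃ (t - s) ≠ 0 →
  (∀ r₁ r₂ : ℝ, r₁ • lin s a + r₂ • lin a t ∈ U → r₁ = 0 ∧ r₂ = 0) →
  ∃ α ν : Vec, ∀ r₁ r₂ r₃ : ℝ, r₁ • lin s α + r₂ • lin α ν + r₃ • lin ν t ∈ U →
    r₁ = 0 ∧ r₂ = 0 ∧ r₃ = 0

/-- MG5: two adjacent classes of degree two. -/
def T_MG5 : Prop := ∀ (V : Type) [Fintype V] (G : SimpleGraph V) (c : V → V) (p : V → Vec)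
  (s x x' y y' t : V), Gen p → Chain G c s x x' y y' t → c s ≠ c t →
  finrank ℝ (Mot (GRc G c x y) (cRc c s x y) p) ≤ 9 →
  finrank ℝ (Mot (addE (addE (GRc G c x y) x' s) x' t) (mrg c s y) p) ≤ 6 →
  finrank ℝ (Mot G c p) ≤ 6

/-- MT: the molecular theorem for class structures. -/
def T_MT : Prop := ∀ (V : Type) [Fintype V] (G : SimpleGraph V) (c : V → V) (k : ℕ)
  (p : V → Vec), Gen p → Cnd G c k → finrank ℝ (Mot G c p) ≤ 6 + k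

/-! ### C. Doubling -/

/-- DBL: the partition condition for the doubled structure. -/
def T_DBL : Prop := ∀ (V : Type) [Fintype V] (G : SimpleGraph V) (c : V → V) (s t : V),
  c s ≠ c t → Cnd G c 2 → (∀ d : V → V, Coarse c d → d s = d t → 0 ≤ s2 G d) →
  Cnd (Gdbl G s) (cdbl c t) 0

/-- N1: a two dimensional space of relative motions does not pass through `s`. -/
def T_N1 : Prop := ∀ (V : Type) [Fintype V] (G : SimpleGraph V) (c : V → V) (s t : V)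
  (p : V → Vec), Gen p → c s ≠ c t → Cnd G c 2 →
  (∀ d : V → V, Coarse c d → d s = d t → 0 ≤ s2 G d) →
  finrank ℝ (Urel G c p s t) = 2 → ∃ S ∈ Urel G c p s t, ev S (p s) ≠ 0

/-- UF: facts on the rest of a chain. -/
def T_UF : Prop := ∀ (V : Type) [Fintype V] (G : SimpleGraph V) (c : V → V) (p : V → Vec)
  (s x x' y y' t : V), Gen p → Tt G c → Chain G c s x x' y y' t →
  finrank ℝ (Urel (GRc G c x y) c p s t) ≤ 2 ∧
  (∀ S ∈ Mot (GRc G c x y) c p, S s = S t → ∀ v, c v ≠ c x → c v ≠ c y → S v = S s) ∧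
  (c s ≠ c t → finrank ℝ (Urel (GRc G c x y) c p s t) = 2 →
    (∃ S ∈ Urel (GRc G c x y) c p s t, ev S (p s) ≠ 0) ∧
    (∃ S ∈ Urel (GRc G c x y) c p s t, ev S (p t) ≠ 0))

/-! ### D. Adjacent classes of degree two -/

/-- LA1 -/
def T_LA1 : Prop := ∀ (U : Submodule ℝ Scr) (s : Vec), finrank ℝ U ≤ 2 →
  (finrank ℝ U = 2 → ∃ S ∈ U, ev S s ≠ 0) →
  ∃ x₀ y₀ : Vec, ∀ S ∈ U, kl S (lin x₀ y₀) = 0 → kl S (lin s y₀) = 0 → S = 0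

/-- LA2 -/
def T_LA2 : Prop := ∀ (U : Submodule ℝ Scr) (s : Vec), finrank ℝ U ≤ 2 →
  (finrank ℝ U = 2 → ∃ S ∈ U, ev S s ≠ 0) →
  ∃ x₀ z₀ : Vec, x₀ ≠ s ∧ ∀ S ∈ U, ∀ r : ℝ, ev S z₀ = r • ev (lin x₀ s) z₀ → S = 0 ∧ r = 0

/-- LA3 -/
def T_LA3 : Prop := ∀ (S₁ S₂ : Scr) (s t : Vec), LinearIndependent ℝ ![S₁, S₂] → s ≠ t →
  (∃ S ∈ Submodule.span ℝ {S₁, S₂}, ev S s ≠ 0) →
  (∃ S ∈ Submodule.span ℝ {S₁, S₂}, ev S t ≠ 0) →
  ∃ x y x' y' : Vec, (Matrix.of fun i j : Fin 5 =>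
    kl ((![S₁, S₂, lin x s, lin y t, lin x' y'] : Fin 5 → Scr) i)
      ((![S₁, S₂, lin x s, lin y t, lin x' y'] : Fin 5 → Scr) j)).det ≠ 0

/-- L2A: a redundant bar in a chain of two singletons. -/
def T_L2A : Prop := ∀ (V : Type) [Fintype V] (G : SimpleGraph V) (c : V → V) (p : V → Vec)
  (s x y t : V), Gen p → Tt G c → Chain G c s x x y y t → (∀ v, c v = c x → v = x) →
  (∀ v, c v = c y → v = y) → c s ≠ c t → ¬ (HP G c).Adj s t →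
  (finrank ℝ (Urel (GRc G c x y) c p s t) = 2 →
    ∃ S ∈ Urel (GRc G c x y) c p s t, ev S (p s) ≠ 0) →
  ∃ ω, IsStress (HP G c) ω p ∧ ω x t ≠ 0

/-- L2: chain of two singletons. -/
def T_L2 : Prop := ∀ (V : Type) [Fintype V] (G : SimpleGraph V) (c : V → V) (p q : V → Vec)
  (s x y t : V), Gen p → Tt G c → Eqv (HP G c) p q → Chain G c s x x y y t →
  (∀ v, c v = c x → v = x) → (∀ v, c v = c y → v = y) → c s ≠ c t → Mrg G c p q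

/-- L3A: a redundant bar when `Y` is a singleton. -/
def T_L3A : Prop := ∀ (V : Type) [Fintype V] (G : SimpleGraph V) (c : V → V) (p : V → Vec)
  (s x x' y t : V), Gen p → Tt G c → Chain G c s x x' y y t → (∀ v, c v = c y → v = y) →
  x ≠ x' → c s ≠ c t →
  (finrank ℝ (Urel (GRc G c x y) c p s t) = 2 →
    ∃ S ∈ Urel (GRc G c x y) c p s t, ev S (p s) ≠ 0) →
  ∃ ω, IsStress (HP G c) ω p ∧ ω x' t ≠ 0

/-- L3: `Y` is a singleton and `X` is big. -/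
def T_L3 : Prop := ∀ (V : Type) [Fintype V] (G : SimpleGraph V) (c : V → V) (p q : V → Vec)
  (s x x' y t : V), Gen p → Tt G c → Eqv (HP G c) p q → Chain G c s x x' y y t →
  (∀ v, c v = c y → v = y) → x ≠ x' → c s ≠ c t → Mrg G c p q

/-- LA3T: a wrench which is not a line. -/
def T_LA3T : Prop := ∀ (V : Type) [Fintype V] (G : SimpleGraph V) (c : V → V) (p : V → Vec)
  (s t x y x' y' : V), Gen p →
  (∀ u w, G.Adj u w → c u ≠ c w → u ≠ x ∧ u ≠ y ∧ u ≠ x' ∧ u ≠ y') →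
  (s ≠ x ∧ s ≠ y ∧ s ≠ x' ∧ s ≠ y') → (t ≠ x ∧ t ≠ y ∧ t ≠ x' ∧ t ≠ y') →
  x ≠ y → x ≠ x' → x ≠ y' → y ≠ x' → y ≠ y' → x' ≠ y' → s ≠ t →
  finrank ℝ (Urel G c p s t) ≤ 2 →
  (finrank ℝ (Urel G c p s t) = 2 →
    (∃ S ∈ Urel G c p s t, ev S (p s) ≠ 0) ∧ (∃ S ∈ Urel G c p s t, ev S (p t) ≠ 0)) →
  ∃ W : Scr, (∀ S ∈ Urel G c p s t, kl W S = 0) ∧ kl W (lin (p x) (p s)) = 0 ∧
    kl W (lin (p y) (p t)) = 0 ∧ kl W (lin (p x') (p y')) = 0 ∧ W.1 ⬝ᵥ W.2 ≠ 0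

/-- the forces at `a` exerted by the bars to the atoms of `X` other than `a, b` -/
def frc {V : Type} [Fintype V] (ω : V → V → ℝ) (p : V → Vec) (X : Set V) (a a' b : V) : Vec :=
  ∑ z, if z ∈ X ∧ z ≠ a ∧ z ≠ b then ω a' z • (p z - p a') else 0

/-- L4A: realising a wrench by a stress. -/
def T_L4A : Prop := ∀ (V : Type) [Fintype V] (G : SimpleGraph V) (c : V → V) (p : V → Vec)
  (s x x' y y' t : V) (W : Scr), Gen p → Chain G c s x x' y y' t → x ≠ x' → y ≠ y' → s ≠ t →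
  (∀ S ∈ Urel (GRc G c x y) c p s t, kl W S = 0) → kl W (lin (p x) (p s)) = 0 →
  kl W (lin (p y) (p t)) = 0 → kl W (lin (p x') (p y')) = 0 → W.1 ⬝ᵥ W.2 ≠ 0 →
  ∃ ω, IsStress (HP G c) ω p ∧
    frc ω p (Bd G c x) x' x' y' ⬝ᵥ (frc ω p (Bd G c x) x' y' y' ⨯₃ (p y' - p x')) ≠ 0

/-- L4B: from the stress to the congruence. -/
def T_L4B : Prop := ∀ (V : Type) [Fintype V] (G : SimpleGraph V) (c : V → V) (p q : V → Vec)
  (s x x' y y' t : V) (ω : V → V → ℝ), Gen p → Eqv (HP G c) p q → Chain G c s x x' y y' t →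
  x ≠ x' → y ≠ y' → s ≠ t → IsStress (HP G c) ω p →
  frc ω p (Bd G c x) x' x' y' ⬝ᵥ (frc ω p (Bd G c x) x' y' y' ⨯₃ (p y' - p x')) ≠ 0 →
  Cgr (Bd G c x ∪ Bd G c y) p q

/-- AL0: two classes joined by two edges. -/
def T_AL0 : Prop := ∀ (V : Type) [Fintype V] (G : SimpleGraph V) (c : V → V) (p q : V → Vec)
  (x y x' y' : V), Gen p → Cp G c → Eqv (HP G c) p q → c x' = c x → c y' = c y → c x ≠ c y →
  G.Adj x y → G.Adj x' y' → ¬ (x = x' ∧ y = y') →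
  (∀ u w, c u = c x → c w ≠ c x → G.Adj u w → (u = x ∧ w = y) ∨ (u = x' ∧ w = y')) →
  (∀ v, c v = c x ∨ c v = c y) → Mrg G c p q

/-- ALD: extraction of the data. -/
def T_ALD : Prop := ∀ (V : Type) [Fintype V] (G : SimpleGraph V) (c : V → V) (a b : V), Tt G c →
  G.Adj a b → c a ≠ c b → dgc G c a = 2 → dgc G c b = 2 →
  (∃ x y x' y', c x' = c x ∧ c y' = c y ∧ c x ≠ c y ∧ G.Adj x y ∧ G.Adj x' y' ∧
    ¬ (x = x' ∧ y = y') ∧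
    (∀ u w, c u = c x → c w ≠ c x → G.Adj u w → (u = x ∧ w = y) ∨ (u = x' ∧ w = y')) ∧
    (∀ v, c v = c x ∨ c v = c y)) ∨
  (∃ s x x' y y' t, Chain G c s x x' y y' t)

/-- AL: chains. -/
def T_AL : Prop := ∀ (V : Type) [Fintype V] (G : SimpleGraph V) (c : V → V) (p q : V → Vec)
  (s x x' y y' t : V), Gen p → Tt G c → Cp G c → Eqv (HP G c) p q →
  Chain G c s x x' y y' t → Mrg G c p q

/-! ### E. Classes of degree two with neighbours of degree at least three -/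

/-- S4A: singleton. -/
def T_S4A : Prop := ∀ (V : Type) [Fintype V] (G : SimpleGraph V) (c : V → V) (p q : V → Vec)
  (a u w : V), Gen p → Eqv (HP G c) p q → (∀ v, c v = c a → v = a) → G.Adj a u → G.Adj a w →
  (∀ z, G.Adj a z → z = u ∨ z = w) → c u ≠ c w → 4 ≤ (Bd G c u).ncard → 4 ≤ (Bd G c w).ncard →
  (∀ d : V → V, Coarse c d → (∀ v, d v = d a → v = a) → 6 ≤ s2 G d) → Mrg G c p q

/-- the data of a class of degree two with edges `au`, `bw` to different classes -/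
structure Deg2 {V : Type} [Fintype V] (G : SimpleGraph V) (c : V → V) (a u b w : V) : Prop where
  cb : c b = c a
  ab : a ≠ b
  ua : c u ≠ c a
  wa : c w ≠ c a
  uw : c u ≠ c w
  e1 : G.Adj a u
  e2 : G.Adj b w
  o : ∀ v z, c v = c a → c z ≠ c a → G.Adj v z → (v = a ∧ z = u) ∨ (v = b ∧ z = w)

/-- S4C: combinatorics of deleting the class. -/
def T_S4C : Prop := ∀ (V : Type) [Fintype V] (G : SimpleGraph V) (c : V → V) (a u b w : V),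
  Deg2 G c a u b w → Tt G c →
  (∀ d : V → V, Coarse c d → (∀ v, d v = d a → c v = c a) → 6 ≤ s2 G d) →
  Cnd (delS G (cls c a)) (mrg c u a) 1 ∧
  (∀ d : V → V, Coarse (mrg c u a) d → d u = d w → 0 ≤ s2 (delS G (cls c a)) d)

/-- S4D: if `u` and `w` are adjacent the rest is rigid. -/
def T_S4D : Prop := ∀ (V : Type) [Fintype V] (G : SimpleGraph V) (c : V → V) (a u b w : V),
  Deg2 G c a u b w → Tt G c → Cp G c → 3 ≤ dgc G c w → G.Adj u w →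
  (∀ d : V → V, Coarse c d → (∀ v, d v = d a → c v = c a) → 6 ≤ s2 G d) →
  Cnd (delS G (cls c a)) (mrg c u a) 0

/-- S4E: the relative motion is not the rotation about `uw`. -/
def T_S4E : Prop := ∀ (V : Type) [Fintype V] (G : SimpleGraph V) (c : V → V) (p : V → Vec)
  (a u b w : V), Gen p → Deg2 G c a u b w → Tt G c → Cp G c → 3 ≤ dgc G c w →
  (∀ d : V → V, Coarse c d → (∀ v, d v = d a → c v = c a) → 6 ≤ s2 G d) →
  ∀ S ∈ Mot (delS G (cls c a)) c p, ev (S u - S w) (p u) = 0 → ev (S u - S w) (p w) = 0 →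
    S u = S w

/-- LA4 -/
def T_LA4 : Prop := ∀ (U : Submodule ℝ Scr) (u w : Vec), finrank ℝ U ≤ 1 → u ≠ w →
  (∀ S ∈ U, ev S u = 0 → S = 0) →
  ∃ b₀ : Vec, b₀ ≠ w ∧ ∀ S ∈ U, ∀ r : ℝ, ev S u = r • ev (lin b₀ w) u → S = 0 ∧ r = 0

/-- S4F: bound for the pinned motions. -/
def T_S4F : Prop := ∀ (V : Type) [Fintype V] (G : SimpleGraph V) (c : V → V) (p : V → Vec)
  (a u b w : V), Gen p → Deg2 G c a u b w → Tt G c →
  (∀ d : V → V, Coarse c d → (∀ v, d v = d a → c v = c a) → 6 ≤ s2 G d) →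
  (∀ S ∈ Mot (delS G (cls c a)) c p, ev (S u - S w) (p u) = 0 → S u = S w) →
  finrank ℝ (PinMot G c p a) ≤ 6

/-- S4B: big class. -/
def T_S4B : Prop := ∀ (V : Type) [Fintype V] (G : SimpleGraph V) (c : V → V) (p q : V → Vec)
  (a u b w : V), Gen p → Eqv (HP G c) p q → Deg2 G c a u b w → Tt G c → Cp G c →
  3 ≤ dgc G c u → 3 ≤ dgc G c w →
  (∀ d : V → V, Coarse c d → (∀ v, d v = d a → c v = c a) → 6 ≤ s2 G d) → Mrg G c p q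

/-- S4: case (ii). -/
def T_S4 : Prop := ∀ (V : Type) [Fintype V] (G : SimpleGraph V) (c : V → V) (p q : V → Vec)
  (x : V), Gen p → Tt G c → Cp G c → Eqv (HP G c) p q → dgc G c x = 2 →
  (∀ u w, c u = c x → c w ≠ c x → G.Adj u w → 3 ≤ dgc G c w) →
  (∀ d : V → V, Coarse c d → (∀ v, d v = d x → c v = c x) → 6 ≤ s2 G d) → Mrg G c p q

/-! ### F. Classes of degree three and four -/

/-- M1: an atom with exactly one crossing edge. -/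
def T_M1 : Prop := ∀ (V : Type) [Fintype V] (G : SimpleGraph V) (c : V → V) (p q : V → Vec)
  (x y : V), Gen p → Tt G c → Eqv (HP G c) p q → G.Adj x y → c x ≠ c y →
  (∀ w, G.Adj x w → c w ≠ c x → w = y) → 4 ≤ (Bd G c x).ncard → 4 ≤ (Bd G c y).ncard →
  (∀ d : V → V, Coarse c d → d x ≠ d y → 10 ≤ s2 G d) → Mrg G c p q

/-- M2: all three edges leave the class at the same atom. -/
def T_M2 : Prop := ∀ (V : Type) [Fintype V] (G : SimpleGraph V) (c : V → V) (p q : V → Vec)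
  (v y₁ y₂ y₃ : V), Gen p → Eqv (HP G c) p q → y₁ ≠ y₂ → y₁ ≠ y₃ → y₂ ≠ y₃ →
  c y₁ ≠ c v → c y₂ ≠ c v → c y₃ ≠ c v → G.Adj v y₁ → G.Adj v y₂ → G.Adj v y₃ →
  (∀ u w, c u = c v → c w ≠ c v → G.Adj u w → u = v ∧ (w = y₁ ∨ w = y₂ ∨ w = y₃)) →
  4 ≤ (Bd G c y₁).ncard → 4 ≤ (Bd G c y₂).ncard → 4 ≤ (Bd G c y₃).ncard →
  (∀ d : V → V, Coarse c d → (∀ u, d u = d v → c u = c v) → 16 ≤ s2 G d) → Mrg G c p q

/-- S3: case (iii). -/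
def T_S3 : Prop := ∀ (V : Type) [Fintype V] (G : SimpleGraph V) (c : V → V) (p q : V → Vec)
  (x : V), Gen p → Tt G c → Eqv (HP G c) p q → dgc G c x = 3 →
  (∀ u w, c u = c x → c w ≠ c x → G.Adj u w → 3 ≤ dgc G c w) →
  (∀ d : V → V, Coarse c d → (∀ v, d v = d x → c v = c x) → 16 ≤ s2 G d) →
  (∀ d : V → V, Coarse c d → ∀ u w, c u = c x → G.Adj u w → d u ≠ d w → 10 ≤ s2 G d) →
  Mrg G c p q

/-- M6: two coplanarities. -/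
def T_M6 : Prop := ∀ (V : Type) [Fintype V] (G : SimpleGraph V) (c : V → V) (p q : V → Vec)
  (x₀ r₁ r₂ z : V), Gen p → Tt G c → Eqv (HP G c) p q → G.Adj x₀ r₁ → G.Adj x₀ r₂ →
  G.Adj z r₁ → r₁ ≠ r₂ → c r₂ = c r₁ → c x₀ ≠ c r₁ → c z ≠ c r₁ → x₀ ≠ z →
  (∀ w, G.Adj r₁ w → c w ≠ c r₁ → w = x₀ ∨ w = z) →
  4 ≤ (Bd G c x₀).ncard → 4 ≤ (Bd G c r₁).ncard → 4 ≤ (Bd G c z).ncard →
  (∀ d : V → V, Coarse c d → d r₁ ≠ d x₀ → 10 ≤ s2 G d) →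
  (∀ d : V → V, Coarse c d → d r₁ ≠ d z → 10 ≤ s2 G d) →
  (∀ d : V → V, Coarse c d → d r₁ ≠ d x₀ → d r₁ ≠ d z → 18 ≤ s2 G d) → Mrg G c p q

/-- S5: case (v). -/
def T_S5 : Prop := ∀ (V : Type) [Fintype V] (G : SimpleGraph V) (c : V → V) (p q : V → Vec)
  (x₀ x₁ : V), Gen p → Tt G c → Eqv (HP G c) p q → c x₀ ≠ c x₁ → dgc G c x₀ = 3 →
  dgc G c x₁ = 4 → mu G c x₀ x₁ = 2 →
  (∀ u w, c u = c x₁ → c w ≠ c x₁ → G.Adj u w → 3 ≤ dgc G c w) →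
  (∀ d : V → V, Coarse c d → ∀ u w, c u = c x₁ → G.Adj u w → d u ≠ d w → 10 ≤ s2 G d) →
  (∀ d : V → V, Coarse c d → ∀ u w, c u = c x₁ → G.Adj u w → c w ≠ c x₀ → d x₁ ≠ d x₀ →
    d x₁ ≠ d w → 18 ≤ s2 G d) → Mrg G c p q

/-- S6: case (v'). -/
def T_S6 : Prop := ∀ (V : Type) [Fintype V] (G : SimpleGraph V) (c : V → V) (p q : V → Vec)
  (x₀ x₁ : V), Gen p → Tt G c → Eqv (HP G c) p q → c x₀ ≠ c x₁ → dgc G c x₀ = 3 →
  dgc G c x₁ = 3 → mu G c x₀ x₁ = 2 →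
  (∀ d : V → V, Coarse c d → d x₀ ≠ d x₁ → 10 ≤ s2 G d) → Mrg G c p q

/-! ### G. Combinatorics of multigraphs -/

/-- CA: splitting a partition along a set. -/
def T_CA : Prop := ∀ (K : Type) [Fintype K] (m : K → K → ℕ), MSym m →
  ∀ (Z : Finset K) (Q : K → K),
    ms2 m Q = al m Z Q + al m Zᶜ Q
      + 10 * ((∑ x ∈ Z, ∑ y ∈ Zᶜ, if Q x ≠ Q y then m x y else 0 : ℕ) : ℤ)
      + 12 * ((Z.image Q ∩ Zᶜ.image Q).card : ℤ) - 12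

/-- CB: surplus of a side of a 2-cut. -/
def T_CB : Prop := ∀ (K : Type) [Fintype K] (m : K → K → ℕ), MSym m → MTt m →
  ∀ (Z : Finset K), mcut m Z = 2 → ∀ Q : K → K, -6 ≤ al m Z Q ∧
    ((∃ q₀, ∀ x ∈ Z, ∀ y ∈ Zᶜ, 0 < m x y → Q x = q₀) → 0 ≤ al m Z Q)

/-- LNK: the two edges leaving `Z`. -/
def T_LNK : Prop := ∀ (K : Type) [Fintype K] (m : K → K → ℕ) (Z : Finset K), mcut m Z = 2 →
  ∃ f g f' g', Link m Z f g f' g'

/-- CC0: vertices of degree two in a minimal `Z`. -/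
def T_CC0 : Prop := ∀ (K : Type) [Fintype K] (m : K → K → ℕ), MSym m → MTt m →
  ∀ Z : Finset K, MinZ m Z → (∀ x y, mdeg m x = 2 → mdeg m y = 2 → m x y = 0) →
  ∀ x ∈ Z, mdeg m x = 2 → ∀ Q : K → K, (∀ y, Q y = Q x → y = x) → 6 ≤ ms2 m Q

/-- CC1 -/
def T_CC1 : Prop := ∀ (K : Type) [Fintype K] (m : K → K → ℕ), MSym m → MTt m →
  ∀ Z : Finset K, MinZ m Z → (∀ x ∈ Z, 3 ≤ mdeg m x) →
  ∀ Q : K → K, ∀ x ∈ Z, ∀ y ∈ Z, Q x ≠ Q y →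
    10 ≤ ms2 m Q ∧ ((∀ A : Finset K, x ∈ A → y ∉ A → 4 ≤ mcut m A) → 12 ≤ ms2 m Q)

/-- CC2 -/
def T_CC2 : Prop := ∀ (K : Type) [Fintype K] (m : K → K → ℕ), MSym m → MTt m →
  ∀ Z : Finset K, MinZ m Z → (∀ x ∈ Z, 3 ≤ mdeg m x) →
  ∀ x ∈ Z, (∀ y ∈ Zᶜ, m x y = 0) →
  ∀ Q : K → K, (∀ y, Q y = Q x → y = x) → 16 ≤ ms2 m Q

/-- CC4: the multigraph with the link is 3-edge-connected. -/
def T_CC4 : Prop := ∀ (K : Type) [Fintype K] (m : K → K → ℕ), MSym m → MTt m →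
  ∀ Z : Finset K, MinZ m Z → (∀ x ∈ Z, 3 ≤ mdeg m x) → ∀ f g f' g', Link m Z f g f' g' →
  ∀ A : Finset K, A ⊆ Z → A.Nonempty → A ≠ Z → 3 ≤ cutI (mst m f g) Z A

/-- CC5: transfer of cuts. -/
def T_CC5 : Prop := ∀ (K : Type) [Fintype K] (m : K → K → ℕ), MSym m → MTt m →
  ∀ (Z : Finset K) (f g f' g' : K), Link m Z f g f' g' → ∀ x ∈ Z, ∀ y ∈ Z,
  (∀ A : Finset K, A ⊆ Z → x ∈ A → y ∉ A → 4 ≤ cutI (mst m f g) Z A) →
  ∀ A : Finset K, x ∈ A → y ∉ A → 4 ≤ mcut m A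

/-- TEC: 3-cuts in a 3-edge-connected multigraph with a link. -/
def T_TEC : Prop := ∀ (K : Type) [Fintype K] (m : K → K → ℕ) (Z : Finset K) (f g : K),
  MSym m → f ∈ Z → g ∈ Z → 2 ≤ Z.card →
  (∀ A : Finset K, A ⊆ Z → A.Nonempty → A ≠ Z → 3 ≤ cutI (mst m f g) Z A) →
  (∃ x ∈ Z, x ≠ f ∧ x ≠ g ∧ cutI (mst m f g) Z {x} = 3) ∨
  (∃ x ∈ Z, ∃ y ∈ Z, 0 < m x y ∧
    ∀ A : Finset K, A ⊆ Z → x ∈ A → y ∉ A → 4 ≤ cutI (mst m f g) Z A) ∨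
  (f ≠ g ∧ ∃ x₀ ∈ Z, ∃ x₁ ∈ Z, (x₀ = f ∨ x₀ = g) ∧ cutI (mst m f g) Z {x₀} = 3 ∧
    m x₀ x₁ = 2 ∧ x₀ ≠ x₁ ∧
    ((cutI (mst m f g) Z {x₁} = 3 ∧ (x₁ = f ∨ x₁ = g)) ∨
      (cutI (mst m f g) Z {x₁} = 4 ∧ x₁ ≠ f ∧ x₁ ≠ g)))

/-- CE: the bound nine. -/
def T_CE : Prop := ∀ (K : Type) [Fintype K] (m : K → K → ℕ) (x₀ x₁ : K), MSym m → x₀ ≠ x₁ →
  mdeg m x₁ = 4 → m x₀ x₁ = 2 → (∀ Q : K → K, 0 ≤ ms2 m Q) →
  (∀ (Q : K → K) (y : K), 0 < m x₁ y → Q x₁ ≠ Q y → 10 ≤ ms2 m Q) →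
  ∀ (Q : K → K) (y : K), y ≠ x₀ → 0 < m x₁ y → Q x₁ ≠ Q x₀ → Q x₁ ≠ Q y → 18 ≤ ms2 m Q

/-- CF: 3-edge-connected multigraphs. -/
def T_CF : Prop := ∀ (K : Type) [Fintype K] (m : K → K → ℕ), MSym m →
  (∀ A : Finset K, A.Nonempty → A ≠ Finset.univ → 3 ≤ mcut m A) →
  ∀ Q : K → K, 2 ≤ pt Q → 18 ≤ ms2 m Q

/-- the cases for multigraphs -/
def ComK {K : Type} [Fintype K] (m : K → K → ℕ) : Prop :=
  (∃ x y, mdeg m x = 2 ∧ mdeg m y = 2 ∧ 0 < m x y) ∨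
  (∃ x, mdeg m x = 2 ∧ (∀ y, 0 < m x y → 3 ≤ mdeg m y) ∧
    ∀ Q : K → K, (∀ y, Q y = Q x → y = x) → 6 ≤ ms2 m Q) ∨
  (∃ x, mdeg m x = 3 ∧ (∀ y, 0 < m x y → 3 ≤ mdeg m y) ∧
    (∀ Q : K → K, (∀ y, Q y = Q x → y = x) → 16 ≤ ms2 m Q) ∧
    (∀ (Q : K → K) (y : K), 0 < m x y → Q x ≠ Q y → 10 ≤ ms2 m Q)) ∨
  (∃ x y, 0 < m x y ∧ (∀ Q : K → K, Q x ≠ Q y → 12 ≤ ms2 m Q) ∧
    ∀ Z : Finset K, x ∈ Z → y ∉ Z → 4 ≤ mcut m Z) ∨
  (∃ x₀ x₁, x₀ ≠ x₁ ∧ mdeg m x₀ = 3 ∧ mdeg m x₁ = 4 ∧ m x₀ x₁ = 2 ∧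
    (∀ y, 0 < m x₁ y → 3 ≤ mdeg m y) ∧
    (∀ (Q : K → K) (y : K), 0 < m x₁ y → Q x₁ ≠ Q y → 10 ≤ ms2 m Q) ∧
    (∀ (Q : K → K) (y : K), y ≠ x₀ → 0 < m x₁ y → Q x₁ ≠ Q x₀ → Q x₁ ≠ Q y →
      18 ≤ ms2 m Q)) ∨
  (∃ x₀ x₁, x₀ ≠ x₁ ∧ mdeg m x₀ = 3 ∧ mdeg m x₁ = 3 ∧ m x₀ x₁ = 2 ∧
    ∀ Q : K → K, Q x₀ ≠ Q x₁ → 10 ≤ ms2 m Q)

/-- COMB: the combinatorial theorem. -/
def T_COMB : Prop := ∀ (K : Type) [Fintype K] (m : K → K → ℕ), MSym m → MTt m →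
  2 ≤ Fintype.card K → ComK m

/-- the cases for class structures -/
def ComG {V : Type} [Fintype V] (G : SimpleGraph V) (c : V → V) : Prop :=
  (∃ x y, G.Adj x y ∧ c x ≠ c y ∧ dgc G c x = 2 ∧ dgc G c y = 2) ∨
  (∃ x, dgc G c x = 2 ∧ (∀ u w, c u = c x → c w ≠ c x → G.Adj u w → 3 ≤ dgc G c w) ∧
    ∀ d : V → V, Coarse c d → (∀ v, d v = d x → c v = c x) → 6 ≤ s2 G d) ∨
  (∃ x, dgc G c x = 3 ∧ (∀ u w, c u = c x → c w ≠ c x → G.Adj u w → 3 ≤ dgc G c w) ∧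
    (∀ d : V → V, Coarse c d → (∀ v, d v = d x → c v = c x) → 16 ≤ s2 G d) ∧
    (∀ d : V → V, Coarse c d → ∀ u w, c u = c x → G.Adj u w → d u ≠ d w → 10 ≤ s2 G d)) ∨
  (∃ x y, G.Adj x y ∧ c x ≠ c y ∧ (∀ d : V → V, Coarse c d → d x ≠ d y → 12 ≤ s2 G d) ∧
    ∀ Z : Set V, ClU c Z → x ∈ Z → y ∉ Z → 4 ≤ ((Finset.univ : Finset (V × V)).filter
      (fun z => z.1 ∈ Z ∧ z.2 ∉ Z ∧ G.Adj z.1 z.2)).card) ∨
  (∃ x₀ x₁, c x₀ ≠ c x₁ ∧ dgc G c x₀ = 3 ∧ dgc G c x₁ = 4 ∧ mu G c x₀ x₁ = 2 ∧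
    (∀ u w, c u = c x₁ → c w ≠ c x₁ → G.Adj u w → 3 ≤ dgc G c w) ∧
    (∀ d : V → V, Coarse c d → ∀ u w, c u = c x₁ → G.Adj u w → d u ≠ d w → 10 ≤ s2 G d) ∧
    (∀ d : V → V, Coarse c d → ∀ u w, c u = c x₁ → G.Adj u w → c w ≠ c x₀ → d x₁ ≠ d x₀ →
      d x₁ ≠ d w → 18 ≤ s2 G d)) ∨
  (∃ x₀ x₁, c x₀ ≠ c x₁ ∧ dgc G c x₀ = 3 ∧ dgc G c x₁ = 3 ∧ mu G c x₀ x₁ = 2 ∧
    ∀ d : V → V, Coarse c d → d x₀ ≠ d x₁ → 10 ≤ s2 G d)

/-- INST -/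
def T_INST : Prop := ∀ (V : Type) [Fintype V] (G : SimpleGraph V) (c : V → V), Tt G c →
  2 ≤ pt c → ComG G c

/-- THB: the sufficiency theorem. -/
def T_THB : Prop := ∀ (V : Type) [Fintype V] (G : SimpleGraph V) (c : V → V) (p : V → Vec),
  Tt G c → Cp G c → Gen p → GR (HP G c) p

/-! ### H. Necessity -/

/-- NEC1: connectivity. -/
def T_NEC1 : Prop := ∀ (V : Type) [Fintype V] (H : SimpleGraph V) (p : V → Vec), Gen p →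
  GR H p → Conn4 H

/-- ODE: periodic orbits on compact one dimensional fibres. -/
def T_ODE : Prop := ∀ (E F : Type) [NormedAddCommGroup E] [NormedSpace ℝ E]
  [FiniteDimensional ℝ E] [NormedAddCommGroup F] [NormedSpace ℝ F] [FiniteDimensional ℝ F]
  (f : E → E) (g : E → F) (p : E), ContDiff ℝ 1 f → ContDiff ℝ 1 g →
  (∀ x, fderiv ℝ g x (f x) = 0) → IsCompact {x | g x = g p} →
  (∀ x, g x = g p → f x ≠ 0 ∧ ∀ y, fderiv ℝ g x y = 0 → ∃ r : ℝ, y = r • f x) →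
  ∃ γ : ℝ → E, γ 0 = p ∧ (∀ t, HasDerivAt γ (f (γ t)) t) ∧ (∀ t, g (γ t) = g p) ∧
    ∃ T : ℝ, 0 < T ∧ ∀ t, γ (t + T) = γ t

/-- ODU: uniqueness of integral curves. -/
def T_ODU : Prop := ∀ (E : Type) [NormedAddCommGroup E] [NormedSpace ℝ E]
  [FiniteDimensional ℝ E] (f : E → E) (γ₁ γ₂ : ℝ → E) (t₀ : ℝ), ContDiff ℝ 1 f →
  (∀ t, HasDerivAt γ₁ (f (γ₁ t)) t) → (∀ t, HasDerivAt γ₂ (f (γ₂ t)) t) → γ₁ t₀ = γ₂ t₀ →
  γ₁ = γ₂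

/-- CURV: the closed curve of configurations of a framework with one degree of freedom. -/
def T_CURV : Prop := ∀ (V : Type) [Fintype V] (H : SimpleGraph V) (p : V → Vec)
  (x₁ x₂ x₃ : V), 5 ≤ Fintype.card V → Gen p → H.Adj x₁ x₂ → H.Adj x₁ x₃ → H.Adj x₂ x₃ →
  H.Connected → finrank ℝ (infMot H p) = 7 →
  ∃ γ γ' : ℝ → V → Vec, γ 0 = p ∧ (∀ t, HasDerivAt γ (γ' t) t) ∧ (∀ t, γ' t ≠ 0) ∧
    (∀ t, Eqv H p (γ t)) ∧ (∀ t, γ t x₁ = p x₁ ∧ γ t x₂ = p x₂ ∧ γ t x₃ = p x₃) ∧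
    (∃ T : ℝ, 0 < T ∧ ∀ t, γ (t + T) = γ t) ∧
    (∀ t₀, γ t₀ = p → ∀ t, γ (t₀ + t) = γ t) ∧
    (∀ t₀, (γ t₀ = fun v => refl3 (p x₁) (p x₂) (p x₃) (p v)) →
      (∀ t, γ (t₀ + t) = fun v => refl3 (p x₁) (p x₂) (p x₃) (γ t v)) ∨
      (∀ t, γ (t₀ - t) = fun v => refl3 (p x₁) (p x₂) (p x₃) (γ t v)))

/-- HEN: redundant rigidity. -/
def T_HEN : Prop := ∀ (V : Type) [Fintype V] (H : SimpleGraph V) (p : V → Vec)
  (u w x₁ x₂ x₃ : V), 5 ≤ Fintype.card V → Gen p → GR H p → H.Adj u w →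
  (delE H u w).Adj x₁ x₂ → (delE H u w).Adj x₁ x₃ → (delE H u w).Adj x₂ x₃ →
  finrank ℝ (infMot (delE H u w) p) ≤ 6

/-- LB: lower bound for the motions. -/
def T_LB : Prop := ∀ (V : Type) [Fintype V] (G : SimpleGraph V) (d : V → V) (p : V → Vec),
  12 * (pt d : ℤ) - 5 * (cr2 G d : ℤ) ≤ 2 * (finrank ℝ (Mot G d p) : ℤ)

/-- B3: bodies have at least three atoms. -/
def T_B3 : Prop := ∀ (V : Type) [Fintype V] (G : SimpleGraph V) (d : V → V),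
  5 ≤ Fintype.card V → Conn4 (sq G) → NoLeafCross G d → ∀ v, 3 ≤ (Bd G d v).ncard

/-- N2A: partitions with negative surplus give motions. -/
def T_N2A : Prop := ∀ (V : Type) [Fintype V] (G : SimpleGraph V) (d : V → V) (p : V → Vec),
  Gen p → (∀ v, 3 ≤ (Bd G d v).ncard) →
  finrank ℝ (Mot G d p) ≤ finrank ℝ (infMot (sq G) p)

/-- N2B: tight multigraphs. -/
def T_N2B : Prop := ∀ (K : Type) [Fintype K] (m : K → K → ℕ), MSym m → 2 ≤ Fintype.card K →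
  (∀ Q : K → K, 0 ≤ ms2 m Q) → ms2 m (id : K → K) = 0 →
  6 ≤ Fintype.card K ∧ ∃ x y z, mdeg m x = 2 ∧ m x y = 1 ∧ m x z = 1 ∧ y ≠ z ∧ m y z = 0

/-- N2D: tight partitions of a graph. -/
def T_N2D : Prop := ∀ (V : Type) [Fintype V] (G : SimpleGraph V) (d : V → V), 2 ≤ pt d →
  (∀ e : V → V, Coarse d e → 0 ≤ s2 G e) → s2 G d = 0 →
  6 ≤ pt d ∧ ∃ a u b w, d b = d a ∧ d u ≠ d a ∧ d w ≠ d a ∧ d u ≠ d w ∧ G.Adj a u ∧
    G.Adj b w ∧ ¬ G.Adj u w ∧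
    ∀ v z, d v = d a → d z ≠ d a → G.Adj v z → (v = a ∧ z = u) ∨ (v = b ∧ z = w)

/-- N2C: the class of degree two is replaced by a tetrahedron or an atom. -/
def T_N2C : Prop := ∀ (V : Type) [Fintype V] (G : SimpleGraph V) (d : V → V) (p : V → Vec)
  (a u b w : V), Gen p → GR (sq G) p → Conn4 (sq G) → NoLeafCross G d →
  (∀ v, 3 ≤ (Bd G d v).ncard) → 6 ≤ pt d → s2 G d = 0 →
  d b = d a → d u ≠ d a → d w ≠ d a → d u ≠ d w → G.Adj a u → G.Adj b w → ¬ G.Adj u w →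
  (∀ v z, d v = d a → d z ≠ d a → G.Adj v z → (v = a ∧ z = u) ∨ (v = b ∧ z = w)) → False

/-- NEC2 -/
def T_NEC2 : Prop := ∀ (V : Type) [Fintype V] (G : SimpleGraph V) (p : V → Vec),
  5 ≤ Fintype.card V → Gen p → GR (sq G) p →
  ∀ d : V → V, NoLeafCross G d → 2 ≤ pt d → 2 ≤ s2 G d

/-- FC: the leaf partition. -/
def T_FC : Prop := ∀ (V : Type) [Fintype V] (G : SimpleGraph V), 5 ≤ Fintype.card V →
  Conn4 (sq G) → ∃ c : V → V, HP G c = sq G ∧ Cp G c ∧ ∀ d : V → V, Coarse c d → NoLeafCross G d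

/-- FIN: the characterisation. -/
def T_FIN : Prop := ∀ (V : Type) [Fintype V] (G : SimpleGraph V) (p : V → Vec), Gen p →
  (GR (sq G) p ↔ sq G = ⊤ ∨ (5 ≤ Fintype.card V ∧ Conn4 (sq G) ∧
    ∀ d : V → V, NoLeafCross G d → 2 ≤ pt d → 2 ≤ s2 G d))

end Pool.Agent.H52.MG
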