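import Pool.Agent.H52.MG.Orth
import Pool.Agent.H52.MG.Targets

/-!
# AL: chains
-/

set_option autoImplicit false
set_option linter.unusedSectionVars false

noncomputable section

open Classical Module
open scoped Matrix

namespace Pool.Agent.H52.MG

section
variable {V : Type} [Fintype V]

lemma mem_BdX {G : SimpleGraph V} {c : V → V} {s x x' y y' t : V}
    (h : Chain G c s x x' y y' t) (z : V) : z ∈ Bd G c x ↔ c z = c x ∨ z = s ∨ z = y' := by
  constructor
  · rintro (h1 | ⟨w, h1, h2⟩)
    · exact Or.inl h1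
    · by_cases hz : c z = c x
      · exact Or.inl hz
      · rcases h.oX w z h2 hz h1.symm with h3 | h3
        · exact Or.inr (Or.inl h3.2)
        · exact Or.inr (Or.inr h3.2)
  · rintro (h1 | h1 | h1)
    · exact Or.inl h1
    · subst h1; exact Or.inr ⟨x, h.e1.symm, rfl⟩
    · subst h1; exact Or.inr ⟨x', h.e2.symm, h.cx⟩

lemma mem_BdY {G : SimpleGraph V} {c : V → V} {s x x' y y' t : V}
    (h : Chain G c s x x' y y' t) (z : V) : z ∈ Bd G c y ↔ c z = c y ∨ z = t ∨ z = x' :=
  mem_BdX h.rev z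

lemma Mrg_of_sub {G : SimpleGraph V} {c : V → V} {p q : V → Vec} (h : Eqv (HP G c) p q)
    {a b : V} (hab : c a ≠ c b) (hs : Bd G c a ⊆ Bd G c b) : Mrg G c p q :=
  ⟨a, b, hab, (Cgr_Bd h b).mono (Set.union_subset hs (Set.Subset.refl _))⟩

lemma three_le_ncard {X : Set V} {a b e : V} (ha : a ∈ X) (hb : b ∈ X) (he : e ∈ X)
    (hab : a ≠ b) (hae : a ≠ e) (hbe : b ≠ e) : 3 ≤ X.ncard := by
  have h1 : ({a, b, e} : Set V).ncard = 3 := Set.ncard_eq_three.mpr ⟨a, b, e, hab, hae, hbe, rfl⟩
  rw [← h1]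
  apply Set.ncard_le_ncard _ (Set.toFinite _)
  intro z hz
  rcases hz with h | h | h
  · rw [h]; exact ha
  · rw [h]; exact hb
  · rw [h]; exact he

lemma two_le_ncard {X : Set V} {a b : V} (ha : a ∈ X) (hb : b ∈ X)
    (hab : a ≠ b) : 2 ≤ X.ncard := by
  have h1 : ({a, b} : Set V).ncard = 2 := Set.ncard_pair hab
  rw [← h1]
  apply Set.ncard_le_ncard _ (Set.toFinite _)
  intro z hz
  rcases hz with h | h
  · rw [h]; exact ha
  · rw [h]; exact hb

lemma chain_ne {G : SimpleGraph V} {c : V → V} {s x x' y y' t : V} (hC : Cp G c)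
    (h : Chain G c s x x' y y' t) {v : V} (hv : c v = c x) (hvx : v ≠ x)
    (h3 : 3 ≤ (cls c x)ᶜ.ncard) : x ≠ x' := by
  intro e
  subst e
  have hsy : s ≠ y' := fun k => h.sy (by rw [k]; exact h.cy)
  have hy' : c y' ≠ c x := by rw [h.cy]; exact h.xy.symm
  rcases hC (cls c x) (fun u w e1 e2 => by
      have : c u = c x := e2
      exact (e1.symm.trans this : c w = c x)) x s y' rfl h.sx hy' hsy h.e1 h.e2
      (fun u w hu hw ha => by
        rcases h.oX u w hu hw ha with k | k
        · exact ⟨k.1, Or.inl k.2⟩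
        · exact ⟨k.1, Or.inr k.2⟩) with h1 | h1
  · have : 2 ≤ (cls c x).ncard := two_le_ncard (a := v) (b := x) hv rfl hvx
    omega
  · omega

lemma al_B (h3 : T_L3) (hF : T_FOUR) {G : SimpleGraph V} {c : V → V} {p q : V → Vec}
    {s x x' y y' t : V} (hG : Gen p) (hT : Tt G c) (hC : Cp G c) (hE : Eqv (HP G c) p q)
    (h : Chain G c s x x' y y' t) (hY : ∀ v, c v = c y → v = y)
    {v : V} (hv : c v = c x) (hvx : v ≠ x) : Mrg G c p q := by
  obtain rfl : y' = y := hY y' h.cy
  have hyx : y' ∈ Bd G c x := (mem_BdX h y').mpr (Or.inr (Or.inr rfl))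
  have hsx : s ∈ Bd G c x := (mem_BdX h s).mpr (Or.inr (Or.inl rfl))
  have hx'x : x' ∈ Bd G c x := Or.inl h.cx
  have hx'y : x' ∈ Bd G c y' := (mem_BdY h x').mpr (Or.inr (Or.inr rfl))
  have hty : t ∈ Bd G c y' := (mem_BdY h t).mpr (Or.inr (Or.inl rfl))
  have hsy : s ≠ y' := fun k => h.sy (by rw [k])
  have hty' : t ≠ y' := fun k => h.ty (by rw [k])
  by_cases hst : s = t
  · subst hst
    apply Mrg_of_sub hE h.xy.symm
    intro z hz
    rcases (mem_BdY h z).mp hz with k | k | k
    · rw [hY z k]; exact hyx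
    · rw [k]; exact hsx
    · rw [k]; exact hx'x
  · have hxx' : x ≠ x' := by
      apply chain_ne hC h hv hvx
      exact three_le_ncard (a := s) (b := t) (e := y') h.sx h.tx h.xy.symm hst hsy hty'
    by_cases hcst : c s = c t
    · have e1 : s ∈ Bd G c s := Or.inl rfl
      have e2 : t ∈ Bd G c s := Or.inl hcst.symm
      have e3 : x ∈ Bd G c s := Or.inr ⟨s, h.e1, rfl⟩
      have e4 : y' ∈ Bd G c s := Or.inr ⟨t, h.e3, hcst.symm⟩
      have hX := Cgr_Bd hE x
      have hYc := Cgr_Bd hE y'
      have key := hF V p q (Bd G c s) x' s t x y' hG (Cgr_Bd hE s) e1 e2 e3 e4 hst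
        (fun k => h.sx (by rw [k])) hsy (fun k => h.tx (by rw [k])) hty'
        (fun k => h.xy (by rw [k])) (hX _ hx'x _ hsx) (hYc _ hx'y _ hty)
        (hX _ hx'x _ (Or.inl rfl)) (hX _ hx'x _ hyx)
      refine ⟨y', s, h.sy.symm, key.mono ?_⟩
      apply Set.union_subset
      · intro z hz
        rcases (mem_BdY h z).mp hz with k | k | k
        · rw [hY z k]; exact Or.inr e4
        · rw [k]; exact Or.inr e2
        · exact Or.inl k
      · exact Set.subset_insert _ _
    · exact h3 V G c p q s x x' y' t hG hT hE h hY hxx' hcst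

end

/-- AL -/
theorem al_thm (h2 : T_L2) (h3 : T_L3) (hLA3T : T_LA3T) (hUF : T_UF) (h4A : T_L4A) (h4B : T_L4B)
    (hF : T_FOUR) (hI : T_ISO) (hGP : T_GP) : T_AL := by
  intro V _ G c p q s x x' y y' t hG hT hC hE h
  by_cases hX : ∀ v, c v = c x → v = x
  · by_cases hY : ∀ v, c v = c y → v = y
    · obtain rfl : y' = y := hY y' h.cy
      obtain rfl : x' = x := hX x' h.cx
      by_cases hst : c s = c t
      · apply Mrg_of_sub hE h.sx.symm
        intro z hz
        rcases (mem_BdX h z).mp hz with k | k | k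
        · rw [hX z k]; exact Or.inr ⟨s, h.e1, rfl⟩
        · rw [k]; exact Or.inl rfl
        · rw [k]; exact Or.inr ⟨t, h.e3, hst.symm⟩
      · exact h2 V G c p q s x' y' t hG hT hE h hX hY hst
    · push Not at hY
      obtain ⟨v, hv, hvy⟩ := hY
      exact al_B h3 hF hG hT hC hE h.rev hX hv hvy
  · push Not at hX
    obtain ⟨v, hv, hvx⟩ := hX
    by_cases hY : ∀ v, c v = c y → v = y
    · exact al_B h3 hF hG hT hC hE h hY hv hvx
    · push Not at hY
      obtain ⟨w, hw, hwy⟩ := hY
      have hxx' : x ≠ x' := by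
        apply chain_ne hC h hv hvx
        refine three_le_ncard (a := s) (b := y) (e := w) h.sx h.xy.symm ?_ ?_ ?_ hwy.symm
        · intro k
          have k' : c w = c x := k
          exact h.xy (by rw [← k', hw])
        · exact fun k => h.sy (by rw [k])
        · exact fun k => h.sy (by rw [k, hw])
      have hyy' : y ≠ y' := by
        apply chain_ne hC h.rev hw hwy
        refine three_le_ncard (a := t) (b := x) (e := v) h.ty h.xy ?_ ?_ ?_ hvx.symm
        · intro k
          have k' : c v = c y := k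
          exact h.xy (by rw [← k', hv])
        · exact fun k => h.tx (by rw [k])
        · exact fun k => h.tx (by rw [k, hv])
      have n1 : s ≠ x := fun k => h.sx (by rw [k])
      have n2 : s ≠ y := fun k => h.sy (by rw [k])
      have n3 : s ≠ x' := fun k => h.sx (by rw [k, h.cx])
      have n4 : s ≠ y' := fun k => h.sy (by rw [k, h.cy])
      have m1 : t ≠ x := fun k => h.tx (by rw [k])
      have m2 : t ≠ y := fun k => h.ty (by rw [k])
      have m3 : t ≠ x' := fun k => h.tx (by rw [k, h.cx])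
      have m4 : t ≠ y' := fun k => h.ty (by rw [k, h.cy])
      have r1 : x ≠ y := fun k => h.xy (by rw [k])
      have r2 : x ≠ y' := fun k => h.xy (by rw [k, h.cy])
      have r3 : y ≠ x' := fun k => h.xy (by rw [k, h.cx])
      have r4 : x' ≠ y' := fun k => h.xy (by rw [← h.cx, k, h.cy])
      refine ⟨x, y, h.xy, ?_⟩
      by_cases hst : s = t
      · subst hst
        have hx'x : x' ∈ Bd G c x := Or.inl h.cx
        have hx'y : x' ∈ Bd G c y := (mem_BdY h x').mpr (Or.inr (Or.inr rfl))
        have hy'x : y' ∈ Bd G c x := (mem_BdX h y').mpr (Or.inr (Or.inr rfl))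
        have hy'y : y' ∈ Bd G c y := Or.inl h.cy
        have hsx : s ∈ Bd G c x := (mem_BdX h s).mpr (Or.inr (Or.inl rfl))
        have hsy : s ∈ Bd G c y := (mem_BdY h s).mpr (Or.inr (Or.inl rfl))
        have hxs : x ∈ Bd G c s := Or.inr ⟨s, h.e1, rfl⟩
        have hys : y ∈ Bd G c s := Or.inr ⟨s, h.e3, rfl⟩
        obtain ⟨L, τ, hL, hLx⟩ := hI V (Bd G c x) p q (Cgr_Bd hE x)
        obtain ⟨L', τ', hL', hLy⟩ := hI V (Bd G c y) p q (Cgr_Bd hE y)
        obtain ⟨_, g3, g4⟩ := hGP V p hG
        have key := iso_eq hL hL' (a := p x') (b := p y') (e := p s) (u := p x) (w := p y)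
          (g3 x' y' s r4 n3.symm n4.symm)
          (by rw [← hLx _ hx'x, ← hLy _ hx'y])
          (by rw [← hLx _ hy'x, ← hLy _ hy'y])
          (by rw [← hLx _ hsx, ← hLy _ hsy])
          (by rw [← hLx _ (Or.inl rfl), ← hLy _ (Or.inl rfl)]; exact Cgr_Bd hE s _ hxs _ hys)
          (g4 x' x y' s hxx'.symm r4 n3.symm r2 n1.symm n4.symm)
          (g4 x' y y' s r3.symm r4 n3.symm hyy' n2.symm n4.symm)
        obtain ⟨e1, e2⟩ := key
        subst e1 e2
        have hq : ∀ z ∈ Bd G c x ∪ Bd G c y, q z = L *ᵥ p z + τ := by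
          rintro z (hz | hz)
          · exact hLx z hz
          · exact hLy z hz
        intro u hu w hw
        rw [hq u hu, hq w hw]
        unfold dsq
        have : L *ᵥ p u + τ - (L *ᵥ p w + τ) = L *ᵥ (p u - p w) := by
          rw [Matrix.mulVec_sub]; abel
        rw [this, orth_dot hL]
      · obtain ⟨u1, _, u3⟩ := hUF V G c p s x x' y y' t hG hT h
        obtain ⟨W, w1, w2, w3, w4, w5⟩ := hLA3T V (GRc G c x y) c p s t x y x' y' hG
          (by
            rintro u w ⟨_, hu, _⟩ _
            have hu' : ¬ (c u = c x ∨ c u = c y) := hu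
            push Not at hu'
            refine ⟨fun k => hu'.1 (by rw [k]), fun k => hu'.2 (by rw [k]),
              fun k => hu'.1 (by rw [k, h.cx]), fun k => hu'.2 (by rw [k, h.cy])⟩)
          ⟨n1, n2, n3, n4⟩ ⟨m1, m2, m3, m4⟩ r1 hxx' r2 r3 hyy' r4 hst u1
          (by
            intro h2'
            by_cases hcst : c s = c t
            · exfalso
              have hbot : Urel (GRc G c x y) c p s t = ⊥ := by
                rw [eq_bot_iff]
                intro T hT'
                obtain ⟨S, hS, hST⟩ := mem_Urel.mp hT'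
                rw [← hST, (mem_Mot.mp hS).1 s t hcst, sub_self]
                exact Submodule.zero_mem _
              rw [hbot, finrank_bot] at h2'
              omega
            · exact u3 hcst h2')
        obtain ⟨ω, o1, o2⟩ := h4A V G c p s x x' y y' t W hG h hxx' hyy' hst w1 w2 w3 w4 w5
        exact h4B V G c p q s x x' y y' t ω hG hE h hxx' hyy' hst o1 o2

end Pool.Agent.H52.MG
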