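import Pool.Agent.H52.MG.Defs

/-!
# Basic lemmas for the MG project
-/

set_option autoImplicit false
set_option linter.unusedSectionVars false

noncomputable section

open Classical Module
open scoped Matrix

namespace Pool.Agent.H52.MG

/-! ### screws -/

@[simp] lemma ev_zero (x : Vec) : ev 0 x = 0 := by simp [ev]

lemma ev_add (S T : Scr) (x : Vec) : ev (S + T) x = ev S x + ev T x := by
  simp only [ev, Prod.snd_add, Prod.fst_add, map_add, LinearMap.add_apply]; abel

lemma ev_neg (S : Scr) (x : Vec) : ev (-S) x = - ev S x := by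
  simp only [ev, Prod.snd_neg, Prod.fst_neg, map_neg, LinearMap.neg_apply]; abel

lemma ev_sub (S T : Scr) (x : Vec) : ev (S - T) x = ev S x - ev T x := by
  rw [sub_eq_add_neg, ev_add, ev_neg, ← sub_eq_add_neg]

lemma ev_smul (r : ℝ) (S : Scr) (x : Vec) : ev (r • S) x = r • ev S x := by
  simp only [ev, Prod.smul_snd, Prod.smul_fst, map_smul, LinearMap.smul_apply, smul_add]

/-- components of a cross product -/
lemma cross_eq (a b : Vec) : a ⨯₃ b =
    ![a 1 * b 2 - a 2 * b 1, a 2 * b 0 - a 0 * b 2, a 0 * b 1 - a 1 * b 0] :=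
  cross_apply a b

lemma dot3 (a b : Vec) : a ⬝ᵥ b = a 0 * b 0 + a 1 * b 1 + a 2 * b 2 := by
  simp [dotProduct, Fin.sum_univ_three]

lemma vec_ext (a b : Vec) (h0 : a 0 = b 0) (h1 : a 1 = b 1) (h2 : a 2 = b 2) : a = b := by
  funext i; fin_cases i <;> assumption

lemma vec_ext_iff (a b : Vec) : a = b ↔ a 0 = b 0 ∧ a 1 = b 1 ∧ a 2 = b 2 :=
  ⟨fun h => by subst h; simp, fun h => vec_ext a b h.1 h.2.1 h.2.2⟩

lemma kl_lin (S : Scr) (x y : Vec) : kl S (lin x y) = ev S x ⬝ᵥ (y - x) := by
  simp only [kl, lin, ev, dot3, cross_eq, Pi.add_apply, Pi.sub_apply, Matrix.cons_val]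
  ring

lemma kl_lin' (S : Scr) (x y : Vec) : kl S (lin x y) = ev S y ⬝ᵥ (y - x) := by
  simp only [kl, lin, ev, dot3, cross_eq, Pi.add_apply, Pi.sub_apply, Matrix.cons_val]
  ring

lemma kl_comm (S T : Scr) : kl S T = kl T S := by
  simp only [kl, dot3]; ring

lemma kl_add (S T R : Scr) : kl (S + T) R = kl S R + kl T R := by
  simp only [kl, Prod.snd_add, Prod.fst_add, add_dotProduct]; ring

lemma kl_sub (S T R : Scr) : kl (S - T) R = kl S R - kl T R := by
  simp only [kl, Prod.snd_sub, Prod.fst_sub, sub_dotProduct]; ring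

lemma kl_smul (r : ℝ) (S R : Scr) : kl (r • S) R = r * kl S R := by
  simp only [kl, Prod.smul_snd, Prod.smul_fst, smul_dotProduct, smul_eq_mul]; ring

lemma kl_add' (S T R : Scr) : kl R (S + T) = kl R S + kl R T := by
  rw [kl_comm, kl_add, kl_comm S, kl_comm T]

lemma kl_sub' (S T R : Scr) : kl R (S - T) = kl R S - kl R T := by
  rw [kl_comm, kl_sub, kl_comm S, kl_comm T]

lemma kl_smul' (r : ℝ) (S R : Scr) : kl R (r • S) = r * kl R S := by
  rw [kl_comm, kl_smul, kl_comm]

@[simp] lemma kl_zero (S : Scr) : kl 0 S = 0 := by simp [kl]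

@[simp] lemma kl_zero' (S : Scr) : kl S 0 = 0 := by simp [kl]

lemma ev_lin_left (x y : Vec) : ev (lin x y) x = 0 := by
  apply vec_ext <;> simp only [lin, ev, cross_eq, Pi.add_apply, Pi.sub_apply, Pi.zero_apply,
    Matrix.cons_val] <;> ring

lemma ev_lin_right (x y : Vec) : ev (lin x y) y = 0 := by
  apply vec_ext <;> simp only [lin, ev, cross_eq, Pi.add_apply, Pi.sub_apply, Pi.zero_apply,
    Matrix.cons_val] <;> ring

lemma ev_lin (x y z : Vec) : ev (lin x y) z = (y - x) ⨯₃ (z - y) := by
  apply vec_ext <;> simp only [lin, ev, cross_eq, Pi.add_apply, Pi.sub_apply, 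
    Matrix.cons_val] <;> ring

lemma ev_sub_ev (S : Scr) (x y : Vec) : ev S x - ev S y = S.1 ⨯₃ (x - y) := by
  apply vec_ext <;> simp only [ev, cross_eq, Pi.add_apply, Pi.sub_apply,
    Matrix.cons_val] <;> ring

lemma lin_swap (x y : Vec) : lin y x = - lin x y := by
  have : (-(lin x y)) = (-(y - x), -(x ⨯₃ y)) := rfl
  rw [this, lin]
  refine Prod.ext ?_ ?_
  · simp
  · apply vec_ext <;> simp only [cross_eq, Pi.neg_apply, Matrix.cons_val] <;> ring

/-- if `a × b = 0` and `b ≠ 0` then `a` is a multiple of `b` -/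
lemma cross_zero (a b : Vec) (hb : b ≠ 0) (h : a ⨯₃ b = 0) : ∃ r : ℝ, a = r • b := by
  have hbb : b ⬝ᵥ b ≠ 0 := by
    intro h0
    exact hb (dotProduct_self_eq_zero.mp h0)
  refine ⟨(a ⬝ᵥ b) / (b ⬝ᵥ b), ?_⟩
  rw [cross_eq] at h
  have h0 := congrFun h 0
  have h1 := congrFun h 1
  have h2 := congrFun h 2
  simp only [Matrix.cons_val, Pi.zero_apply] at h0 h1 h2
  have key : ∀ i, a i * (b ⬝ᵥ b) = (a ⬝ᵥ b) * b i := by
    intro i
    rw [dot3, dot3]
    fin_cases i
    · simp only [Fin.zero_eta]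
      linear_combination (-b 2) * h1 + (b 1) * h2
    · simp only [Fin.mk_one]
      linear_combination (b 2) * h0 + (-b 0) * h2
    · simp only [Fin.reduceFinMk]
      linear_combination (-b 1) * h0 + (b 0) * h1
  funext i
  rw [Pi.smul_apply, smul_eq_mul, div_mul_eq_mul_div, eq_div_iff hbb, key i]

lemma scr_two (S : Scr) (x y : Vec) (hxy : x ≠ y) (hx : ev S x = 0) (hy : ev S y = 0) :
    ∃ r : ℝ, S = r • lin x y := by
  have h : S.1 ⨯₃ (y - x) = 0 := by
    rw [← ev_sub_ev, hx, hy, sub_zero]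
  obtain ⟨r, hr⟩ := cross_zero S.1 (y - x) (sub_ne_zero.mpr hxy.symm) h
  refine ⟨r, Prod.ext hr ?_⟩
  have : S.2 = - (S.1 ⨯₃ x) := by
    rw [ev] at hx
    exact eq_neg_of_add_eq_zero_left hx
  rw [this, hr]
  apply vec_ext <;> simp only [lin, Prod.smul_snd, cross_eq, Pi.neg_apply, Pi.smul_apply, Pi.sub_apply,
    smul_eq_mul, Matrix.cons_val] <;> ring

lemma scr_three (S : Scr) (x y z : Vec) (h : (y - x) ⨯₃ (z - x) ≠ 0) (hx : ev S x = 0)
    (hy : ev S y = 0) (hz : ev S z = 0) : S = 0 := by
  have hxy : x ≠ y := by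
    rintro rfl
    apply h; simp
  obtain ⟨r, hr⟩ := scr_two S x y hxy hx hy
  subst hr
  rw [ev_smul, ev_lin] at hz
  have h2 : (y - x) ⨯₃ (z - y) = (y - x) ⨯₃ (z - x) := by
    apply vec_ext <;> simp only [cross_eq, Pi.sub_apply, Matrix.cons_val] <;> ring
  rw [h2] at hz
  rcases smul_eq_zero.mp hz with h0 | h0
  · rw [h0, zero_smul]
  · exact absurd h0 h

lemma lin_ne_zero (x y : Vec) (h : x ≠ y) : lin x y ≠ 0 := by
  intro h0
  have : y - x = 0 := congrArg Prod.fst h0
  exact h (sub_eq_zero.mp this).symm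

/-! ### distances -/

lemma dsq_comm (x y : Vec) : dsq x y = dsq y x := by
  simp only [dsq, dot3, Pi.sub_apply]; ring

@[simp] lemma dsq_self (x : Vec) : dsq x x = 0 := by simp [dsq]

section
variable {V : Type} [Fintype V]

lemma Cgr.mono {X Y : Set V} {p q : V → Vec} (h : Cgr Y p q) (hXY : X ⊆ Y) : Cgr X p q :=
  fun u hu w hw => h u (hXY hu) w (hXY hw)

lemma Cgr_Bd {G : SimpleGraph V} {c : V → V} {p q : V → Vec} (h : Eqv (HP G c) p q) (v : V) :
    Cgr (Bd G c v) p q := by
  intro u hu w hw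
  by_cases e : u = w
  · subst e; simp
  · exact h u w ⟨e, v, hu, hw⟩

lemma mem_Bd_self (G : SimpleGraph V) (c : V → V) (v : V) : v ∈ Bd G c v := Or.inl rfl

lemma mem_Bd_of_adj {G : SimpleGraph V} {c : V → V} {u v : V} (h : G.Adj u v) : u ∈ Bd G c v :=
  Or.inr ⟨v, h, rfl⟩

lemma Bd_congr {G : SimpleGraph V} {c : V → V} {u v : V} (h : c u = c v) :
    Bd G c u = Bd G c v := by
  unfold Bd; rw [h]

/-! ### systems -/

lemma mem_Mot {G : SimpleGraph V} {c : V → V} {p : V → Vec} {S : V → Scr} :
    S ∈ Mot G c p ↔ (∀ u w, c u = c w → S u = S w) ∧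
      (∀ u w, G.Adj u w → ev (S u) (p u) = ev (S w) (p u)) := by
  constructor
  · intro h
    exact ⟨fun u w e => h.1 (u, w) e, fun u w e => h.2.1 (u, w, u) ⟨e, rfl⟩⟩
  · intro h
    refine ⟨fun x hx => h.1 _ _ hx, ?_, fun x hx => hx.elim⟩
    rintro ⟨u, w, x⟩ ⟨h1, h2⟩
    simp only at h1 h2
    subst h2
    exact h.2 _ _ h1

lemma mem_PinMot {G : SimpleGraph V} {c : V → V} {p : V → Vec} {v : V} {S : V → Scr} :
    S ∈ PinMot G c p v ↔ (∀ u w, c u = c w → S u = S w) ∧
      (∀ u w, G.Adj u w → u ≠ v → ev (S u) (p u) = ev (S w) (p u)) := by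
  constructor
  · intro h
    exact ⟨fun u w e => h.1 (u, w) e, fun u w e hv => h.2.1 (u, w, u) ⟨e, rfl, hv⟩⟩
  · intro h
    refine ⟨fun x hx => h.1 _ _ hx, ?_, fun x hx => hx.elim⟩
    rintro ⟨u, w, x⟩ ⟨h1, h2, h3⟩
    simp only at h1 h2 h3
    subst h2
    exact h.2 _ _ h1 h3

lemma mem_Urel {G : SimpleGraph V} {c : V → V} {p : V → Vec} {s t : V} {T : Scr} :
    T ∈ Urel G c p s t ↔ ∃ S ∈ Mot G c p, S s - S t = T := by
  simp [Urel, dif, Submodule.mem_map]

/-- constant assignments are motions -/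
lemma const_mem_Mot (G : SimpleGraph V) (c : V → V) (p : V → Vec) (T : Scr) :
    (fun _ => T) ∈ Mot G c p := mem_Mot.mpr ⟨fun _ _ _ => rfl, fun _ _ _ => rfl⟩

/-- the constant assignments -/
def constMap (V : Type) : Scr →ₗ[ℝ] (V → Scr) := LinearMap.pi (fun _ => LinearMap.id)

lemma finrank_scr : finrank ℝ Scr = 6 := by simp [Scr, Vec]

lemma finrank_const [Nonempty V] : finrank ℝ (LinearMap.range (constMap V)) = 6 := by
  rw [LinearMap.finrank_range_of_inj, finrank_scr]
  intro a b h
  exact congrFun h (Classical.arbitrary V)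

/-- if the space of motions has dimension at most six then every motion is constant -/
lemma const_of_finrank {N : Submodule ℝ (V → Scr)} (hN : ∀ T : Scr, (fun _ => T) ∈ N)
    (h : finrank ℝ N ≤ 6) {S : V → Scr} (hS : S ∈ N) (u w : V) : S u = S w := by
  have : Nonempty V := ⟨u⟩
  have hle : LinearMap.range (constMap V) ≤ N := by
    rintro _ ⟨T, rfl⟩
    exact hN T
  have heq : LinearMap.range (constMap V) = N :=
    Submodule.eq_of_le_of_finrank_le hle (by rw [finrank_const]; exact h)
  rw [← heq] at hS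
  obtain ⟨T, rfl⟩ := hS
  rfl

lemma Mot_const {G : SimpleGraph V} {c : V → V} {p : V → Vec}
    (h : finrank ℝ (Mot G c p) ≤ 6) {S : V → Scr} (hS : S ∈ Mot G c p) (u w : V) : S u = S w :=
  const_of_finrank (const_mem_Mot G c p) h hS u w

/-- conversely, if every element of `N` is constant then the dimension is at most six -/
lemma finrank_le_six {N : Submodule ℝ (V → Scr)} (h : ∀ S ∈ N, ∀ u w, S u = S w) :
    finrank ℝ N ≤ 6 := by
  rcases isEmpty_or_nonempty V with hV | hV
  · have : finrank ℝ (V → Scr) = 0 := by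
      rw [finrank_zero_iff]; infer_instance
    exact (Submodule.finrank_le N).trans (by omega)
  · have hle : N ≤ LinearMap.range (constMap V) := by
      intro S hS
      refine ⟨S (Classical.arbitrary V), ?_⟩
      funext u
      exact h S hS _ _
    exact (Submodule.finrank_mono hle).trans (by rw [finrank_const])

/-- agreement along an edge between different classes -/
lemma Mot_edge {G : SimpleGraph V} {c : V → V} {p : V → Vec} {S : V → Scr}
    (hS : S ∈ Mot G c p) {u w : V} (h : G.Adj u w) (hp : p u ≠ p w) :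
    ∃ r : ℝ, S u - S w = r • lin (p u) (p w) := by
  have h1 := (mem_Mot.mp hS).2 u w h
  have h2 := (mem_Mot.mp hS).2 w u h.symm
  exact scr_two _ _ _ hp (by rw [ev_sub, h1, sub_self]) (by rw [ev_sub, h2, sub_self])

/-! ### partitions -/

end

section
variable {K : Type} [Fintype K]

/-- two colourings with the same fibres use the same number of colours -/
lemma pt_congr {L L' : Type} {d : K → L} {d' : K → L'} (h : ∀ u w, d u = d w ↔ d' u = d' w) :
    pt d = pt d' := by
  rcases isEmpty_or_nonempty K with hK | hK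
  · unfold pt
    rw [Finset.univ_eq_empty]
    simp
  · unfold pt
    have e : (Finset.univ.image d') = (Finset.univ.image d).image
        (fun l => d' (Function.invFun d l)) := by
      rw [Finset.image_image]
      apply Finset.image_congr
      intro x _
      simp only [Function.comp_apply]
      have : d (Function.invFun d (d x)) = d x := Function.invFun_eq ⟨x, rfl⟩
      exact ((h _ _).mp this).symm
    rw [e]
    symm
    apply Finset.card_image_of_injOn
    intro l hl l' hl' hll
    simp only [Finset.coe_image, Finset.coe_univ, Set.image_univ, Set.mem_range] at hl hl'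
    obtain ⟨x, rfl⟩ := hl
    obtain ⟨y, rfl⟩ := hl'
    simp only at hll
    have h1 : d (Function.invFun d (d x)) = d x := Function.invFun_eq ⟨x, rfl⟩
    have h2 : d (Function.invFun d (d y)) = d y := Function.invFun_eq ⟨y, rfl⟩
    rw [← h] at hll
    rw [← h1, ← h2, hll]

lemma me2_congr {L L' : Type} (m : K → K → ℕ) {d : K → L} {d' : K → L'}
    (h : ∀ u w, d u = d w ↔ d' u = d' w) : me2 m d = me2 m d' := by
  unfold me2
  refine Finset.sum_congr rfl fun x _ => Finset.sum_congr rfl fun y _ => ?_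
  by_cases e : d x = d y
  · simp [e, (h x y).mp e]
  · have e' : ¬ d' x = d' y := fun k => e ((h x y).mpr k)
    simp [e, e']

lemma ms2_congr {L L' : Type} (m : K → K → ℕ) {d : K → L} {d' : K → L'}
    (h : ∀ u w, d u = d w ↔ d' u = d' w) : ms2 m d = ms2 m d' := by
  unfold ms2; rw [pt_congr h, me2_congr m h]

/-- every colouring can be replaced by one with values in the vertex set -/
lemma exists_relabel {L : Type} (d : K → L) : ∃ d' : K → K, ∀ u w, d' u = d' w ↔ d u = d w := by
  rcases isEmpty_or_nonempty K with hK | hK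
  · exact ⟨id, fun u => (hK.false u).elim⟩
  · refine ⟨fun v => Function.invFun d (d v), fun u w => ⟨fun h => ?_, fun h => by simp [h]⟩⟩
    have h1 : d (Function.invFun d (d u)) = d u := Function.invFun_eq ⟨u, rfl⟩
    have h2 : d (Function.invFun d (d w)) = d w := Function.invFun_eq ⟨w, rfl⟩
    simp only at h
    rw [← h1, ← h2, h]

lemma MTt_all {m : K → K → ℕ} (h : MTt m) {L : Type} (Q : K → L) (hQ : 2 ≤ pt Q) :
    2 ≤ ms2 m Q := by
  obtain ⟨d', hd'⟩ := exists_relabel Q
  have := h d' (by rw [pt_congr hd']; exact hQ)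
  rwa [ms2_congr m hd'] at this

lemma pt_pos [Nonempty K] {L : Type} (d : K → L) : 1 ≤ pt d := by
  unfold pt
  exact Finset.card_pos.mpr (Finset.univ_nonempty.image d)

lemma me2_even (m : K → K → ℕ) (hm : MSym m) {L : Type} (Q : K → L) : Even (me2 m Q) := by
  unfold me2
  rw [← Finset.sum_product' (f := fun x y => if Q x ≠ Q y then m x y else 0)]
  have key : ∀ s : Finset (K × K), (∀ x ∈ s, (x.2, x.1) ∈ s) →
      Even (∑ x ∈ s, if Q x.1 ≠ Q x.2 then m x.1 x.2 else 0) := by
    intro s
    induction s using Finset.strongInduction with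
    | H s ih =>
      intro hs
      rcases s.eq_empty_or_nonempty with h | ⟨x, hx⟩
      · subst h; simp
      · by_cases hxx : x.1 = x.2
        · have h1 : (∑ y ∈ s.erase x, if Q y.1 ≠ Q y.2 then m y.1 y.2 else 0) +
              (if Q x.1 ≠ Q x.2 then m x.1 x.2 else 0) = _ := Finset.sum_erase_add s _ hx
          rw [← h1]
          rw [if_neg (by rw [hxx]; simp), add_zero]
          apply ih _ (Finset.erase_ssubset hx)
          intro y hy
          rw [Finset.mem_erase] at hy ⊢
          refine ⟨fun h => hy.1 ?_, hs y hy.2⟩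
          rw [← h] at hxx
          simp only at hxx
          rw [← h]
          exact Prod.ext hxx.symm hxx
        · have hx' : (x.2, x.1) ∈ s.erase x := by
            rw [Finset.mem_erase]
            refine ⟨fun h => hxx (congrArg Prod.snd h), hs x hx⟩
          have h1 := Finset.sum_erase_add s (fun y => if Q y.1 ≠ Q y.2 then m y.1 y.2 else 0) hx
          have h2 := Finset.sum_erase_add (s.erase x)
            (fun y => if Q y.1 ≠ Q y.2 then m y.1 y.2 else 0) hx'
          rw [← h1, ← h2]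
          simp only
          have h3 : (if Q x.2 ≠ Q x.1 then m x.2 x.1 else 0) =
              (if Q x.1 ≠ Q x.2 then m x.1 x.2 else 0) := by
            rw [hm.1 x.2 x.1]
            congr 1
            simp only [ne_eq, eq_comm]
          rw [h3, add_assoc]
          apply Even.add
          · apply ih _ ((Finset.erase_subset _ _).trans_ssubset (Finset.erase_ssubset hx))
            intro y hy
            rw [Finset.mem_erase, Finset.mem_erase] at hy ⊢
            refine ⟨fun h => hy.2.1 ?_, fun h => hy.1 ?_, hs y hy.2.2⟩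
            · have := congrArg Prod.swap h
              simpa using this
            · rw [← h]
          · exact ⟨_, rfl⟩
  exact key _ (fun x _ => by simp)

end

section
variable {V : Type} [Fintype V]

lemma cr2_congr {L L' : Type} (G : SimpleGraph V) {d : V → L} {d' : V → L'}
    (h : ∀ u w, d u = d w ↔ d' u = d' w) : cr2 G d = cr2 G d' := by
  unfold cr2
  congr 1
  ext x
  simp [h x.1 x.2]

lemma s2_congr {L L' : Type} (G : SimpleGraph V) {d : V → L} {d' : V → L'}
    (h : ∀ u w, d u = d w ↔ d' u = d' w) : s2 G d = s2 G d' := by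
  unfold s2; rw [pt_congr h, cr2_congr G h]

lemma Tt_all {G : SimpleGraph V} {c : V → V} (h : Tt G c) {L : Type} (d : V → L)
    (hd : Coarse c d) (h2 : 2 ≤ pt d) : 2 ≤ s2 G d := by
  obtain ⟨d', hd'⟩ := exists_relabel d
  have := h d' (fun u w e => (hd' u w).mpr (hd u w e)) (by rw [pt_congr hd']; exact h2)
  rwa [s2_congr G hd'] at this

lemma Cnd_all {G : SimpleGraph V} {c : V → V} {k : ℕ} (h : Cnd G c k) {L : Type} (d : V → L)
    (hd : Coarse c d) : -(2 * (k : ℤ)) ≤ s2 G d := by
  obtain ⟨d', hd'⟩ := exists_relabel d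
  have := h d' (fun u w e => (hd' u w).mpr (hd u w e))
  rwa [s2_congr G hd'] at this

/-- a general principle: hypotheses quantified over colourings `V → V` apply to all colourings -/
lemma exists_relabel' {L : Type} (G : SimpleGraph V) (d : V → L) :
    ∃ d' : V → V, (∀ u w, d' u = d' w ↔ d u = d w) ∧ pt d' = pt d ∧ cr2 G d' = cr2 G d ∧
      s2 G d' = s2 G d := by
  obtain ⟨d', hd'⟩ := exists_relabel d
  exact ⟨d', hd', pt_congr hd', cr2_congr G hd', s2_congr G hd'⟩

lemma cr2_even (G : SimpleGraph V) {L : Type} (d : V → L) : Even (cr2 G d) := by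
  have h := me2_even (fun u w => if G.Adj u w then 1 else 0)
    ⟨fun x y => by simp only [G.adj_comm x y], fun x => by simp⟩ d
  have h2 : me2 (fun u w => if G.Adj u w then 1 else 0) d = cr2 G d := by
    unfold me2 cr2
    rw [← Finset.sum_product' (f := fun x y => if d x ≠ d y then (if G.Adj x y then 1 else 0) else 0),
      Finset.card_filter]
    refine Finset.sum_congr rfl fun x _ => ?_
    by_cases h1 : G.Adj x.1 x.2 <;> by_cases h2 : d x.1 = d x.2 <;> simp [h1, h2]
  rwa [h2] at h

lemma s2_even (G : SimpleGraph V) {L : Type} (d : V → L) : ∃ r : ℤ, s2 G d = 2 * r := by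
  obtain ⟨r, hr⟩ := cr2_even G d
  refine ⟨5 * r - 6 * pt d + 6, ?_⟩
  unfold s2; rw [hr]; push_cast; ring

lemma ms2_even {K : Type} [Fintype K] (m : K → K → ℕ) (hm : MSym m) {L : Type} (Q : K → L) :
    ∃ r : ℤ, ms2 m Q = 2 * r := by
  obtain ⟨r, hr⟩ := me2_even m hm Q
  refine ⟨5 * r - 6 * pt Q + 6, ?_⟩
  unfold ms2; rw [hr]; push_cast; ring

/-- chains can be reversed -/
lemma Chain.rev {G : SimpleGraph V} {c : V → V} {s x x' y y' t : V}
    (h : Chain G c s x x' y y' t) : Chain G c t y y' x x' s where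
  cx := h.cy
  cy := h.cx
  xy := h.xy.symm
  sx := h.ty
  sy := h.tx
  tx := h.sy
  ty := h.sx
  e1 := h.e3
  e2 := h.e2.symm
  e3 := h.e1
  oX := h.oY
  oY := h.oX

lemma GRc_comm (G : SimpleGraph V) (c : V → V) (x y : V) : GRc G c x y = GRc G c y x := by
  unfold GRc
  congr 1
  ext v
  simp [or_comm]

end

end Pool.Agent.H52.MG
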