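import Pool.Agent.H52.MG.Basic
import Pool.Agent.H52.MG.Targets

/-!
# COMB: assembly of the combinatorial theorem
-/

set_option autoImplicit false
set_option linter.unusedSectionVars false

noncomputable section

open Classical Module
open scoped Matrix

namespace Pool.Agent.H52.MG

section
variable {K : Type} [Fintype K]

lemma mcut_compl {m : K → K → ℕ} (hm : MSym m) (A : Finset K) : mcut m Aᶜ = mcut m A := by
  unfold mcut
  rw [compl_compl, Finset.sum_comm]
  exact Finset.sum_congr rfl fun x _ => Finset.sum_congr rfl fun y _ => hm.1 y x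

lemma me2_two {m : K → K → ℕ} (hm : MSym m) (A : Finset K) {L : Type} {a b : L}
    (hab : a ≠ b) : me2 m (fun x => if x ∈ A then a else b) = 2 * mcut m A := by
  unfold me2
  have h1 : ∀ x, (∑ y, if (if x ∈ A then a else b) ≠ (if y ∈ A then a else b) then m x y else 0) =
      if x ∈ A then ∑ y ∈ Aᶜ, m x y else ∑ y ∈ A, m x y := by
    intro x
    by_cases hx : x ∈ A
    · rw [if_pos hx, if_pos hx, ← Finset.sum_filter]
      apply Finset.sum_congr _ fun _ _ => rfl
      ext y
      by_cases hy : y ∈ A <;> simp [hy, hab]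
    · rw [if_neg hx, if_neg hx, ← Finset.sum_filter]
      apply Finset.sum_congr _ fun _ _ => rfl
      ext y
      by_cases hy : y ∈ A <;> simp [hy, hab.symm]
  refine (Finset.sum_congr rfl fun x _ => h1 x).trans ?_
  rw [Finset.sum_ite]
  have e1 : (Finset.univ.filter fun x => x ∈ A) = A := by ext x; simp
  have e2 : (Finset.univ.filter fun x => x ∉ A) = Aᶜ := by ext x; simp
  rw [e1, e2]
  have h3 : (∑ x ∈ Aᶜ, ∑ y ∈ A, m x y) = mcut m A := by
    rw [← mcut_compl hm A]; unfold mcut; rw [compl_compl]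
  rw [h3]
  unfold mcut
  ring

lemma pt_two {A : Finset K} (h1 : A.Nonempty) (h2 : A ≠ Finset.univ) {L : Type} {s t : L}
    (hst : s ≠ t) : pt (fun x => if x ∈ A then s else t) = 2 := by
  obtain ⟨a, ha⟩ := h1
  obtain ⟨b, hb⟩ : ∃ b, b ∉ A := by
    by_contra h
    push Not at h
    exact h2 (Finset.eq_univ_iff_forall.mpr h)
  unfold pt
  have : Finset.univ.image (fun x => if x ∈ A then s else t) = {s, t} := by
    ext r
    simp only [Finset.mem_image, Finset.mem_univ, true_and, Finset.mem_insert,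
      Finset.mem_singleton]
    constructor
    · rintro ⟨x, hx⟩
      by_cases h : x ∈ A
      · rw [if_pos h] at hx; exact Or.inl hx.symm
      · rw [if_neg h] at hx; exact Or.inr hx.symm
    · rintro (h | h)
      · exact ⟨a, by rw [h, if_pos ha]⟩
      · exact ⟨b, by rw [h, if_neg hb]⟩
  rw [this, Finset.card_pair hst]

lemma two_le_mcut {m : K → K → ℕ} (hm : MSym m) (hT : MTt m) {A : Finset K}
    (h1 : A.Nonempty) (h2 : A ≠ Finset.univ) : 2 ≤ mcut m A := by
  have h := MTt_all hT (fun x => if x ∈ A then true else false)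
    (by rw [pt_two h1 h2 (by decide)])
  unfold ms2 at h
  rw [me2_two hm A (by decide), pt_two h1 h2 (by decide)] at h
  push_cast at h
  omega

lemma mcut_singleton {m : K → K → ℕ} (hm : MSym m) (x : K) : mcut m {x} = mdeg m x := by
  unfold mcut mdeg
  rw [Finset.sum_singleton, ← Finset.sum_add_sum_compl {x} (fun y => m x y)]
  simp [hm.2]

lemma singleton_ne_univ (hK : 2 ≤ Fintype.card K) (x : K) : ({x} : Finset K) ≠ Finset.univ := by
  intro h
  have := congrArg Finset.card h
  rw [Finset.card_singleton, Finset.card_univ] at this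
  omega

lemma two_le_mdeg {m : K → K → ℕ} (hm : MSym m) (hT : MTt m) (hK : 2 ≤ Fintype.card K) (x : K) :
    2 ≤ mdeg m x := by
  rw [← mcut_singleton hm]
  exact two_le_mcut hm hT ⟨x, by simp⟩ (singleton_ne_univ hK x)

lemma ms2_nonneg {m : K → K → ℕ} (hT : MTt m) (Q : K → K) : 0 ≤ ms2 m Q := by
  by_cases h : 2 ≤ pt Q
  · have := hT Q h; omega
  · unfold ms2
    have : (0 : ℤ) ≤ (me2 m Q : ℤ) := by positivity
    omega

lemma two_le_pt {L : Type} {Q : K → L} {x y : K} (h : Q x ≠ Q y) : 2 ≤ pt Q := by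
  unfold pt
  have : ({Q x, Q y} : Finset L) ⊆ Finset.univ.image Q := by
    intro z hz
    simp only [Finset.mem_insert, Finset.mem_singleton] at hz
    rcases hz with h | h <;> rw [h] <;> exact Finset.mem_image_of_mem _ (Finset.mem_univ _)
  calc 2 = ({Q x, Q y} : Finset L).card := (Finset.card_pair h).symm
    _ ≤ _ := Finset.card_le_card this

/-- for a vertex of `Z` the cut value in the linked multigraph is the degree -/
lemma cutI_single {m : K → K → ℕ} (hm : MSym m) {Z : Finset K} {f g f' g' x : K}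
    (hL : Link m Z f g f' g') (hx : x ∈ Z) (h : f ≠ g ∨ x ≠ f) :
    cutI (mst m f g) Z {x} = mdeg m x := by
  obtain ⟨hf, hg, hf', hg', hl⟩ := hL
  unfold cutI mdeg mst
  rw [Finset.sum_singleton, ← Finset.sum_add_sum_compl Z (fun y => m x y),
    Finset.sum_add_distrib]
  have h1 : (∑ y ∈ Z, m x y) = ∑ y ∈ Z \ {x}, m x y := by
    rw [← Finset.sum_sdiff (Finset.singleton_subset_iff.mpr hx)]
    simp [hm.2]
  have h2 : (∑ y ∈ Zᶜ, m x y) = (if x = f then 1 else 0) + (if x = g then 1 else 0) := by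
    rw [Finset.sum_congr rfl (fun y hy => hl x hx y hy), Finset.sum_add_distrib]
    congr 1
    · by_cases e : x = f
      · rw [if_pos e]
        simp only [e, true_and]
        rw [Finset.sum_ite_eq' Zᶜ f' (fun _ => 1), if_pos (by simpa using hf')]
      · simp [e]
    · by_cases e : x = g
      · rw [if_pos e]
        simp only [e, true_and]
        rw [Finset.sum_ite_eq' Zᶜ g' (fun _ => 1), if_pos (by simpa using hg')]
      · simp [e]
  rw [h1, h2]
  congr 1
  by_cases hfg : f = g
  · have hxf : x ≠ f := by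
      rcases h with h | h
      · exact absurd hfg h
      · exact h
    have hxg : x ≠ g := hfg ▸ hxf
    simp [hfg, hxg]
  · by_cases e : x = f
    · have e2 : x ≠ g := fun k => hfg (e.symm.trans k)
      rw [if_pos e, if_neg e2]
      have : ∀ y ∈ Z \ {x}, (if f ≠ g ∧ (x = f ∧ y = g ∨ x = g ∧ y = f) then 1 else 0) =
          if y = g then 1 else 0 := by
        intro y _
        by_cases h1 : y = g
        · simp [h1, hfg, e]
        · simp [h1, e2]
      rw [Finset.sum_congr rfl this, Finset.sum_ite_eq' _ g (fun _ => 1), if_pos]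
      simp only [Finset.mem_sdiff, Finset.mem_singleton]
      exact ⟨hg, fun k => e2 k.symm⟩
    · rw [if_neg e]
      by_cases e2 : x = g
      · rw [if_pos e2]
        have : ∀ y ∈ Z \ {x}, (if f ≠ g ∧ (x = f ∧ y = g ∨ x = g ∧ y = f) then 1 else 0) =
            if y = f then 1 else 0 := by
          intro y _
          by_cases h1 : y = f
          · simp [h1, hfg, e2]
          · simp [h1, e]
        rw [Finset.sum_congr rfl this, Finset.sum_ite_eq' _ f (fun _ => 1), if_pos]
        simp only [Finset.mem_sdiff, Finset.mem_singleton]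
        exact ⟨hf, fun k => e k.symm⟩
      · simp [e, e2]

end

theorem comb (hLNK : T_LNK) (h0 : T_CC0) (h1 : T_CC1) (h2 : T_CC2) (h4 : T_CC4) (h5 : T_CC5)
    (hTEC : T_TEC) (hCE : T_CE) (hCF : T_CF) : T_COMB := by
  intro K _ m hm hT hK
  by_cases hi : ∃ x y, mdeg m x = 2 ∧ mdeg m y = 2 ∧ 0 < m x y
  · exact Or.inl hi
  by_cases hii : ∃ x, mdeg m x = 2 ∧ (∀ y, 0 < m x y → 3 ≤ mdeg m y) ∧
    ∀ Q : K → K, (∀ y, Q y = Q x → y = x) → 6 ≤ ms2 m Q
  · exact Or.inr (Or.inl hii)
  have hi' : ∀ x y, mdeg m x = 2 → mdeg m y = 2 → m x y = 0 := by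
    intro x y hx hy
    by_contra h
    exact hi ⟨x, y, hx, hy, Nat.pos_of_ne_zero h⟩
  have hd2 := two_le_mdeg hm hT hK
  by_cases hZ : ∃ Z : Finset K, 2 ≤ Z.card ∧ mcut m Z = 2
  · -- Case I
    obtain ⟨Z, hZs, hmin⟩ := (Finset.univ.filter
      (fun Z : Finset K => 2 ≤ Z.card ∧ mcut m Z = 2)).exists_min_image Finset.card
      (by obtain ⟨Z, hZ⟩ := hZ; exact ⟨Z, by simp [hZ]⟩)
    simp only [Finset.mem_filter, Finset.mem_univ, true_and] at hZs hmin
    have hM : MinZ m Z := by
      refine ⟨hZs.2, hZs.1, fun Z' hZ' h2 hc => ?_⟩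
      have := hmin Z' ⟨h2, hc⟩
      have := Finset.card_lt_card hZ'
      omega
    have hd3 : ∀ x ∈ Z, 3 ≤ mdeg m x := by
      intro x hx
      by_contra h
      have hx2 : mdeg m x = 2 := by have := hd2 x; omega
      refine hii ⟨x, hx2, fun y hy => ?_, fun Q hQ => h0 K m hm hT Z hM hi' x hx hx2 Q hQ⟩
      by_contra h3
      have hy2 : mdeg m y = 2 := by have := hd2 y; omega
      have := hi' x y hx2 hy2
      omega
    obtain ⟨f, g, f', g', hL⟩ := hLNK K m Z hM.1
    have hc4 := h4 K m hm hT Z hM hd3 f g f' g' hL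
    have inner : ∀ x ∈ Z, x ≠ f → x ≠ g → ∀ y ∈ Zᶜ, m x y = 0 := by
      intro x hx hf hg y hy
      rw [hL.2.2.2.2 x hx y hy]
      simp [hf, hg]
    have innerZ : ∀ x ∈ Z, x ≠ f → x ≠ g → ∀ y, 0 < m x y → y ∈ Z := by
      intro x hx hf hg y hy
      by_contra h
      have := inner x hx hf hg y (by simpa using h)
      omega
    rcases hTEC K m Z f g hm hL.1 hL.2.1 hM.2.1 hc4 with hA | hB | hC
    · obtain ⟨x, hx, hf, hg, hc⟩ := hA
      rw [cutI_single hm hL hx (Or.inr hf)] at hc
      refine Or.inr (Or.inr (Or.inl ⟨x, hc, fun y hy => hd3 y (innerZ x hx hf hg y hy),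
        fun Q hQ => h2 K m hm hT Z hM hd3 x hx (inner x hx hf hg) Q hQ, fun Q y hy hQ => ?_⟩))
      exact (h1 K m hm hT Z hM hd3 Q x hx y (innerZ x hx hf hg y hy) hQ).1
    · obtain ⟨x, hx, y, hy, hxy, hc⟩ := hB
      have hc' := h5 K m hm hT Z f g f' g' hL x hx y hy hc
      exact Or.inr (Or.inr (Or.inr (Or.inl ⟨x, y, hxy, fun Q hQ =>
        (h1 K m hm hT Z hM hd3 Q x hx y hy hQ).2 hc', hc'⟩)))
    · obtain ⟨hfg, x₀, hx₀, x₁, hx₁, -, hc0, hm01, hne, hc1⟩ := hC
      rw [cutI_single hm hL hx₀ (Or.inl hfg)] at hc0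
      rcases hc1 with ⟨hc1, -⟩ | ⟨hc1, hf, hg⟩
      · rw [cutI_single hm hL hx₁ (Or.inl hfg)] at hc1
        exact Or.inr (Or.inr (Or.inr (Or.inr (Or.inr ⟨x₀, x₁, hne, hc0, hc1, hm01,
          fun Q hQ => (h1 K m hm hT Z hM hd3 Q x₀ hx₀ x₁ hx₁ hQ).1⟩))))
      · rw [cutI_single hm hL hx₁ (Or.inl hfg)] at hc1
        have hb : ∀ (Q : K → K) (y : K), 0 < m x₁ y → Q x₁ ≠ Q y → 10 ≤ ms2 m Q :=
          fun Q y hy hQ => (h1 K m hm hT Z hM hd3 Q x₁ hx₁ y (innerZ x₁ hx₁ hf hg y hy) hQ).1
        exact Or.inr (Or.inr (Or.inr (Or.inr (Or.inl ⟨x₀, x₁, hne, hc0, hc1, hm01,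
          fun y hy => hd3 y (innerZ x₁ hx₁ hf hg y hy), hb,
          hCE K m x₀ x₁ hm hne hc1 hm01 (ms2_nonneg hT) hb⟩))))
  · -- Case II
    push Not at hZ
    by_cases hK2 : ∃ A : Finset K, A.Nonempty ∧ A ≠ Finset.univ ∧ mcut m A = 2
    · exfalso
      obtain ⟨A, hA1, hA2, hA3⟩ := hK2
      have c1 : A.card = 1 := by
        have h3 := Finset.card_pos.mpr hA1
        by_contra h
        exact hZ A (by omega) hA3
      have c2 : Aᶜ.card = 1 := by
        have h3 : 0 < Aᶜ.card := by
          rw [Finset.card_pos]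
          by_contra h
          rw [Finset.not_nonempty_iff_eq_empty, Finset.compl_eq_empty_iff] at h
          exact hA2 h
        by_contra h
        exact hZ Aᶜ (by omega) (by rw [mcut_compl hm]; exact hA3)
      obtain ⟨x, hx⟩ := Finset.card_eq_one.mp c1
      obtain ⟨y, hy⟩ := Finset.card_eq_one.mp c2
      have hx2 : mdeg m x = 2 := by rw [← mcut_singleton hm, ← hx]; exact hA3
      have hy2 : mdeg m y = 2 := by
        rw [← mcut_singleton hm, ← hy, mcut_compl hm]; exact hA3
      have hxy : mcut m A = m x y := by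
        unfold mcut
        rw [hy, hx, Finset.sum_singleton, Finset.sum_singleton]
      have := hi' x y hx2 hy2
      omega
    · push Not at hK2
      have h3 : ∀ A : Finset K, A.Nonempty → A ≠ Finset.univ → 3 ≤ mcut m A := by
        intro A hA1 hA2
        have e1 := two_le_mcut hm hT hA1 hA2
        have e2 := hK2 A hA1 hA2
        omega
      have hcf := hCF K m hm h3
      obtain ⟨y0⟩ : Nonempty K := Fintype.card_pos_iff.mp (by omega)
      have hcut : ∀ A : Finset K, cutI (mst m y0 y0) Finset.univ A = mcut m A := by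
        intro A
        unfold cutI mst mcut
        rw [← Finset.compl_eq_univ_sdiff]
        simp
      rcases hTEC K m Finset.univ y0 y0 hm (Finset.mem_univ _) (Finset.mem_univ _)
        (by rw [Finset.card_univ]; exact hK)
        (fun A _ hA1 hA2 => by rw [hcut]; exact h3 A hA1 hA2) with hA | hB | hC
      · obtain ⟨x, -, hf, -, hc⟩ := hA
        rw [hcut, mcut_singleton hm] at hc
        have hQ2 : ∀ Q : K → K, (∀ y, Q y = Q x → y = x) → 2 ≤ pt Q := fun Q hQ =>
          two_le_pt (x := y0) (y := x) (fun e => hf (hQ y0 e).symm)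
        refine Or.inr (Or.inr (Or.inl ⟨x, hc, fun y _ => ?_, fun Q hQ => ?_,
          fun Q y _ hQ => ?_⟩))
        · rw [← mcut_singleton hm]
          exact h3 {y} ⟨y, by simp⟩ (singleton_ne_univ hK y)
        · have := hcf Q (hQ2 Q hQ); omega
        · have := hcf Q (two_le_pt hQ); omega
      · obtain ⟨x, -, y, -, hxy, hc⟩ := hB
        refine Or.inr (Or.inr (Or.inr (Or.inl ⟨x, y, hxy, fun Q hQ => ?_, fun A hx hy => ?_⟩)))
        · have := hcf Q (two_le_pt hQ); omega
        · have := hc A (Finset.subset_univ _) hx hy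
          rwa [hcut] at this
      · exact absurd rfl hC.1

end Pool.Agent.H52.MG
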