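import Pool.Agent.H52.MG.FIN

/-!
# Global rigidity of squares of graphs in three dimensions: the statement in Mathlib terms
-/

set_option autoImplicit false

noncomputable section

open Classical

namespace Pool.Agent.H52.MG.Clean

/-- The square of a graph: two different vertices are adjacent when their distance is at
most two. -/
def square {V : Type} (G : SimpleGraph V) : SimpleGraph V where
  Adj u w := u ≠ w ∧ (G.Adj u w ∨ ∃ z, G.Adj u z ∧ G.Adj z w)
  symm := ⟨fun _ _ h => ⟨h.1.symm, h.2.elim (fun k => Or.inl k.symm)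
    (fun ⟨z, k⟩ => Or.inr ⟨z, k.2.symm, k.1.symm⟩)⟩⟩
  loopless := ⟨fun _ h => h.1 rfl⟩

/-- The framework is generic: its coordinates are algebraically independent over the rationals. -/
def IsGeneric {V : Type} (p : V → EuclideanSpace ℝ (Fin 3)) : Prop :=
  AlgebraicIndependent ℚ (fun x : V × Fin 3 => p x.1 x.2)

/-- The framework `(H, p)` is globally rigid: every framework `(H, q)` with the same edge
lengths has the same distances between all pairs of vertices. -/
def IsGloballyRigid {V : Type} (H : SimpleGraph V) (p : V → EuclideanSpace ℝ (Fin 3)) : Prop :=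
  ∀ q : V → EuclideanSpace ℝ (Fin 3),
    (∀ u w, H.Adj u w → dist (q u) (q w) = dist (p u) (p w)) →
      ∀ u w, dist (q u) (q w) = dist (p u) (p w)

/-- `H` is 4-connected: it has at least five vertices and it remains connected if any at most
three vertices are deleted. -/
def IsFourConnected {V : Type} [Fintype V] (H : SimpleGraph V) : Prop :=
  5 ≤ Fintype.card V ∧ ∀ S : Finset V, S.card ≤ 3 → (H.induce {v | v ∉ S}).Connected

/-- The number of edges of `G` joining different classes of the equivalence relation `r`. -/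
def numCrossing {V : Type} (G : SimpleGraph V) (r : Setoid V) : ℕ :=
  {e ∈ G.edgeSet | ∃ u w, e = s(u, w) ∧ ¬ r u w}.ncard

/-- The partition condition: `5 e(P) ≥ 6 (|P| - 1) + 1` for every partition `P` of the vertex
set into `|P| ≥ 2` classes such that every vertex of degree one is in the class of its
neighbour. -/
def PartitionCondition {V : Type} (G : SimpleGraph V) : Prop :=
  ∀ r : Setoid V, 2 ≤ Nat.card (Quotient r) →
    (∀ u w, G.Adj u w → (G.neighborSet u).ncard = 1 → r u w) →
      6 * (Nat.card (Quotient r) - 1) + 1 ≤ 5 * numCrossing G r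

/-! ### bridging -/

lemma dist_iff (a b a' b' : EuclideanSpace ℝ (Fin 3)) :
    dist a b = dist a' b' ↔ dsq (fun i => a i) (fun i => b i) = dsq (fun i => a' i) (fun i => b' i) := by
  rw [EuclideanSpace.dist_eq, EuclideanSpace.dist_eq]
  have h : ∀ x y : EuclideanSpace ℝ (Fin 3), ∑ i, dist (x.ofLp i) (y.ofLp i) ^ 2 =
      dsq (fun i => x i) (fun i => y i) := by
    intro x y
    simp only [dsq, dotProduct, Pi.sub_apply, Real.dist_eq, sq_abs]
    refine Finset.sum_congr rfl fun i _ => by ring
  have h0 : ∀ x y : EuclideanSpace ℝ (Fin 3), 0 ≤ ∑ i, dist (x.ofLp i) (y.ofLp i) ^ 2 :=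
    fun x y => Finset.sum_nonneg fun i _ => sq_nonneg _
  rw [Real.sqrt_inj (h0 _ _) (h0 _ _), h, h]

lemma square_eq {V : Type} (G : SimpleGraph V) : square G = sq G := rfl

lemma gr_iff {V : Type} [Fintype V] (H : SimpleGraph V) (p : V → EuclideanSpace ℝ (Fin 3)) :
    IsGloballyRigid H p ↔ GR H (fun v i => p v i) := by
  constructor
  · intro h q hq u _ w _
    have := h (fun v => WithLp.toLp 2 (q v)) (fun u w ha => (dist_iff _ _ _ _).mpr (hq u w ha)) u w
    exact (dist_iff _ _ _ _).mp this
  · intro h q hq u w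
    exact (dist_iff _ _ _ _).mpr (h (fun v i => q v i)
      (fun u w ha => (dist_iff _ _ _ _).mp (hq u w ha)) u trivial w trivial)

lemma conn_iff {V : Type} [Fintype V] (H : SimpleGraph V) :
    IsFourConnected H ↔ 5 ≤ Fintype.card V ∧ Conn4 H := by
  constructor
  · rintro ⟨h5, h⟩
    refine ⟨h5, ?_⟩
    rintro S A B hcov hAB hSA hSB ⟨a, ha⟩ ⟨b, hb⟩ hS
    by_contra hno
    push Not at hno
    have h1 := h S.toFinset (by rwa [← Set.ncard_eq_toFinset_card'])
    have haS : a ∉ S.toFinset := by
      rw [Set.mem_toFinset]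
      exact fun k => Set.disjoint_left.mp hSA k ha
    have hbS : b ∉ S.toFinset := by
      rw [Set.mem_toFinset]
      exact fun k => Set.disjoint_left.mp hSB k hb
    have hreach := h1.preconnected ⟨a, haS⟩ ⟨b, hbS⟩
    have key : ∀ x y : {v | v ∉ S.toFinset}, (H.induce {v | v ∉ S.toFinset}).Reachable x y →
        x.1 ∈ A → y.1 ∈ A := by
      rintro x y ⟨w⟩
      induction w with
      | nil => exact id
      | @cons u v w hadj _ ih =>
        intro hu
        apply ih
        have hv : v.1 ∉ S.toFinset := v.2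
        rw [Set.mem_toFinset] at hv
        rcases hcov v.1 with k | k | k
        · exact absurd k hv
        · exact k
        · exact absurd hadj (hno u.1 hu v.1 k)
    exact Set.disjoint_left.mp hAB (key _ _ hreach ha) hb
  · rintro ⟨h5, h⟩
    refine ⟨h5, fun S hS => ?_⟩
    have hne : ∃ v, v ∉ S := by
      by_contra hc
      push Not at hc
      have : Finset.univ ⊆ S := fun v _ => hc v
      have := Finset.card_le_card this
      rw [Finset.card_univ] at this
      omega
    obtain ⟨v0, hv0⟩ := hne
    rw [SimpleGraph.connected_iff]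
    refine ⟨?_, ⟨⟨v0, hv0⟩⟩⟩
    intro x y
    by_contra hxy
    obtain ⟨a, ⟨ha1, ha2⟩, b, ⟨hb1, hb2⟩, hab⟩ := h (S : Set V)
      {v | ∃ hv : v ∉ S, (H.induce {v | v ∉ S}).Reachable x ⟨v, hv⟩}
      {v | ∃ hv : v ∉ S, ¬ (H.induce {v | v ∉ S}).Reachable x ⟨v, hv⟩}
      (fun v => by
        by_cases hv : v ∈ S
        · exact Or.inl hv
        · by_cases hr : (H.induce {v | v ∉ S}).Reachable x ⟨v, hv⟩
          · exact Or.inr (Or.inl ⟨hv, hr⟩)
          · exact Or.inr (Or.inr ⟨hv, hr⟩))
      (by
        rw [Set.disjoint_left]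
        rintro v ⟨h1, h2⟩ ⟨h3, h4⟩
        exact h4 h2)
      (by
        rw [Set.disjoint_left]
        rintro v hv ⟨h3, h4⟩
        exact h3 hv)
      (by
        rw [Set.disjoint_left]
        rintro v hv ⟨h3, h4⟩
        exact h3 hv)
      ⟨x.1, x.2, SimpleGraph.Reachable.refl _⟩ ⟨y.1, y.2, hxy⟩
      (by rw [Set.ncard_coe_finset]; exact hS)
    apply hb2
    refine ha2.trans (SimpleGraph.Adj.reachable ?_)
    exact hab

/-- number of ordered crossing pairs -/
lemma cr2_eq {V L : Type} [Fintype V] (G : SimpleGraph V) (d : V → L) (r : Setoid V)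
    (h : ∀ u w, r u w ↔ d u = d w) : cr2 G d = 2 * numCrossing G r := by
  let H : SimpleGraph V :=
    { Adj := fun u w => G.Adj u w ∧ d u ≠ d w
      symm := ⟨fun _ _ h => ⟨h.1.symm, h.2.symm⟩⟩
      loopless := ⟨fun _ h => h.2 rfl⟩ }
  have h1 : cr2 G d = Fintype.card H.Dart := by
    rw [cr2, ← Fintype.card_coe]
    refine Fintype.card_congr
      { toFun := fun x => ⟨x.1, (Finset.mem_filter.mp x.2).2⟩
        invFun := fun x => ⟨x.toProd, Finset.mem_filter.mpr ⟨Finset.mem_univ _, x.adj⟩⟩
        left_inv := fun x => rfl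
        right_inv := fun x => rfl }
  have h2 : numCrossing G r = H.edgeFinset.card := by
    rw [numCrossing, ← Set.ncard_coe_finset]
    congr 1
    ext e
    induction e with
    | _ u w =>
      simp only [SimpleGraph.coe_edgeFinset, SimpleGraph.mem_edgeSet, Set.mem_ofPred_eq]
      constructor
      · rintro ⟨hG, u', w', he, hr⟩
        refine ⟨hG, fun e => hr ?_⟩
        rw [h]
        rcases Sym2.eq_iff.mp he with ⟨e1, e2⟩ | ⟨e1, e2⟩
        · rw [← e1, ← e2]; exact e
        · rw [← e1, ← e2]; exact e.symm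
      · rintro ⟨hG, hd⟩
        exact ⟨hG, u, w, rfl, fun k => hd ((h u w).mp k)⟩
  rw [h1, h2, SimpleGraph.dart_card_eq_twice_card_edges]

lemma pt_eq {V L : Type} [Fintype V] (d : V → L) (r : Setoid V)
    (h : ∀ u w, r u w ↔ d u = d w) : pt d = Nat.card (Quotient r) := by
  have : Nat.card (Quotient r) = Nat.card (Finset.univ.image d) := by
    refine Nat.card_congr (Equiv.ofBijective
      (Quotient.lift (fun v => (⟨d v, by simp⟩ : (Finset.univ.image d : Finset L)))
        (fun u w e => Subtype.ext ((h u w).mp e))) ⟨?_, ?_⟩)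
    · intro a b hab
      induction a using Quotient.inductionOn with
      | _ u =>
        induction b using Quotient.inductionOn with
        | _ w =>
          apply Quotient.sound
          exact (h u w).mpr (congrArg Subtype.val hab)
    · rintro ⟨l, hl⟩
      simp only [Finset.mem_image, Finset.mem_univ, true_and] at hl
      obtain ⟨v, rfl⟩ := hl
      exact ⟨⟦v⟧, rfl⟩
  rw [this, Nat.card_eq_fintype_card, Fintype.card_coe]
  rfl

lemma part_iff {V : Type} [Fintype V] (G : SimpleGraph V) :
    PartitionCondition G ↔ ∀ d : V → V, NoLeafCross G d → 2 ≤ pt d → 2 ≤ s2 G d := by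
  have leaf : ∀ u w, G.Adj u w → ((G.neighborSet u).ncard = 1 ↔ ∀ z, G.Adj u z → z = w) := by
    intro u w huw
    constructor
    · intro h1 z hz
      obtain ⟨a, ha⟩ := Set.ncard_eq_one.mp h1
      have h2 : w ∈ G.neighborSet u := huw
      have h3 : z ∈ G.neighborSet u := hz
      rw [ha, Set.mem_singleton_iff] at h2 h3
      rw [h2, h3]
    · intro h
      rw [Set.ncard_eq_one]
      refine ⟨w, ?_⟩
      ext z
      rw [Set.mem_singleton_iff]
      exact ⟨fun k => h z k, fun k => by rw [k]; exact huw⟩
  constructor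
  · intro h d hN h2
    have hr : ∀ u w, (Setoid.ker d) u w ↔ d u = d w := fun u w => Iff.rfl
    have h3 := pt_eq d (Setoid.ker d) hr
    have h4 := cr2_eq G d (Setoid.ker d) hr
    have h5 := h (Setoid.ker d) (by rw [← h3]; exact h2)
      (fun u w ha h1 => hN u w ha ((leaf u w ha).mp h1))
    rw [← h3] at h5
    unfold s2
    omega
  · intro h r h2 hN
    obtain ⟨d, hd, hpt, hcr, _⟩ := exists_relabel' G (fun v => (⟦v⟧ : Quotient r))
    have hr : ∀ u w, r u w ↔ d u = d w := by
      intro u w
      rw [hd u w]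
      exact Quotient.eq.symm
    have h3 := pt_eq d r hr
    have h4 := cr2_eq G d r hr
    have h5 := h d (fun u w ha h1 => (hr u w).mp (hN u w ha ((leaf u w ha).mpr h1)))
      (by rw [h3]; exact h2)
    rw [← h3] at h2 ⊢
    unfold s2 at h5
    omega

theorem clean (hF : T_FIN) {V : Type} [Fintype V] (G : SimpleGraph V)
    (p : V → EuclideanSpace ℝ (Fin 3)) (hp : IsGeneric p) :
    IsGloballyRigid (square G) p ↔
      square G = ⊤ ∨ (IsFourConnected (square G) ∧ PartitionCondition G) := by
  rw [gr_iff, conn_iff, part_iff, square_eq, hF V G (fun v i => p v i) hp, and_assoc]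

end Pool.Agent.H52.MG.Clean
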