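import Mathlib

/-!
# Global rigidity of squares of graphs in three dimensions: definitions

Everything is about a finite vertex type `V` (atoms), a simple graph `G` on `V`, a colouring
`c : V → V` (its fibres are the classes = rigid bodies), and configurations `p : V → Vec`.
-/

set_option autoImplicit false

noncomputable section

open Classical
open scoped Matrix

namespace Pool.Agent.H52.MG

/-! ### vectors, screws -/

/-- points and vectors of three dimensional space -/
abbrev Vec := Fin 3 → ℝ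

/-- screws (infinitesimal rigid motions): `(ω, τ)` is the vector field `x ↦ τ + ω × x`. -/
abbrev Scr := Vec × Vec

/-- value of the screw `S` at the point `x` -/
def ev (S : Scr) (x : Vec) : Vec := S.2 + S.1 ⨯₃ x

/-- the rotation about the line through `x` and `y` -/
def lin (x y : Vec) : Scr := (y - x, x ⨯₃ y)

/-- the Klein form (reciprocal product) of two screws -/
def kl (S T : Scr) : ℝ := S.1 ⬝ᵥ T.2 + S.2 ⬝ᵥ T.1

/-- squared distance -/
def dsq (x y : Vec) : ℝ := (x - y) ⬝ᵥ (x - y)

/-- orthogonal matrices -/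
def Orth (L : Matrix (Fin 3) (Fin 3) ℝ) : Prop := Lᵀ * L = 1

section
variable {V : Type} [Fintype V]

/-- generic configuration: the `3 |V|` coordinates are algebraically independent over `ℚ` -/
def Gen (p : V → Vec) : Prop := AlgebraicIndependent ℚ (fun x : V × Fin 3 => p x.1 x.2)

/-- all edges of `H` have the same length in `p` and in `q` -/
def Eqv (H : SimpleGraph V) (p q : V → Vec) : Prop :=
  ∀ u w, H.Adj u w → dsq (q u) (q w) = dsq (p u) (p w)

/-- all pairs of atoms of `X` have the same distance in `p` and in `q` -/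
def Cgr (X : Set V) (p q : V → Vec) : Prop :=
  ∀ u ∈ X, ∀ w ∈ X, dsq (q u) (q w) = dsq (p u) (p w)

/-- global rigidity of the bar-joint framework `(H, p)` -/
def GR (H : SimpleGraph V) (p : V → Vec) : Prop := ∀ q, Eqv H p q → Cgr Set.univ p q

/-- infinitesimal motions of the framework `(H, p)` -/
def infMot (H : SimpleGraph V) (p : V → Vec) : Submodule ℝ (V → Vec) where
  carrier := {m | ∀ u w, H.Adj u w → (m u - m w) ⬝ᵥ (p u - p w) = 0}
  add_mem' := by
    intro a b ha hb u w h
    have h1 := ha u w h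
    have h2 := hb u w h
    have : (a + b) u - (a + b) w = (a u - a w) + (b u - b w) := by
      simp only [Pi.add_apply]; abel
    rw [this, add_dotProduct, h1, h2, add_zero]
  zero_mem' := by intro u w _; simp
  smul_mem' := by
    intro r a ha u w h
    have : (r • a) u - (r • a) w = r • (a u - a w) := by
      simp only [Pi.smul_apply, smul_sub]
    rw [this, smul_dotProduct, ha u w h, smul_zero]

/-- self stresses (equilibrium stresses) of the framework `(H, p)` -/
def IsStress (H : SimpleGraph V) (ω : V → V → ℝ) (p : V → Vec) : Prop :=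
  (∀ u w, ω u w = ω w u) ∧ (∀ u w, ¬ H.Adj u w → ω u w = 0) ∧
    ∀ u, ∑ w, ω u w • (p u - p w) = 0

/-- the graph `H` with all bars at the atom `v` deleted -/
def delV (H : SimpleGraph V) (v : V) : SimpleGraph V where
  Adj u w := H.Adj u w ∧ u ≠ v ∧ w ≠ v
  symm := ⟨fun _ _ h => ⟨h.1.symm, h.2.2, h.2.1⟩⟩
  loopless := ⟨fun _ h => H.loopless.1 _ h.1⟩

/-- the graph `H` with the bar `ab` deleted -/
def delE (H : SimpleGraph V) (a b : V) : SimpleGraph V where
  Adj u w := H.Adj u w ∧ ¬ (u = a ∧ w = b) ∧ ¬ (u = b ∧ w = a)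
  symm := ⟨fun _ _ h => ⟨h.1.symm, fun k => h.2.2 ⟨k.2, k.1⟩, fun k => h.2.1 ⟨k.2, k.1⟩⟩⟩
  loopless := ⟨fun _ h => H.loopless.1 _ h.1⟩

/-- the graph `H` with the edge `ab` added (nothing is added when `a = b`) -/
def addE (H : SimpleGraph V) (a b : V) : SimpleGraph V where
  Adj u w := H.Adj u w ∨ (u ≠ w ∧ ((u = a ∧ w = b) ∨ (u = b ∧ w = a)))
  symm := ⟨fun _ _ h => by
    rcases h with h | ⟨h, k | k⟩
    · exact Or.inl h.symm
    · exact Or.inr ⟨h.symm, Or.inr ⟨k.2, k.1⟩⟩
    · exact Or.inr ⟨h.symm, Or.inl ⟨k.2, k.1⟩⟩⟩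
  loopless := ⟨fun _ h => by
    rcases h with h | h
    · exact H.loopless.1 _ h
    · exact h.1 rfl⟩

/-- the square of `G` -/
def sq (G : SimpleGraph V) : SimpleGraph V where
  Adj u w := u ≠ w ∧ (G.Adj u w ∨ ∃ z, G.Adj u z ∧ G.Adj z w)
  symm := ⟨fun _ _ h => ⟨h.1.symm, h.2.elim (fun k => Or.inl k.symm)
    (fun ⟨z, k⟩ => Or.inr ⟨z, k.2.symm, k.1.symm⟩)⟩⟩
  loopless := ⟨fun _ h => h.1 rfl⟩

/-- no edge at a leaf is crossing -/
def NoLeafCross {L : Type} (G : SimpleGraph V) (d : V → L) : Prop :=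
  ∀ u w, G.Adj u w → (∀ z, G.Adj u z → z = w) → d u = d w

/-- no separating set with at most three vertices -/
def Conn4 (H : SimpleGraph V) : Prop :=
  ∀ S A B : Set V, (∀ v, v ∈ S ∨ v ∈ A ∨ v ∈ B) → Disjoint A B → Disjoint S A → Disjoint S B →
    A.Nonempty → B.Nonempty → S.ncard ≤ 3 → ∃ a ∈ A, ∃ b ∈ B, H.Adj a b

/-- the graph `G` with all edges having an end in `X` deleted -/
def delS (G : SimpleGraph V) (X : Set V) : SimpleGraph V where
  Adj u w := G.Adj u w ∧ u ∉ X ∧ w ∉ X
  symm := ⟨fun _ _ h => ⟨h.1.symm, h.2.2, h.2.1⟩⟩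
  loopless := ⟨fun _ h => G.loopless.1 _ h.1⟩

/-! ### class structures -/

/-- the class of `v` -/
def cls (c : V → V) (v : V) : Set V := {u | c u = c v}

/-- the body of the class of `v`: the atoms of the class and all their neighbours -/
def Bd (G : SimpleGraph V) (c : V → V) (v : V) : Set V :=
  {u | c u = c v ∨ ∃ w, G.Adj u w ∧ c w = c v}

/-- the bar graph of the class structure: union of the complete graphs on the bodies -/
def HP (G : SimpleGraph V) (c : V → V) : SimpleGraph V where
  Adj u w := u ≠ w ∧ ∃ v, u ∈ Bd G c v ∧ w ∈ Bd G c v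
  symm := ⟨fun _ _ h => ⟨h.1.symm, h.2.choose, h.2.choose_spec.2, h.2.choose_spec.1⟩⟩
  loopless := ⟨fun _ h => h.1 rfl⟩

/-- number of colours used -/
def pt {K L : Type} [Fintype K] (d : K → L) : ℕ := (Finset.univ.image d).card

/-- number of ordered pairs `(u, w)` with `uw` an edge and `d u ≠ d w`: twice the number of
crossing edges -/
def cr2 {L : Type} (G : SimpleGraph V) (d : V → L) : ℕ :=
  ((Finset.univ : Finset (V × V)).filter (fun x => G.Adj x.1 x.2 ∧ d x.1 ≠ d x.2)).card

/-- twice the surplus `s(d) = 5 e(d) - 6 (|d| - 1)` of a partition -/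
def s2 {L : Type} (G : SimpleGraph V) (d : V → L) : ℤ := 5 * (cr2 G d : ℤ) - 12 * (pt d : ℤ) + 12

/-- `d` is constant on the classes of `c` -/
def Coarse {L : Type} (c : V → V) (d : V → L) : Prop := ∀ u w, c u = c w → d u = d w

/-- condition (T): every coarser partition with at least two parts has surplus at least one -/
def Tt (G : SimpleGraph V) (c : V → V) : Prop := ∀ d : V → V, Coarse c d → 2 ≤ pt d → 2 ≤ s2 G d

/-- all coarser partitions have surplus at least `-k` -/
def Cnd (G : SimpleGraph V) (c : V → V) (k : ℕ) : Prop :=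
  ∀ d : V → V, Coarse c d → -(2 * (k : ℤ)) ≤ s2 G d

/-- `Z` is a union of classes -/
def ClU (c : V → V) (Z : Set V) : Prop := ∀ u w, c u = c w → u ∈ Z → w ∈ Z

/-- condition (C'): if exactly two edges `au`, `aw` leave a union `Z` of classes and they
start at the same atom `a ∈ Z`, then `|Z| ≤ 1` or `|V \ Z| ≤ 2`. -/
def Cp (G : SimpleGraph V) (c : V → V) : Prop :=
  ∀ Z : Set V, ClU c Z → ∀ a u w, a ∈ Z → u ∉ Z → w ∉ Z → u ≠ w → G.Adj a u → G.Adj a w →
    (∀ x y, x ∈ Z → y ∉ Z → G.Adj x y → x = a ∧ (y = u ∨ y = w)) →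
    Z.ncard ≤ 1 ∨ Zᶜ.ncard ≤ 2

/-- degree of the class of `v`: number of edges leaving the class -/
def dgc (G : SimpleGraph V) (c : V → V) (v : V) : ℕ :=
  ((Finset.univ : Finset (V × V)).filter
    (fun x => c x.1 = c v ∧ c x.2 ≠ c v ∧ G.Adj x.1 x.2)).card

/-- number of edges between the classes of `v` and of `w` (to be used for `c v ≠ c w`) -/
def mu (G : SimpleGraph V) (c : V → V) (v w : V) : ℕ :=
  ((Finset.univ : Finset (V × V)).filter
    (fun x => c x.1 = c v ∧ c x.2 = c w ∧ G.Adj x.1 x.2)).card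

/-- merge the class of `b` into the class of `a` -/
def mrg (c : V → V) (a b : V) : V → V := fun v => if c v = c b then c a else c v

/-- `q` is congruent to `p` on the union of the bodies of two different classes -/
def Mrg (G : SimpleGraph V) (c : V → V) (p q : V → Vec) : Prop :=
  ∃ a b, c a ≠ c b ∧ Cgr (Bd G c a ∪ Bd G c b) p q

/-! ### screw motions -/

/-- a general linear system for assignments of screws to the atoms: equalities `E`,
agreements `A` (`(u, w, x)`: the screws of `u` and `w` agree at the atom `x`) and bars `B`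
(`(u, w, x, y)`: the bar between the atom `x` moving with `u` and the atom `y` moving with `w`). -/
def Gsys (E : Set (V × V)) (A : Set (V × V × V)) (B : Set (V × V × V × V)) (p : V → Vec) :
    Submodule ℝ (V → Scr) where
  carrier := {S | (∀ x ∈ E, S x.1 = S x.2) ∧
    (∀ x ∈ A, ev (S x.1) (p x.2.2) = ev (S x.2.1) (p x.2.2)) ∧
    (∀ x ∈ B, kl (S x.1 - S x.2.1) (lin (p x.2.2.1) (p x.2.2.2)) = 0)}
  add_mem' := by
    intro a b ha hb
    refine ⟨fun x hx => ?_, fun x hx => ?_, fun x hx => ?_⟩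
    · simp only [Pi.add_apply, ha.1 x hx, hb.1 x hx]
    · have h1 := ha.2.1 x hx
      have h2 := hb.2.1 x hx
      simp only [ev, Pi.add_apply, Prod.snd_add, Prod.fst_add, map_add, LinearMap.add_apply] at *
      rw [add_add_add_comm, h1, h2, add_add_add_comm]
    · have h1 := ha.2.2 x hx
      have h2 := hb.2.2 x hx
      simp only [kl, Pi.add_apply, Prod.snd_add, Prod.fst_add, Prod.fst_sub, Prod.snd_sub,
        sub_dotProduct, add_dotProduct] at *
      linarith
  zero_mem' := by
    refine ⟨fun x _ => ?_, fun x _ => ?_, fun x _ => ?_⟩ <;> simp [ev, kl]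
  smul_mem' := by
    intro r a ha
    refine ⟨fun x hx => ?_, fun x hx => ?_, fun x hx => ?_⟩
    · simp only [Pi.smul_apply, ha.1 x hx]
    · have h1 := ha.2.1 x hx
      simp only [ev, Pi.smul_apply, Prod.smul_snd, Prod.smul_fst, map_smul,
        LinearMap.smul_apply] at *
      rw [← smul_add, h1, ← smul_add]
    · have h1 := ha.2.2 x hx
      simp only [kl, Pi.smul_apply, Prod.smul_snd, Prod.smul_fst, Prod.fst_sub, Prod.snd_sub,
        sub_dotProduct, smul_dotProduct, smul_eq_mul] at *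
      rw [← mul_sub, ← mul_sub, ← mul_add, h1, mul_zero]

/-- screw motions of the class structure: constant on classes; for every edge `uw` the screws
of `u` and `w` agree at `p u` (and, by symmetry, at `p w`). -/
def Mot (G : SimpleGraph V) (c : V → V) (p : V → Vec) : Submodule ℝ (V → Scr) :=
  Gsys {x | c x.1 = c x.2} {x | G.Adj x.1 x.2.1 ∧ x.2.2 = x.1} ∅ p

/-- the same with the agreements at the atom `v` dropped -/
def PinMot (G : SimpleGraph V) (c : V → V) (p : V → Vec) (v : V) : Submodule ℝ (V → Scr) :=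
  Gsys {x | c x.1 = c x.2} {x | G.Adj x.1 x.2.1 ∧ x.2.2 = x.1 ∧ x.1 ≠ v} ∅ p

/-- the linear map `S ↦ S s - S t` -/
def dif (s t : V) : (V → Scr) →ₗ[ℝ] Scr :=
  (LinearMap.proj s : (V → Scr) →ₗ[ℝ] Scr) - (LinearMap.proj t : (V → Scr) →ₗ[ℝ] Scr)

/-- relative motions of the bodies of `s` and `t` -/
def Urel (G : SimpleGraph V) (c : V → V) (p : V → Vec) (s t : V) : Submodule ℝ Scr :=
  (Mot G c p).map (dif s t)

/-! ### chains: two adjacent classes of degree two -/

/-- The classes `X` of `x, x'` and `Y` of `y, y'` have degree two and are adjacent: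
the edges leaving `X` are `xs` and `x'y'`, the edges leaving `Y` are `yt` and `y'x'`, and the
classes of `s` and `t` are different from `X` and `Y` (possibly equal to each other). -/
structure Chain (G : SimpleGraph V) (c : V → V) (s x x' y y' t : V) : Prop where
  cx : c x' = c x
  cy : c y' = c y
  xy : c x ≠ c y
  sx : c s ≠ c x
  sy : c s ≠ c y
  tx : c t ≠ c x
  ty : c t ≠ c y
  e1 : G.Adj x s
  e2 : G.Adj x' y'
  e3 : G.Adj y t
  oX : ∀ u w, c u = c x → c w ≠ c x → G.Adj u w → (u = x ∧ w = s) ∨ (u = x' ∧ w = y')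
  oY : ∀ u w, c u = c y → c w ≠ c y → G.Adj u w → (u = y ∧ w = t) ∨ (u = y' ∧ w = x')

/-- the rest `R` of a chain: all edges at `X` and `Y` are deleted ... -/
def GRc (G : SimpleGraph V) (c : V → V) (x y : V) : SimpleGraph V :=
  delS G {v | c v = c x ∨ c v = c y}

/-- ... and the atoms of `X` and `Y` are put into the class of `s`. -/
def cRc (c : V → V) (s x y : V) : V → V := fun v => if c v = c x ∨ c v = c y then c s else c v

end

/-! ### doubling -/

/-- two disjoint copies of `G`, each with one additional pendant atom attached to `s` -/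
def Gdbl {V : Type} (G : SimpleGraph V) (s : V) : SimpleGraph (Bool × Option V) where
  Adj x y := x.1 = y.1 ∧ ((∃ u w, x.2 = some u ∧ y.2 = some w ∧ G.Adj u w) ∨
    (x.2 = none ∧ y.2 = some s) ∨ (x.2 = some s ∧ y.2 = none))
  symm := ⟨fun _ _ h => ⟨h.1.symm, by
    rcases h.2 with ⟨u, w, h1, h2, h3⟩ | h | h
    · exact Or.inl ⟨w, u, h2, h1, h3.symm⟩
    · exact Or.inr (Or.inr ⟨h.2, h.1⟩)
    · exact Or.inr (Or.inl ⟨h.2, h.1⟩)⟩⟩
  loopless := ⟨fun x h => by
    rcases h.2 with ⟨u, w, h1, h2, h3⟩ | h | h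
    · rw [h1] at h2
      cases h2
      exact G.loopless.1 _ h3
    · rw [h.1] at h
      simp at h
    · rw [h.1] at h
      simp at h⟩

/-- the classes of the two copies, where the two copies of the class of `t` are identified and
the two new atoms form one class -/
def cdbl {V : Type} (c : V → V) (t : V) : Bool × Option V → Bool × Option V
  | (_, none) => (false, none)
  | (i, some v) => if c v = c t then (false, some (c t)) else (i, some (c v))

/-- reflection of `y` in the plane through `a`, `b`, `e` -/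
def refl3 (a b e y : Vec) : Vec :=
  y - (2 * (((b - a) ⨯₃ (e - a)) ⬝ᵥ (y - a)) / (((b - a) ⨯₃ (e - a)) ⬝ᵥ ((b - a) ⨯₃ (e - a)))) •
    ((b - a) ⨯₃ (e - a))

/-! ### multigraphs -/

section
variable {K : Type} [Fintype K]

/-- degree in a multigraph given by multiplicities -/
def mdeg (m : K → K → ℕ) (x : K) : ℕ := ∑ y, m x y

/-- twice the number of crossing edges -/
def me2 {L : Type} (m : K → K → ℕ) (Q : K → L) : ℕ :=
  ∑ x, ∑ y, if Q x ≠ Q y then m x y else 0

/-- twice the surplus -/
def ms2 {L : Type} (m : K → K → ℕ) (Q : K → L) : ℤ :=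
  5 * (me2 m Q : ℤ) - 12 * (pt Q : ℤ) + 12

/-- twice the surplus of the partition of the set `Z` induced by `Q` (only edges inside `Z`) -/
def al {L : Type} (m : K → K → ℕ) (Z : Finset K) (Q : K → L) : ℤ :=
  5 * ((∑ x ∈ Z, ∑ y ∈ Z, if Q x ≠ Q y then m x y else 0 : ℕ) : ℤ)
    - 12 * ((Z.image Q).card : ℤ) + 12

/-- number of edges between `A` and `Z \ A` -/
def cutI (μ : K → K → ℕ) (Z A : Finset K) : ℕ := ∑ x ∈ A, ∑ y ∈ Z \ A, μ x y

/-- `m` with one link added between `f` and `g` (nothing if `f = g`) -/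
def mst (m : K → K → ℕ) (f g : K) : K → K → ℕ := fun x y =>
  m x y + (if f ≠ g ∧ ((x = f ∧ y = g) ∨ (x = g ∧ y = f)) then 1 else 0)

/-- number of edges of the cut `(Z, Zᶜ)` -/
def mcut (m : K → K → ℕ) (Z : Finset K) : ℕ := ∑ x ∈ Z, ∑ y ∈ Zᶜ, m x y

/-- a symmetric multiplicity function with zero diagonal -/
def MSym (m : K → K → ℕ) : Prop := (∀ x y, m x y = m y x) ∧ ∀ x, m x x = 0

/-- `Z` is a minimal set with at least two elements and with cut value two -/
def MinZ (m : K → K → ℕ) (Z : Finset K) : Prop :=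
  mcut m Z = 2 ∧ 2 ≤ Z.card ∧ ∀ Z' : Finset K, Z' ⊂ Z → 2 ≤ Z'.card → mcut m Z' ≠ 2

/-- the two edges leaving `Z` are `ff'` and `gg'` -/
def Link (m : K → K → ℕ) (Z : Finset K) (f g f' g' : K) : Prop :=
  f ∈ Z ∧ g ∈ Z ∧ f' ∉ Z ∧ g' ∉ Z ∧ ∀ x ∈ Z, ∀ y ∈ Zᶜ,
    m x y = (if x = f ∧ y = f' then 1 else 0) + (if x = g ∧ y = g' then 1 else 0)

/-- condition (T) for multigraphs -/
def MTt (m : K → K → ℕ) : Prop := ∀ Q : K → K, 2 ≤ pt Q → 2 ≤ ms2 m Q

end

end Pool.Agent.H52.MG
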