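import Pool.Agent.H52.MG.Basic
import Pool.Agent.H52.MG.Targets

/-!
# FIN: final assembly of the characterisation
-/

set_option autoImplicit false
set_option linter.unusedSectionVars false

noncomputable section

open Classical Module
open scoped Matrix

namespace Pool.Agent.H52.MG

lemma GR_top {V : Type} [Fintype V] (p : V → Vec) : GR (⊤ : SimpleGraph V) p := by
  intro q hq u _ w _
  by_cases h : u = w
  · subst h; simp
  · exact hq u w h

lemma five_le {V : Type} [Fintype V] {H : SimpleGraph V} (hC : Conn4 H) (h : H ≠ ⊤) :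
    5 ≤ Fintype.card V := by
  by_contra h5
  apply h
  ext x y
  simp only [SimpleGraph.top_adj]
  constructor
  · exact fun k => k.ne
  · intro hxy
    have hS : ({x, y}ᶜ : Set V).ncard ≤ 3 := by
      have h1 := Set.ncard_add_ncard_compl ({x, y} : Set V)
      rw [Set.ncard_pair hxy, Nat.card_eq_fintype_card] at h1
      omega
    obtain ⟨a, ha, b, hb, hab⟩ := hC {x, y}ᶜ {x} {y} (fun v => by
        by_cases e1 : v = x
        · exact Or.inr (Or.inl e1)
        · by_cases e2 : v = y
          · exact Or.inr (Or.inr e2)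
          · exact Or.inl (by simp [e1, e2]))
      (by simpa using hxy) (by simp) (by simp) ⟨x, rfl⟩ ⟨y, rfl⟩ hS
    rw [Set.mem_singleton_iff] at ha hb
    rwa [ha, hb] at hab

theorem fin (hB : T_THB) (h1 : T_NEC1) (h2 : T_NEC2) (hFC : T_FC) : T_FIN := by
  intro V _ G p hp
  constructor
  · intro hGR
    by_cases htop : sq G = ⊤
    · exact Or.inl htop
    · have hC := h1 V (sq G) p hp hGR
      have h5 := five_le hC htop
      exact Or.inr ⟨h5, hC, h2 V G p h5 hp hGR⟩
  · rintro (h | ⟨h5, hC, hT⟩)
    · rw [h]; exact GR_top p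
    · obtain ⟨c, hc, hCp, hN⟩ := hFC V G h5 hC
      rw [← hc]
      exact hB V G c p (fun d hd h2 => hT d (hN d hd) h2) hCp hp

end Pool.Agent.H52.MG
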