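import Pool.Agent.H52.MG.Basic
import Pool.Agent.H52.MG.Targets

/-!
# INST: from multigraphs to class structures
-/

set_option autoImplicit false
set_option linter.unusedSectionVars false

noncomputable section

open Classical Module
open scoped Matrix

namespace Pool.Agent.H52.MG

/-- INST -/
theorem inst (hC : T_COMB) (hQ : T_QUO) : T_INST := by
  intro V _ G c hT h2
  obtain ⟨K, hK, m, π, hπ, hπc, hm, hcard, hmu, hdeg, hcr, _, hcut⟩ := hQ V G c
  have hpt : ∀ (L : Type) (Q : K → L), pt (fun v => Q (π v)) = pt Q := by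
    intro L Q
    unfold pt
    have : Finset.univ.image (fun v => Q (π v)) = Finset.univ.image Q := by
      ext l
      simp only [Finset.mem_image, Finset.mem_univ, true_and]
      constructor
      · rintro ⟨v, rfl⟩; exact ⟨π v, rfl⟩
      · rintro ⟨k, rfl⟩
        obtain ⟨v, rfl⟩ := hπ k
        exact ⟨v, rfl⟩
    rw [this]
  have hms : ∀ (L : Type) (Q : K → L), ms2 m Q = s2 G (fun v => Q (π v)) := by
    intro L Q
    unfold ms2 s2
    rw [hpt L Q, hcr L Q]
  have hMT : MTt m := by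
    intro Q hQ2
    rw [hms K Q]
    apply Tt_all hT
    · intro u w e
      simp only
      rw [(hπc u w).mpr e]
    · rw [hpt K Q]; exact hQ2
  have fac : ∀ d : V → V, Coarse c d → ∃ Q : K → K,
      (∀ u w, Q (π u) = Q (π w) ↔ d u = d w) ∧ ms2 m Q = s2 G d := by
    intro d hd
    have h0 : ∀ v, d (Function.surjInv hπ (π v)) = d v := by
      intro v
      apply hd
      rw [← hπc]
      exact Function.surjInv_eq hπ (π v)
    obtain ⟨Q, hQQ⟩ := exists_relabel (fun k => d (Function.surjInv hπ k))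
    refine ⟨Q, ?_, ?_⟩
    · intro u w
      rw [hQQ, h0, h0]
    · rw [ms2_congr m hQQ, hms]
      congr 1
      funext v
      exact h0 v
  have hpos : ∀ u w, c u ≠ c w → G.Adj u w → 0 < m (π u) (π w) := by
    intro u w hc ha
    rw [hmu u w hc]
    unfold mu
    apply Finset.card_pos.mpr
    exact ⟨(u, w), by simp [ha]⟩
  have hpos' : ∀ x y, 0 < m x y → ∃ u w, π u = x ∧ π w = y ∧ c u ≠ c w ∧ G.Adj u w := by
    intro x y h
    obtain ⟨u, rfl⟩ := hπ x
    obtain ⟨w, rfl⟩ := hπ y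
    have hc : c u ≠ c w := by
      intro e
      rw [(hπc u w).mpr e, hm.2] at h
      exact lt_irrefl _ h
    rw [hmu u w hc] at h
    unfold mu at h
    obtain ⟨⟨u', w'⟩, hx⟩ := Finset.card_pos.mp h
    simp only [Finset.mem_filter, Finset.mem_univ, true_and] at hx
    obtain ⟨e1, e2, e3⟩ := hx
    exact ⟨u', w', (hπc _ _).mpr e1, (hπc _ _).mpr e2, by rw [e1, e2]; exact hc, e3⟩
  have hne : ∀ u w, π u ≠ π w → c u ≠ c w := fun u w h e => h ((hπc u w).mpr e)
  have hadj : ∀ d : V → V, Coarse c d → ∀ u w, d u ≠ d w → c u ≠ c w :=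
    fun d hd u w h e => h (hd u w e)
  rcases hC K m hm hMT (by rw [hcard]; exact h2) with h | h | h | h | h | h
  · obtain ⟨x, y, h1, h2, h3⟩ := h
    obtain ⟨u, w, rfl, rfl, hc, ha⟩ := hpos' x y h3
    exact Or.inl ⟨u, w, ha, hc, by rw [← hdeg, h1], by rw [← hdeg, h2]⟩
  · obtain ⟨x, h1, h2, h3⟩ := h
    obtain ⟨v, rfl⟩ := hπ x
    refine Or.inr (Or.inl ⟨v, by rw [← hdeg, h1], ?_, ?_⟩)
    · intro u w e1 e2 e3
      rw [← hdeg]
      apply h2
      rw [← (hπc u v).mpr e1]
      exact hpos u w (by rw [e1]; exact e2.symm) e3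
    · intro d hd hv
      obtain ⟨Q, q1, q2⟩ := fac d hd
      rw [← q2]
      apply h3
      intro y hy
      obtain ⟨v', rfl⟩ := hπ y
      exact (hπc _ _).mpr (hv v' ((q1 _ _).mp hy))
  · obtain ⟨x, h1, h2, h3, h4⟩ := h
    obtain ⟨v, rfl⟩ := hπ x
    refine Or.inr (Or.inr (Or.inl ⟨v, by rw [← hdeg, h1], ?_, ?_, ?_⟩))
    · intro u w e1 e2 e3
      rw [← hdeg]
      apply h2
      rw [← (hπc u v).mpr e1]
      exact hpos u w (by rw [e1]; exact e2.symm) e3
    · intro d hd hv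
      obtain ⟨Q, q1, q2⟩ := fac d hd
      rw [← q2]
      apply h3
      intro y hy
      obtain ⟨v', rfl⟩ := hπ y
      exact (hπc _ _).mpr (hv v' ((q1 _ _).mp hy))
    · intro d hd u w e1 e2 e3
      obtain ⟨Q, q1, q2⟩ := fac d hd
      rw [← q2]
      apply h4 Q (π w)
      · rw [← (hπc u v).mpr e1]
        exact hpos u w (hadj d hd u w e3) e2
      · intro e
        rw [← (hπc u v).mpr e1] at e
        exact e3 ((q1 _ _).mp e)
  · obtain ⟨x, y, h1, h2, h3⟩ := h
    obtain ⟨u, w, rfl, rfl, hc, ha⟩ := hpos' x y h1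
    refine Or.inr (Or.inr (Or.inr (Or.inl ⟨u, w, ha, hc, ?_, ?_⟩)))
    · intro d hd e3
      obtain ⟨Q, q1, q2⟩ := fac d hd
      rw [← q2]
      apply h2
      intro e
      exact e3 ((q1 _ _).mp e)
    · intro Z hZ hu hw
      have hZ' : ∀ v, π v ∈ (Finset.univ.filter (fun k => ∃ v ∈ Z, π v = k)) ↔ v ∈ Z := by
        intro v
        simp only [Finset.mem_filter, Finset.mem_univ, true_and]
        constructor
        · rintro ⟨v', hv', e⟩
          exact hZ v' v ((hπc _ _).mp e) hv'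
        · intro hv; exact ⟨v, hv, rfl⟩
      have key := h3 (Finset.univ.filter (fun k => ∃ v ∈ Z, π v = k)) ((hZ' u).mpr hu)
        (fun k => hw ((hZ' w).mp k))
      rw [hcut] at key
      simpa only [hZ'] using key
  · obtain ⟨x₀, x₁, h0, h1, h2, h3, h4, h5, h6⟩ := h
    obtain ⟨v₀, rfl⟩ := hπ x₀
    obtain ⟨v₁, rfl⟩ := hπ x₁
    have hc := hne _ _ h0
    refine Or.inr (Or.inr (Or.inr (Or.inr (Or.inl ⟨v₀, v₁, hc, by rw [← hdeg, h1],
      by rw [← hdeg, h2], by rw [← hmu _ _ hc, h3], ?_, ?_, ?_⟩))))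
    · intro u w e1 e2 e3
      rw [← hdeg]
      apply h4
      rw [← (hπc u v₁).mpr e1]
      exact hpos u w (by rw [e1]; exact e2.symm) e3
    · intro d hd u w e1 e2 e3
      obtain ⟨Q, q1, q2⟩ := fac d hd
      rw [← q2]
      apply h5 Q (π w)
      · rw [← (hπc u v₁).mpr e1]
        exact hpos u w (hadj d hd u w e3) e2
      · intro e
        rw [← (hπc u v₁).mpr e1] at e
        exact e3 ((q1 _ _).mp e)
    · intro d hd u w e1 e2 e3 e4 e5
      obtain ⟨Q, q1, q2⟩ := fac d hd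
      rw [← q2]
      apply h6 Q (π w)
      · intro e
        exact e3 ((hπc _ _).mp e)
      · rw [← (hπc u v₁).mpr e1]
        apply hpos u w _ e2
        intro e
        apply e5
        rw [← hd u w e]
        exact hd _ _ e1.symm
      · intro e
        exact e4 ((q1 _ _).mp e)
      · intro e
        exact e5 ((q1 _ _).mp e)
  · obtain ⟨x₀, x₁, h0, h1, h2, h3, h4⟩ := h
    obtain ⟨v₀, rfl⟩ := hπ x₀
    obtain ⟨v₁, rfl⟩ := hπ x₁
    have hc := hne _ _ h0
    refine Or.inr (Or.inr (Or.inr (Or.inr (Or.inr ⟨v₀, v₁, hc, by rw [← hdeg, h1],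
      by rw [← hdeg, h2], by rw [← hmu _ _ hc, h3], ?_⟩))))
    intro d hd e4
    obtain ⟨Q, q1, q2⟩ := fac d hd
    rw [← q2]
    apply h4
    intro e
    exact e4 ((q1 _ _).mp e)

end Pool.Agent.H52.MG
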