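import Pool.Agent.H52.MG.Basic
import Pool.Agent.H52.MG.Targets

/-!
# MG4: suppressing a class of degree two
-/

set_option autoImplicit false
set_option linter.unusedSectionVars false

noncomputable section

open Classical Module
open scoped Matrix

namespace Pool.Agent.H52.MG

lemma lin_mid_left (y z : Vec) : lin y ((2⁻¹ : ℝ) • (y + z)) = (2⁻¹ : ℝ) • lin y z := by
  refine Prod.ext ?_ ?_
  · apply vec_ext <;> simp only [lin, Prod.smul_fst, Pi.smul_apply, Pi.sub_apply, Pi.add_apply,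
      smul_eq_mul] <;> ring
  · apply vec_ext <;> simp only [lin, Prod.smul_snd, cross_eq, Pi.smul_apply, Pi.add_apply,
      smul_eq_mul, Matrix.cons_val] <;> ring

lemma lin_mid_right (y z : Vec) : lin z ((2⁻¹ : ℝ) • (y + z)) = (-(2⁻¹ : ℝ)) • lin y z := by
  refine Prod.ext ?_ ?_
  · apply vec_ext <;> simp only [lin, Prod.smul_fst, Pi.smul_apply, Pi.sub_apply, Pi.add_apply,
      smul_eq_mul] <;> ring
  · apply vec_ext <;> simp only [lin, Prod.smul_snd, cross_eq, Pi.smul_apply, Pi.add_apply,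
      smul_eq_mul, Matrix.cons_val] <;> ring

/-- dimension bound by a linear map -/
lemma finrank_le_of_map {E F : Type} [AddCommGroup E] [Module ℝ E] [FiniteDimensional ℝ E]
    [AddCommGroup F] [Module ℝ F] [FiniteDimensional ℝ F] (f : E →ₗ[ℝ] F) (M : Submodule ℝ E)
    (N : Submodule ℝ F) (K : Submodule ℝ E) (h1 : ∀ x ∈ M, f x ∈ N)
    (h2 : ∀ x ∈ M, f x = 0 → x ∈ K) : finrank ℝ M ≤ finrank ℝ N + finrank ℝ K := by
  have h3 := LinearMap.finrank_range_add_finrank_ker (f.domRestrict M)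
  have h4 : LinearMap.range (f.domRestrict M) ≤ N := by
    rintro _ ⟨x, rfl⟩
    exact h1 x.1 x.2
  have h5 : finrank ℝ (LinearMap.ker (f.domRestrict M)) ≤ finrank ℝ K := by
    rw [← Submodule.finrank_map_subtype_eq M (LinearMap.ker (f.domRestrict M))]
    apply Submodule.finrank_mono
    rintro _ ⟨x, hx, rfl⟩
    exact h2 x.1 x.2 hx
  have h6 := Submodule.finrank_mono h4
  omega

theorem mg4 (hGS : T_GS) (hGP : T_GP) : T_MG4 := by
  intro V _ G c p x₁ x₂ y z j hp hx12 hcy hcz hcyz e1 e2 hout hN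
  obtain ⟨g1, _, _⟩ := hGP V p hp
  have hyz : p y ≠ p z := g1 y z (fun k => hcyz (by rw [k]))
  set M : Vec := (2⁻¹ : ℝ) • (p y + p z) with hM
  let p0 : V → Vec := fun v => if c v = c x₁ then M else p v
  have hp0 : ∀ v, c v ≠ c x₁ → p0 v = p v := fun v hv => if_neg hv
  have hp0' : ∀ v, c v = c x₁ → p0 v = M := fun v hv => if_pos hv
  have hMy : p y ≠ M := by
    intro h
    apply hyz
    have h1 : (2 : ℝ) • p y = p y + p z := by
      rw [hM] at h
      calc (2 : ℝ) • p y = (2 : ℝ) • ((2⁻¹ : ℝ) • (p y + p z)) := by rw [← h]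
        _ = p y + p z := by rw [smul_smul]; norm_num
    rw [two_smul] at h1
    exact add_left_cancel h1
  have hMz : p z ≠ M := by
    intro h
    apply hyz
    have h1 : (2 : ℝ) • p z = p y + p z := by
      rw [hM] at h
      calc (2 : ℝ) • p z = (2 : ℝ) • ((2⁻¹ : ℝ) • (p y + p z)) := by rw [← h]
        _ = p y + p z := by rw [smul_smul]; norm_num
    rw [two_smul] at h1
    exact (add_right_cancel h1).symm
  have h0 : finrank ℝ (Mot G c p) ≤ finrank ℝ (Mot G c p0) := hGS V _ _ _ p p0 hp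
  let f : (V → Scr) →ₗ[ℝ] (V → Scr) :=
    LinearMap.pi (fun v => LinearMap.proj (if c v = c x₁ then y else v))
  have hf : ∀ S v, f S v = S (if c v = c x₁ then y else v) := fun S v => rfl
  have key : ∀ S ∈ Mot G c p0, (∃ r : ℝ, S x₁ - S y = r • lin (p y) (p z)) ∧
      (∃ r : ℝ, S x₁ - S z = r • lin (p y) (p z)) := by
    intro S hS
    constructor
    · obtain ⟨r, hr⟩ := Mot_edge hS e1.symm (by rw [hp0 y hcy, hp0' x₁ rfl]; exact hMy)
      rw [hp0 y hcy, hp0' x₁ rfl, hM, lin_mid_left, smul_smul] at hr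
      refine ⟨-(r * 2⁻¹), ?_⟩
      rw [← neg_sub, hr, neg_smul]
    · obtain ⟨r, hr⟩ := Mot_edge hS e2.symm (by rw [hp0 z hcz, hp0' x₂ hx12.symm]; exact hMz)
      rw [hp0 z hcz, hp0' x₂ hx12.symm, hM, lin_mid_right, smul_smul] at hr
      refine ⟨-(r * -2⁻¹), ?_⟩
      rw [(mem_Mot.mp hS).1 x₁ x₂ hx12, ← neg_sub, hr, neg_smul]
  have h1 : ∀ S ∈ Mot G c p0, f S ∈ Mot (addE (delS G (cls c x₁)) y z) (mrg c y x₁) p := by
    intro S hS
    obtain ⟨⟨r, hr⟩, ⟨r', hr'⟩⟩ := key S hS
    have hS' := mem_Mot.mp hS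
    rw [mem_Mot]
    constructor
    · intro u w huw
      rw [hf, hf]
      apply hS'.1
      unfold mrg at huw
      by_cases hu : c u = c x₁ <;> by_cases hw : c w = c x₁
      · rw [if_pos hu, if_pos hw]
      · rw [if_pos hu, if_neg hw] at huw
        rw [if_pos hu, if_neg hw]; exact huw
      · rw [if_neg hu, if_pos hw] at huw
        rw [if_neg hu, if_pos hw]; exact huw
      · rw [if_neg hu, if_neg hw] at huw
        rw [if_neg hu, if_neg hw]; exact huw
    · have hyz' : S y - S z = (r' - r) • lin (p y) (p z) := by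
        rw [sub_smul, ← hr, ← hr']; abel
      rintro u w (⟨hadj, hu, hw⟩ | ⟨hne, (⟨rfl, rfl⟩ | ⟨rfl, rfl⟩)⟩)
      · have hu' : c u ≠ c x₁ := hu
        have hw' : c w ≠ c x₁ := hw
        rw [hf, hf, if_neg hu', if_neg hw']
        have := hS'.2 u w hadj
        rwa [hp0 u hu'] at this
      · rw [hf, hf, if_neg hcy, if_neg hcz]
        rw [← sub_eq_zero, ← ev_sub, hyz', ev_smul, ev_lin_left, smul_zero]
      · rw [hf, hf, if_neg hcy, if_neg hcz]
        rw [eq_comm, ← sub_eq_zero, ← ev_sub, hyz', ev_smul, ev_lin_right, smul_zero]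
  have h2 : ∀ S ∈ Mot G c p0, f S = 0 →
      S ∈ Submodule.span ℝ {(fun v => if c v = c x₁ then lin (p y) (p z) else 0 : V → Scr)} := by
    intro S hS hfS
    obtain ⟨⟨r, hr⟩, _⟩ := key S hS
    rw [Submodule.mem_span_singleton]
    have hz : ∀ v, c v ≠ c x₁ → S v = 0 := by
      intro v hv
      have := congrFun hfS v
      rwa [hf, if_neg hv] at this
    refine ⟨r, ?_⟩
    funext v
    rw [Pi.smul_apply]
    by_cases hv : c v = c x₁
    · rw [if_pos hv, ← hr, hz y hcy, sub_zero]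
      exact (mem_Mot.mp hS).1 x₁ v hv.symm
    · rw [if_neg hv, smul_zero, hz v hv]
  have h3 := finrank_le_of_map f _ _ _ h1 h2
  have h4 : finrank ℝ (Submodule.span ℝ
      {(fun v => if c v = c x₁ then lin (p y) (p z) else 0 : V → Scr)}) ≤ 1 := by
    have := finrank_span_le_card (R := ℝ)
      ({(fun v => if c v = c x₁ then lin (p y) (p z) else 0 : V → Scr)} : Set (V → Scr))
    simpa using this
  omega

end Pool.Agent.H52.MG
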