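import Pool.Agent.H52.MG.THB

/-!
# MTA: assembly of the molecular theorem
-/

set_option autoImplicit false
set_option linter.unusedSectionVars false

noncomputable section

open Classical Module
open scoped Matrix

namespace Pool.Agent.H52.MG

section
variable {V : Type} [Fintype V]

lemma pt_lt_of {c c' : V → V} (h : ∀ v, ∃ w, c' v = c w) (x : V) (hx : ∀ v, c' v ≠ c x) :
    pt c' < pt c := by
  unfold pt
  apply Finset.card_lt_card
  rw [Finset.ssubset_iff_of_subset]
  · refine ⟨c x, Finset.mem_image_of_mem _ (Finset.mem_univ _), ?_⟩
    intro hb
    obtain ⟨v, -, hv⟩ := Finset.mem_image.mp hb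
    exact hx v hv
  · intro y hy
    obtain ⟨v, -, hv⟩ := Finset.mem_image.mp hy
    obtain ⟨w, hw⟩ := h v
    rw [← hv, hw]
    exact Finset.mem_image_of_mem _ (Finset.mem_univ _)

lemma Cnd_coarse {G : SimpleGraph V} {c c' : V → V} {k : ℕ} (h : Coarse c c') (hT : Cnd G c k) :
    Cnd G c' k := fun d hd => hT d (fun u w e => hd u w (h u w e))

end

theorem mt (hR : T_MTR) (hA : T_MGA) (h2 : T_MG2) (h3 : T_MG3) (h4 : T_MG4) (h5 : T_MG5)
    (hGP : T_GP) : T_MT := by
  have main : ∀ (n N : ℕ) (V : Type) [Fintype V] (p : V → Vec), Gen p →
      ∀ (G : SimpleGraph V) (c : V → V) (k : ℕ),
      pt c = n → cr2 G c = N → Cnd G c k → finrank ℝ (Mot G c p) ≤ 6 + k := by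
    intro n
    induction n using Nat.strong_induction_on with
    | _ n ih1 =>
      intro N
      induction N using Nat.strong_induction_on with
      | _ N ih2 =>
        intro V _ p hp G c k hn hN hC
        rcases Nat.lt_or_ge 1 (pt c) with hpt | hpt
        · have IH : ∀ (G' : SimpleGraph V) (c' : V → V) (k' : ℕ), pt c' < pt c → Cnd G' c' k' →
              finrank ℝ (Mot G' c' p) ≤ 6 + k' := fun G' c' k' hlt hC' =>
            ih1 (pt c') (by omega) (cr2 G' c') V p hp G' c' k' rfl rfl hC'
          rcases hR V G c k hpt hC with h | h | h | h | h | h | h | h
          · obtain ⟨a, b, hab, hk, hC'⟩ := h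
            have e1 := IH G (mrg c b a) (k - 6) (pt_mrg_lt hab.symm) hC'
            have e2 := (hA V G c p a b).1
            omega
          · obtain ⟨a, b, hab, hadj, hk, hC'⟩ := h
            have e1 := IH G (mrg c b a) (k - 1) (pt_mrg_lt hab.symm) hC'
            have e2 := (hA V G c p a b).2 hadj ((hGP V p hp).1 a b hadj.ne)
            omega
          · obtain ⟨Z, a, b, e, hZ, ha, hb, hab, he, hC'⟩ := h
            have e1 := IH (delS G Zᶜ) (fun v => if v ∈ Z then c v else c a) 0 (by
              apply pt_lt_of (x := e)
              · intro v
                by_cases hv : v ∈ Z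
                · exact ⟨v, by simp only [hv, if_true]⟩
                · exact ⟨a, by simp only [hv, if_false]⟩
              · intro v
                by_cases hv : v ∈ Z
                · simp only [hv, if_true]
                  exact fun k => he (hZ v e k hv)
                · simp only [hv, if_false]
                  exact fun k => he (hZ a e k ha)) hC'
            have e2 := IH G (fun v => if v ∈ Z then c a else c v) k (by
              apply pt_lt_of (x := b)
              · intro v
                by_cases hv : v ∈ Z
                · exact ⟨a, by simp only [hv, if_true]⟩
                · exact ⟨v, by simp only [hv, if_false]⟩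
              · intro v
                by_cases hv : v ∈ Z
                · simp only [hv, if_true]
                  exact hab
                · simp only [hv, if_false]
                  exact fun k => hv (hZ b v k.symm hb))
              (Cnd_coarse (fun u w k => by
                by_cases hu : u ∈ Z
                · have hw := hZ u w k hu
                  simp only [hu, hw, if_true]
                · have hw : w ∉ Z := fun hw => hu (hZ w u k.symm hw)
                  simp only [hu, hw, if_false]
                  exact k) hC)
            have e3 : Mot G c p ≤ Mot G (fun v => if v ∈ Z then c a else c v) p := by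
              intro S hS
              have hS' := mem_Mot.mp hS
              have hSZ : ∀ u ∈ Z, ∀ w ∈ Z, S u = S w := by
                have hm : (fun v => if v ∈ Z then S v else S a) ∈
                    Mot (delS G Zᶜ) (fun v => if v ∈ Z then c v else c a) p := by
                  rw [mem_Mot]
                  constructor
                  · intro u w huw
                    by_cases hu : u ∈ Z <;> by_cases hw : w ∈ Z <;>
                      simp only [hu, hw, if_true, if_false] at huw ⊢
                    · exact hS'.1 _ _ huw
                    · exact hS'.1 _ _ huw
                    · exact hS'.1 _ _ huw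
                  · rintro u w ⟨h1, h2, h3⟩
                    have hu : u ∈ Z := by simpa using h2
                    have hw : w ∈ Z := by simpa using h3
                    simp only [hu, hw, if_true]
                    exact hS'.2 _ _ h1
                intro u hu w hw
                have := Mot_const (by simpa using e1) hm u w
                simpa only [hu, hw, if_true] using this
              rw [mem_Mot]
              refine ⟨fun u w huw => ?_, hS'.2⟩
              by_cases hu : u ∈ Z <;> by_cases hw : w ∈ Z <;>
                simp only [hu, hw, if_true, if_false] at huw
              · exact hSZ u hu w hw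
              · exact absurd (hZ a w huw ha) hw
              · exact absurd (hZ a u huw.symm ha) hu
              · exact hS'.1 _ _ huw
            exact (Submodule.finrank_mono e3).trans e2
          · obtain ⟨a, b, hab, hadj, hC'⟩ := h
            have hd := cr2_delE hadj c
            rw [if_pos hab] at hd
            have e1 := ih2 (cr2 (delE G a b) c) (by omega) V p hp (delE G a b) c k hn rfl hC'
            have e2 : Mot G c p ≤ Mot (delE G a b) c p := by
              intro S hS
              rw [mem_Mot] at hS ⊢
              exact ⟨hS.1, fun u w h => hS.2 u w h.1⟩
            exact (Submodule.finrank_mono e2).trans e1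
          · obtain ⟨a, u, b, w, e1, e2, e3, e4, e5, e6, e7⟩ := h
            have := h2 V G c p a u b w hp e1 e2 e3 e4 e5 e6 e7
            omega
          · obtain ⟨a₁, b₁, b₂, e₂, e₃, a₃, k1, k2, k3, k4, k5, k6, k7, k8, k9, k10⟩ := h
            have := h3 V G c p a₁ b₁ b₂ e₂ e₃ a₃ hp k1 k2 k3 k4 k5 k6 k7 k8 k9 k10
            omega
          · obtain ⟨j, x₁, x₂, y, z, hk, k1, k2, k3, k4, k5, k6, k7, hC'⟩ := h
            have e1 := IH (addE (delS G (cls c x₁)) y z) (mrg c y x₁) j (pt_mrg_lt k2) hC'
            have e2 := h4 V G c p x₁ x₂ y z j hp k1 k2 k3 k4 k5 k6 k7 e1
            omega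
          · obtain ⟨hk, s, x, x', y, y', t, hch, hst, hC1, hC2⟩ := h
            have e1 := IH (GRc G c x y) (cRc c s x y) 3 (by
              apply pt_lt_of (x := x)
              · intro v
                unfold cRc
                by_cases hv : c v = c x ∨ c v = c y
                · exact ⟨s, by rw [if_pos hv]⟩
                · exact ⟨v, by rw [if_neg hv]⟩
              · intro v
                unfold cRc
                by_cases hv : c v = c x ∨ c v = c y
                · rw [if_pos hv]; exact hch.sx
                · rw [if_neg hv]; exact fun k => hv (Or.inl k)) hC1
            have e2 := IH _ (mrg c s y) 0 (pt_mrg_lt hch.sy) hC2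
            have := h5 V G c p s x x' y y' t hp hch hst e1 e2
            omega
        · have : ∀ S ∈ Mot G c p, ∀ u w, S u = S w := by
            intro S hS u w
            apply (mem_Mot.mp hS).1
            exact Finset.card_le_one.mp hpt _ (Finset.mem_image_of_mem _ (Finset.mem_univ _)) _
              (Finset.mem_image_of_mem _ (Finset.mem_univ _))
          have := finrank_le_six this
          omega
  intro V _ G c k p hp hC
  exact main _ _ V p hp G c k rfl rfl hC

end Pool.Agent.H52.MG
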