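import Pool.Agent.H52.MG.Basic
import Pool.Agent.H52.MG.Targets

/-!
# NEC2: necessity of the partition condition, assembly
-/

set_option autoImplicit false
set_option linter.unusedSectionVars false

noncomputable section

open Classical Module
open scoped Matrix

namespace Pool.Agent.H52.MG

section
variable {V : Type} [Fintype V]

lemma infMot_mono {H H' : SimpleGraph V} (h : H ≤ H') (p : V → Vec) :
    infMot H' p ≤ infMot H p := fun _ hm u w e => hm u w (h e)

/-- in a graph with at least five vertices and 4-connected square there is a vertex with two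
neighbours -/
lemma exists_two_nbrs {G : SimpleGraph V} (h5 : 5 ≤ Fintype.card V) (hC : Conn4 (sq G)) :
    ∃ z a b, G.Adj z a ∧ G.Adj z b ∧ a ≠ b := by
  have hne : Nonempty V := Fintype.card_pos_iff.mp (by omega)
  obtain ⟨v⟩ := hne
  have card_lt : ∀ A : Set V, A.ncard ≤ 2 → (Aᶜ : Set V).Nonempty := by
    intro A hA
    by_contra h
    rw [Set.not_nonempty_iff_eq_empty, Set.compl_empty_iff] at h
    rw [h, Set.ncard_univ, Nat.card_eq_fintype_card] at hA
    omega
  have iso : ∀ A : Set V, A.Nonempty → A.ncard ≤ 2 → ∃ a ∈ A, ∃ b ∈ Aᶜ, (sq G).Adj a b := by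
    intro A hA hA2
    exact hC ∅ A Aᶜ (fun v => by
      by_cases h : v ∈ A
      · exact Or.inr (Or.inl h)
      · exact Or.inr (Or.inr h)) disjoint_compl_right (by simp) (by simp) hA (card_lt A hA2)
      (by simp)
  -- a neighbour of `v`
  obtain ⟨w, hvw⟩ : ∃ w, G.Adj v w := by
    obtain ⟨a, ha, b, hb, hab⟩ := iso {v} ⟨v, rfl⟩ (by simp)
    rw [Set.mem_singleton_iff] at ha
    subst ha
    rcases hab.2 with h | ⟨z, h, -⟩
    · exact ⟨_, h⟩
    · exact ⟨_, h⟩
  obtain ⟨a, ha, b, hb, hab⟩ := iso {v, w} ⟨v, Or.inl rfl⟩ (Set.ncard_pair hvw.ne).le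
  -- the partner of `a`
  obtain ⟨a', ha', haa⟩ : ∃ a' ∈ ({v, w} : Set V), G.Adj a a' := by
    rcases ha with h | h
    · exact ⟨w, Or.inr rfl, by rw [h]; exact hvw⟩
    · exact ⟨v, Or.inl rfl, by rw [h]; exact hvw.symm⟩
  rcases hab.2 with h | ⟨z, h1, h2⟩
  · exact ⟨a, a', b, haa, h, fun e => hb (e ▸ ha')⟩
  · by_cases hz : z = a'
    · subst hz
      exact ⟨z, a, b, haa.symm, h2, fun e => hb (e ▸ ha)⟩
    · exact ⟨a, a', z, haa, h1, fun e => hz e.symm⟩

lemma exists_edge {G : SimpleGraph V} (h5 : 5 ≤ Fintype.card V) (hC : Conn4 (sq G)) (v : V) :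
    ∃ w, (sq G).Adj v w := by
  have hne : (({v} : Set V)ᶜ).Nonempty := by
    by_contra h
    rw [Set.not_nonempty_iff_eq_empty, Set.compl_empty_iff] at h
    have := congrArg Set.ncard h
    rw [Set.ncard_singleton, Set.ncard_univ, Nat.card_eq_fintype_card] at this
    omega
  obtain ⟨a, ha, b, hb, hab⟩ := hC ∅ {v} {v}ᶜ (fun u => by
      by_cases h : u = v
      · exact Or.inr (Or.inl h)
      · exact Or.inr (Or.inr h)) disjoint_compl_right (by simp) (by simp) ⟨v, rfl⟩ hne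
      (by simp)
  rw [Set.mem_singleton_iff] at ha
  subst ha
  exact ⟨b, hab⟩

lemma finrank_le_six_of_GR (hH : T_HEN) {G : SimpleGraph V} {p : V → Vec}
    (h5 : 5 ≤ Fintype.card V) (hp : Gen p) (hGR : GR (sq G) p) (hC : Conn4 (sq G)) :
    finrank ℝ (infMot (sq G) p) ≤ 6 := by
  obtain ⟨z, a, b, hza, hzb, hab⟩ := exists_two_nbrs h5 hC
  obtain ⟨v, hv⟩ : ∃ v, v ∉ ({z, a, b} : Finset V) := by
    by_contra h
    push Not at h
    have h1 : (Finset.univ : Finset V) ⊆ {z, a, b} := fun v _ => h v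
    have h2 := (Finset.card_le_card h1).trans Finset.card_le_three
    rw [Finset.card_univ] at h2
    omega
  simp only [Finset.mem_insert, Finset.mem_singleton, not_or] at hv
  obtain ⟨w, hvw⟩ := exists_edge h5 hC v
  have t1 : (sq G).Adj z a := ⟨hza.ne, Or.inl hza⟩
  have t2 : (sq G).Adj z b := ⟨hzb.ne, Or.inl hzb⟩
  have t3 : (sq G).Adj a b := ⟨hab, Or.inr ⟨z, hza.symm, hzb⟩⟩
  have key : ∀ x y, (sq G).Adj x y → x ≠ v → y ≠ v → (delE (sq G) v w).Adj x y := by
    intro x y h hx hy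
    exact ⟨h, fun k => hx k.1, fun k => hy k.2⟩
  have h := hH V (sq G) p v w z a b h5 hp hGR hvw
    (key z a t1 (Ne.symm hv.1) (Ne.symm hv.2.1))
    (key z b t2 (Ne.symm hv.1) (Ne.symm hv.2.2))
    (key a b t3 (Ne.symm hv.2.1) (Ne.symm hv.2.2))
  exact (Submodule.finrank_mono (infMot_mono (H := delE (sq G) v w) (fun _ _ k => k.1) p)).trans h

end

theorem nec2 (h1 : T_NEC1) (hH : T_HEN) (hLB : T_LB) (hB3 : T_B3) (hA : T_N2A)
    (hD : T_N2D) (hCC : T_N2C) : T_NEC2 := by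
  intro V _ G p h5 hp hGR d hd h2
  by_contra hlt
  have hC : Conn4 (sq G) := h1 V (sq G) p hp hGR
  have nlc : ∀ e : V → V, Coarse d e → NoLeafCross G e := fun e he u w h1 h2 =>
    he u w (hd u w h1 h2)
  by_cases hneg : ∃ e : V → V, Coarse d e ∧ s2 G e < 0
  · obtain ⟨e, he, hs⟩ := hneg
    have b3 := hB3 V G e h5 hC (nlc e he)
    have f1 := hA V G e p hp b3
    have f2 := hLB V G e p
    have f3 := finrank_le_six_of_GR hH h5 hp hGR hC
    obtain ⟨r, hr⟩ := s2_even G e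
    have hs2 : s2 G e = 5 * (cr2 G e : ℤ) - 12 * (pt e : ℤ) + 12 := rfl
    omega
  · push Not at hneg
    have hs0 : s2 G d = 0 := by
      have := hneg d (fun _ _ h => h)
      obtain ⟨r, hr⟩ := s2_even G d
      omega
    obtain ⟨h6, a, u, b, w, e1, e2, e3, e4, e5, e6, e7, e8⟩ := hD V G d h2 hneg hs0
    exact hCC V G d p a u b w hp hGR hC hd (hB3 V G d h5 hC hd) h6 hs0 e1 e2 e3 e4 e5 e6 e7 e8

end Pool.Agent.H52.MG
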