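import Pool.Agent.H80.MG.Red

/-!
# S4C, S4D: deleting a class of degree two
-/

set_option autoImplicit false
set_option linter.unusedSectionVars false

noncomputable section

open Classical Module

namespace Pool.Agent.H52.MG

open Pool.Agent.H80.MG

section
variable {V : Type} [Fintype V]

lemma key_del {G : SimpleGraph V} {c : V → V} {a u b w : V} (h : Deg2 G c a u b w) {L : Type}
    (δ : V → L) (hδ : Coarse c δ) :
    cr2 G δ = cr2 (delS G (cls c a)) δ + (if δ a ≠ δ u then 2 else 0) +
      if δ b ≠ δ w then 2 else 0 := by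
  have hX : cls c a = {v | c v = c a} := rfl
  have h1 : cr2 G δ = cr2 (addE (addE (delS G (cls c a)) a u) b w) δ := by
    apply cr2_of_iff
    intro s t hst
    simp only [addE, delS, hX, Set.mem_ofPred_eq]
    constructor
    · intro hadj
      by_cases hs : c s = c a
      · have ht : c t ≠ c a := fun ht => hst (hδ _ _ (hs.trans ht.symm))
        rcases h.o s t hs ht hadj with ⟨e1, e2⟩ | ⟨e1, e2⟩
        · exact Or.inl (Or.inr ⟨hadj.ne, Or.inl ⟨e1, e2⟩⟩)
        · exact Or.inr ⟨hadj.ne, Or.inl ⟨e1, e2⟩⟩
      · by_cases ht : c t = c a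
        · rcases h.o t s ht hs hadj.symm with ⟨e1, e2⟩ | ⟨e1, e2⟩
          · exact Or.inl (Or.inr ⟨hadj.ne, Or.inr ⟨e2, e1⟩⟩)
          · exact Or.inr ⟨hadj.ne, Or.inr ⟨e2, e1⟩⟩
        · exact Or.inl (Or.inl ⟨hadj, hs, ht⟩)
    · rintro ((h' | ⟨_, ⟨e1, e2⟩ | ⟨e1, e2⟩⟩) | ⟨_, ⟨e1, e2⟩ | ⟨e1, e2⟩⟩)
      · exact h'.1
      · rw [e1, e2]; exact h.e1
      · rw [e1, e2]; exact h.e1.symm
      · rw [e1, e2]; exact h.e2
      · rw [e1, e2]; exact h.e2.symm
  rw [h1, cr2_addE, cr2_addE]
  have h3 : ¬ (delS G (cls c a)).Adj a u := fun h => h.2.1 rfl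
  have h4 : ¬ (addE (delS G (cls c a)) a u).Adj b w := by
    rintro (h' | ⟨_, ⟨h', _⟩ | ⟨h', _⟩⟩)
    · exact h'.2.1 h.cb
    · exact h.ab h'.symm
    · exact h.ua (by rw [← h', h.cb])
  simp [h3, h4]

lemma s2_le_one (G : SimpleGraph V) {L : Type} (d : V → L) (h : pt d < 2) : 0 ≤ s2 G d := by
  unfold s2
  have : (0 : ℤ) ≤ (cr2 G d : ℤ) := by positivity
  omega

lemma del_same {G : SimpleGraph V} {c : V → V} {a u b w : V} (h : Deg2 G c a u b w) {L : Type}
    (d : V → L) (hd : Coarse (mrg c u a) d) (huw : d u = d w) :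
    s2 (delS G (cls c a)) d = s2 G d := by
  obtain ⟨h1, h2⟩ := coarse_mrg (c := c) (b := u) (a := a) h.ua.symm hd
  have k1 := key_del h d h1
  have e1 : d a = d u := h2 a rfl
  have e2 : d b = d w := (h2 b h.cb).trans huw
  rw [if_neg (by simp [e1]), if_neg (by simp [e2])] at k1
  unfold s2
  rw [k1]
  simp

theorem s4c : T_S4C := by
  intro V _ G c a u b w h hT hs
  constructor
  · intro d hd
    obtain ⟨h1, h2⟩ := coarse_mrg (c := c) (b := u) (a := a) h.ua.symm hd
    obtain ⟨d', hd', hpt, hcr, hs2⟩ := exists_relabel' G (spl {v | c v = c a} d)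
    have h3 := hs d' (fun s t e => (hd' s t).mpr (coarse_spl (a := a) h1 s t e)) (by
      intro v hv
      rw [hd'] at hv
      by_contra hc
      have : ¬ c v = c a := hc
      simp [spl, this] at hv)
    rw [hs2] at h3
    have h4 := pt_spl {v | c v = c a} d a u rfl (fun k => h.ua k) (fun v hv => h2 v hv)
    have k2 := key_del h _ (coarse_spl (a := a) h1)
    have h7 : cr2 (delS G (cls c a)) (spl {v | c v = c a} d) = cr2 (delS G (cls c a)) d := by
      apply cr2_of_adj
      intro s t hst
      have hs' : ¬ c s = c a := hst.2.1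
      have ht' : ¬ c t = c a := hst.2.2
      simp [spl, hs', ht']
    have h8 : spl {v | c v = c a} d a ≠ spl {v | c v = c a} d u := by
      simp [spl, h.ua]
    have h9 : spl {v | c v = c a} d b ≠ spl {v | c v = c a} d w := by
      simp [spl, h.wa, h.cb]
    rw [if_pos h8, if_pos h9, h7] at k2
    unfold s2 at h3 ⊢
    rw [h4, k2] at h3
    push_cast at h3 ⊢
    omega
  · intro d hd huw
    obtain ⟨h1, h2⟩ := coarse_mrg (c := c) (b := u) (a := a) h.ua.symm hd
    rcases Nat.lt_or_ge (pt d) 2 with hp | hp
    · exact s2_le_one _ _ hp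
    · rw [del_same h d hd huw]
      have := hT d h1 hp
      omega

theorem s4d : T_S4D := by
  intro V _ G c a u b w h hT hCp hw3 huw hs d hd
  obtain ⟨h1, h2⟩ := coarse_mrg (c := c) (b := u) (a := a) h.ua.symm hd
  by_contra hlt
  push_cast at hlt
  obtain ⟨c1, c2⟩ := s4c V G c a u b w h hT hs
  have hm2 := c1 d hd
  push_cast at hm2
  obtain ⟨r, hr⟩ := s2_even (delS G (cls c a)) d
  have heq : s2 (delS G (cls c a)) d = -2 := by omega
  have hne : d u ≠ d w := by
    intro k
    have := c2 d hd k
    omega
  have huwne : u ≠ w := fun k => hne (by rw [k])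
  have hdel : (delS G (cls c a)).Adj u w := ⟨huw, h.ua, h.wa⟩
  have hpt2 : 2 ≤ pt d := by
    by_contra hp
    have := s2_le_one (delS G (cls c a)) d (by omega)
    omega
  rcases Nat.lt_or_ge 2 (pt d) with hp | hp
  · -- merge the colours of u and w
    let d2 : V → V := fun v => if d v = d w then d u else d v
    have hcoarse : Coarse (mrg c u a) d2 := by
      intro s t e
      simp only [d2]
      rw [hd s t e]
    have h2same : d2 u = d2 w := by
      have q1 : d2 u = d u := if_neg hne
      have q2 : d2 w = d u := if_pos rfl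
      rw [q1, q2]
    have hpt : pt d ≤ pt d2 + 1 := by
      unfold pt
      have hsub : Finset.univ.image d ⊆ insert (d w) (Finset.univ.image d2) := by
        intro l hl
        obtain ⟨v, _, rfl⟩ := Finset.mem_image.mp hl
        rw [Finset.mem_insert]
        by_cases hv : d v = d w
        · exact Or.inl hv
        · right
          rw [Finset.mem_image]
          exact ⟨v, Finset.mem_univ _, if_neg hv⟩
      exact (Finset.card_le_card hsub).trans (Finset.card_insert_le _ _)
    have hcr : cr2 (delS G (cls c a)) d2 + 2 ≤ cr2 (delS G (cls c a)) d := by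
      unfold cr2
      rw [← Finset.card_pair (a := (u, w)) (b := (w, u)) (fun k => huwne (congrArg Prod.fst k)),
        ← Finset.card_union_of_disjoint]
      · apply Finset.card_le_card
        intro x hx
        rw [Finset.mem_union, Finset.mem_filter, Finset.mem_insert, Finset.mem_singleton] at hx
        rw [Finset.mem_filter]
        refine ⟨Finset.mem_univ _, ?_⟩
        rcases hx with hx | rfl | rfl
        · refine ⟨hx.2.1, fun k => hx.2.2 ?_⟩
          simp only [d2]
          rw [k]
        · exact ⟨hdel, hne⟩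
        · exact ⟨hdel.symm, hne.symm⟩
      · rw [Finset.disjoint_left]
        intro x hx hx'
        rw [Finset.mem_filter] at hx
        rw [Finset.mem_insert, Finset.mem_singleton] at hx'
        rcases hx' with rfl | rfl
        · exact hx.2.2 h2same
        · exact hx.2.2 h2same.symm
    have h5 := del_same h d2 hcoarse h2same
    have h6 := hT d2 (coarse_mrg (c := c) (b := u) (a := a) h.ua.symm hcoarse).1 (by omega)
    rw [← h5] at h6
    unfold s2 at heq h6
    omega
  · have hpt : pt d = 2 := by omega
    have hcr : cr2 (delS G (cls c a)) d = 2 := by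
      unfold s2 at heq
      rw [hpt] at heq
      push_cast at heq
      omega
    have honly : ∀ s t, (delS G (cls c a)).Adj s t → d s ≠ d t →
        (s = u ∧ t = w) ∨ (s = w ∧ t = u) := by
      intro s t hst hd'
      have hsub : ({(u, w), (w, u)} : Finset (V × V)) ⊆
          Finset.univ.filter (fun x : V × V => (delS G (cls c a)).Adj x.1 x.2 ∧ d x.1 ≠ d x.2) := by
        intro x hx
        rw [Finset.mem_insert, Finset.mem_singleton] at hx
        rw [Finset.mem_filter]
        refine ⟨Finset.mem_univ _, ?_⟩
        rcases hx with rfl | rfl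
        · exact ⟨hdel, hne⟩
        · exact ⟨hdel.symm, hne.symm⟩
      have heq' := Finset.eq_of_subset_of_card_le hsub (by
        have : (Finset.univ.filter (fun x : V × V =>
          (delS G (cls c a)).Adj x.1 x.2 ∧ d x.1 ≠ d x.2)).card = 2 := hcr
        rw [this, Finset.card_pair (fun k => huwne (congrArg Prod.fst k))])
      have : (s, t) ∈ ({(u, w), (w, u)} : Finset (V × V)) := by
        rw [heq', Finset.mem_filter]
        exact ⟨Finset.mem_univ _, hst, hd'⟩
      rw [Finset.mem_insert, Finset.mem_singleton] at this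
      rcases this with k | k
      · exact Or.inl ⟨congrArg Prod.fst k, congrArg Prod.snd k⟩
      · exact Or.inr ⟨congrArg Prod.fst k, congrArg Prod.snd k⟩
    -- the set Z
    have hX : ∀ v, c v = c a → d v = d u := h2
    have hb : d b = d u := h2 b h.cb
    have hleave : ∀ x y, x ∈ {v | d v = d w} → y ∉ {v | d v = d w} → G.Adj x y →
        x = w ∧ (y = u ∨ y = b) := by
      intro x y hx hy hxy
      have hx' : d x = d w := hx
      have hy' : d y ≠ d w := hy
      have hxa : c x ≠ c a := fun k => hne ((hX x k).symm.trans hx')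
      by_cases hya : c y = c a
      · rcases h.o y x hya hxa hxy.symm with k | k
        · exact absurd (by rw [k.2] at hx'; exact hx') hne
        · exact ⟨k.2, Or.inr k.1⟩
      · rcases honly x y ⟨hxy, hxa, hya⟩ (by rw [hx']; exact hy'.symm) with k | k
        · exact absurd (by rw [k.1] at hx'; exact hx') hne
        · exact ⟨k.1, Or.inl k.2⟩
    have hub : u ≠ b := fun k => h.ua (by rw [k]; exact h.cb)
    rcases hCp {v | d v = d w} (fun s t e hs' => by
        have : d s = d w := hs'
        exact ((h1 s t e).symm.trans this : d t = d w)) w u b rfl hne (by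
          intro k
          exact hne (hb.symm.trans k)) hub huw.symm h.e2.symm hleave with hZ | hZ
    · have hZ' : ∀ v, d v = d w → v = w := by
        intro v hv
        have hv' : v ∈ {v | d v = d w} := hv
        have hw' : w ∈ {v | d v = d w} := rfl
        exact (Set.ncard_le_one (Set.toFinite _)).mp hZ v hv' w hw'
      have hdg : dgc G c w ≤ 2 := by
        unfold dgc
        rw [← Finset.card_pair (a := (w, u)) (b := (w, b)) (fun k => hub (congrArg Prod.snd k))]
        apply Finset.card_le_card
        intro x hx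
        rw [Finset.mem_filter] at hx
        obtain ⟨_, q1, q2, q3⟩ := hx
        have hx1 : x.1 = w := hZ' _ (h1 _ _ q1)
        have hx2 : x.2 ∉ {v | d v = d w} := fun k => q2 (by rw [hZ' _ k])
        have := hleave x.1 x.2 (h1 _ _ q1) hx2 q3
        rw [Finset.mem_insert, Finset.mem_singleton]
        rcases this.2 with k | k
        · exact Or.inl (Prod.ext hx1 k)
        · exact Or.inr (Prod.ext hx1 k)
      omega
    · have h3 : 3 ≤ ({v | d v = d w}ᶜ : Set V).ncard := by
        have hau : a ≠ u := fun k => h.ua (by rw [k])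
        have q1 : a ∈ ({v | d v = d w}ᶜ : Set V) := fun k => hne ((hX a rfl).symm.trans k)
        have q2 : b ∈ ({v | d v = d w}ᶜ : Set V) := fun k => hne (hb.symm.trans k)
        have q3 : u ∈ ({v | d v = d w}ᶜ : Set V) := hne
        have h1' : ({a, b, u} : Set V).ncard = 3 :=
          Set.ncard_eq_three.mpr ⟨a, b, u, h.ab, hau, hub.symm, rfl⟩
        rw [← h1']
        apply Set.ncard_le_ncard _ (Set.toFinite _)
        rintro z (k | k | k)
        · rw [k]; exact q1
        · rw [k]; exact q2
        · rw [k]; exact q3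
      omega

end

end Pool.Agent.H52.MG
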