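import Pool.Agent.H52.MG.THB
import Pool.Agent.H52.MG.NEC2
import Pool.Agent.H52.MG.FIN
import Pool.Agent.H52.MG.COMB
import Pool.Agent.H52.MG.MTA
import Pool.Agent.H52.MG.AL
import Pool.Agent.H52.MG.INST
import Pool.Agent.H52.MG.MG4
import Pool.Agent.H52.MG.S4C
import Pool.Agent.H13.MG.FC
import Pool.Agent.H13.MG.N1
import Pool.Agent.H14.MG.N2C
import Pool.Agent.H14.MG.MTR
import Pool.Agent.H19.MG.DBL
import Pool.Agent.H19.MG.N2B
import Pool.Agent.H19.MG.NEC1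
import Pool.Agent.H19.MG.QUO
import Pool.Agent.H20.MG.L4A
import Pool.Agent.H20.MG.L4B
import Pool.Agent.H29.MG.L2
import Pool.Agent.H29.MG.L2A
import Pool.Agent.H29.MG.UF
import Pool.Agent.H36.MG.AL0
import Pool.Agent.H36.MG.M4
import Pool.Agent.H36.MG.S4
import Pool.Agent.H36.MG.S4B
import Pool.Agent.H36.MG.S4E
import Pool.Agent.H36.MG.S4F
import Pool.Agent.H61.MG.CC0
import Pool.Agent.H61.MG.CC1
import Pool.Agent.H61.MG.CC4
import Pool.Agent.H61.MG.CE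
import Pool.Agent.H61.MG.Tools
import Pool.Agent.H62.MG.CNT
import Pool.Agent.H62.MG.DEG
import Pool.Agent.H62.MG.GP
import Pool.Agent.H62.MG.HB
import Pool.Agent.H62.MG.ISO
import Pool.Agent.H62.MG.MGA
import Pool.Agent.H62.MG.RES
import Pool.Agent.H65.MG.ODE
import Pool.Agent.H65.MG.Curv
import Pool.Agent.H70.MG.HEN
import Pool.Agent.H70.MG.MTC
import Pool.Agent.H70.MG.TEC
import Pool.Agent.H75.MG.DER
import Pool.Agent.H75.MG.EXG
import Pool.Agent.H75.MG.RG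
import Pool.Agent.H75.MG.RK
import Pool.Agent.H75.MG.TL
import Pool.Agent.H75.MG.URK
import Pool.Agent.H80.MG.Chn
import Pool.Agent.H80.MG.Gs
import Pool.Agent.H80.MG.Rank
import Pool.Agent.H80.MG.Red
import Pool.Agent.H80.MG.Semi
import Pool.Agent.H90.MG.M126
import Pool.Agent.H90.MG.S35
import Pool.Agent.H90.MG.S4A
import Pool.Agent.H94.MG.CLQ
import Pool.Agent.H94.MG.LA1
import Pool.Agent.H94.MG.LA2
import Pool.Agent.H94.MG.LA3
import Pool.Agent.H94.MG.LA3T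
import Pool.Agent.H94.MG.LA4
import Pool.Agent.H94.MG.LA5
import Pool.Agent.H94.MG.MG5
import Pool.Agent.H97.MG.ALD
import Pool.Agent.H97.MG.LB
import Pool.Agent.H97.MG.MG23

/-!
# Assembly
-/

set_option autoImplicit false

namespace Pool.Agent.H52.MG

theorem final : T_FIN ∧ T_NEC1 ∧ T_NEC2 := by
  have hGP := H62.MG.gp
  have hISO := H62.MG.iso
  have hGS := H80.MG.gs H80.MG.semi
  have hIM := H80.MG.im H80.MG.semi
  have hRANK := H80.MG.rank H75.MG.der hIM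
  have hCLQ := H94.MG.clq hGP
  have hQUO := H19.MG.quo
  have hS4C := s4c
  have hS4D := s4d
  have hMTR' := H14.MG.mtr (H70.MG.mtc H62.MG.cnt) hQUO H80.MG.riso H80.MG.rpen H80.MG.rdel
    H80.MG.rred H80.MG.rchn
  have hMT : T_MT := mt hMTR' H62.MG.mga (H97.MG.mg2 hGP) (H97.MG.mg3 hGS) (mg4 hGS hGP)
    (H94.MG.mg5 H94.MG.la5 hGS hGP) hGP
  have hN1' := H13.MG.n1 H19.MG.dbl hMT H75.MG.exg hGS hGP
  have hUF := H29.MG.uf hMT hN1' H80.MG.rchn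
  have hL2A := H29.MG.l2a hCLQ H94.MG.la1 hGS hUF H62.MG.red
  have hL3A := H29.MG.l3a hCLQ H94.MG.la2 hGS hUF H62.MG.red
  have hL2 := H29.MG.l2 hL2A hUF hRANK
  have hL3 := H29.MG.l3 hL3A hUF hRANK hISO
  have hM4 := H36.MG.m4 hISO hGP
  have hFOUR := H36.MG.four hISO hGP
  have hLA3T := H94.MG.la3t H94.MG.la3 H75.MG.rg (H75.MG.urk H75.MG.rk) hGP
  have hAL : T_AL := al_thm hL2 hL3 hLA3T hUF
    (H20.MG.L4A H62.MG.res hCLQ hGP) (H20.MG.L4B hRANK hISO) hFOUR hISO hGP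
  have hTL := H75.MG.tl H75.MG.der hRANK hGP
  have hFB := H62.MG.fb hCLQ
  have hDEG := H62.MG.deg
  have hM1 := H52.MG.m1 hMT hFB hTL hISO
  have hM2 := H52.MG.m2 hMT hFB hTL hISO hGP
  have hM6 := H52.MG.m6 hMT hFB hTL hISO hGP
  have hS3 := H52.MG.s3 hM1 hM2 hDEG
  have hS5 := H52.MG.s5 hM1 hM4 hM6 hDEG
  have hS6 := H52.MG.s6 hM1 hM4 hDEG
  have hS4A := H52.MG.s4a hMT hFB hTL hISO
  have hS4B := H36.MG.s4b hS4C hMT (H36.MG.s4e hS4C hS4D hMT hGP)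
    (H36.MG.s4f hGS hS4C hMT H94.MG.la4 hGP) hFB hTL hISO hDEG
  have hS4 := H36.MG.s4 hS4A hS4B hM4 hDEG
  have hCOMB := comb H61.MG.lnk (H61.MG.cc0 H62.MG.cnt) H61.MG.cc1 H61.MG.cc2 H61.MG.cc4
    H61.MG.cc5 H70.MG.tec H61.MG.ce H61.MG.cf
  have hTHB := thb (inst hCOMB hQUO) H97.MG.ald (H36.MG.al0 hM4) hAL hS4 hS3 hS5 hS6
  have hNEC1 := H19.MG.nec1 hGP
  have hCURV := H65.MG.curv H65.MG.ode H65.MG.odu hRANK hIM hGP
  have hHEN := H70.MG.hen hCURV hNEC1 hRANK hIM hCLQ hGP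
  have hNEC2 := nec2 hNEC1 hHEN H97.MG.lb H97.MG.b3 (H97.MG.n2a hGP) (H19.MG.n2d hQUO)
    (H14.MG.n2c hHEN H97.MG.lb hISO hGP)
  exact ⟨fin hTHB hNEC1 hNEC2 H13.MG.fc, hNEC1, hNEC2⟩

end Pool.Agent.H52.MG
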