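import Pool.Agent.H52.MG.Tree

/-!
# The final form of the characterisation
-/

set_option autoImplicit false
set_option linter.unusedSectionVars false

noncomputable section

open Classical

namespace Pool.Agent.H52.MG.Clean

variable {V : Type} [Fintype V]

lemma connected_of_square (G : SimpleGraph V) (h : IsFourConnected (square G)) : G.Connected := by
  have h1 := h.2 ∅ (by simp)
  have key : ∀ u w : V, (square G).Adj u w → G.Reachable u w := by
    rintro u w ⟨_, h | ⟨z, h, h'⟩⟩
    · exact h.reachable
    · exact h.reachable.trans h'.reachable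
  have key2 : ∀ x y : {v | v ∉ (∅ : Finset V)},
      ((square G).induce {v | v ∉ (∅ : Finset V)}).Walk x y → G.Reachable x.1 y.1 := by
    intro x y p
    induction p with
    | nil => exact SimpleGraph.Reachable.refl _
    | cons hadj _ ih => exact (key _ _ hadj).trans ih
  rw [SimpleGraph.connected_iff]
  refine ⟨?_, ?_⟩
  · intro u w
    obtain ⟨p⟩ := h1.preconnected ⟨u, Finset.notMem_empty u⟩ ⟨w, Finset.notMem_empty w⟩
    exact key2 _ _ p
  · obtain ⟨x⟩ := h1.nonempty
    exact ⟨x.1⟩

theorem main (hF : T_FIN) (h1 : T_NEC1) (h2 : T_NEC2) (G : SimpleGraph V)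
    (p : V → EuclideanSpace ℝ (Fin 3)) (hp : IsGeneric p) :
    IsGloballyRigid (square G) p ↔
      (Fintype.card V ≤ 4 ∧ square G = ⊤) ∨
      (IsFourConnected (square G) ∧
        IsHighlyTreeConnected 6 (multiple 5 (G.induce (core G)))) := by
  have hT : IsFourConnected (square G) →
      (IsHighlyTreeConnected 6 (multiple 5 (G.induce (core G))) ↔ PartitionCondition G) := by
    intro h
    have hG := connected_of_square G h
    have h3 : 3 ≤ Fintype.card V := by have := h.1; omega
    rw [core_iff G hG h3, highly_iff _ (core_connected G hG h3)]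
  have hp' : Gen (fun v i => p v i) := hp
  constructor
  · intro h
    by_cases h5 : Fintype.card V ≤ 4
    · rcases (clean hF G p hp).mp h with k | k
      · exact Or.inl ⟨h5, k⟩
      · have := k.1.1; omega
    · right
      have h4 : IsFourConnected (square G) := by
        rw [conn_iff]
        exact ⟨by omega, h1 V (square G) (fun v i => p v i) hp' ((gr_iff _ _).mp h)⟩
      refine ⟨h4, (hT h4).mpr ?_⟩
      rw [part_iff]
      exact h2 V G (fun v i => p v i) (by omega) hp' ((gr_iff _ _).mp h)
  · rintro (⟨_, h⟩ | ⟨h4, h⟩)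
    · exact (clean hF G p hp).mpr (Or.inl h)
    · exact (clean hF G p hp).mpr (Or.inr ⟨h4, (hT h4).mp h⟩)

end Pool.Agent.H52.MG.Clean
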