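import Mathlib

/-!
# The tree packing theorem of Nash-Williams and Tutte

A multigraph is given by finite types `V` of vertices and `E` of edges and maps `a b : E → V`
(the ends of the edges). For a set `S` of edges, `rel a b S` is the partition of `V` into
components of `(V, S)`.
-/

set_option autoImplicit false
set_option linter.unusedSectionVars false

noncomputable section

open Classical

namespace Pool.Agent.H52.MG.NWT

/-- number of classes -/
def nc {V : Type} (t : Setoid V) : ℕ := Nat.card (Quotient t)

/-- merge the classes of `x` and `y` -/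
def merge {V : Type} (t : Setoid V) (x y : V) : Setoid V :=
  Setoid.ker (fun u => if (⟦u⟧ : Quotient t) = ⟦y⟧ then (⟦x⟧ : Quotient t) else ⟦u⟧)

section
variable {V : Type}

lemma qe (t : Setoid V) (u v : V) : (⟦u⟧ : Quotient t) = ⟦v⟧ ↔ t u v := Quotient.eq

lemma merge_apply (t : Setoid V) (x y u v : V) :
    merge t x y u v ↔ t u v ∨ (t u x ∧ t v y) ∨ (t u y ∧ t v x) := by
  unfold merge
  rw [Setoid.ker_def]
  by_cases hu : t u y <;> by_cases hv : t v y
  · rw [if_pos ((qe t _ _).mpr hu), if_pos ((qe t _ _).mpr hv)]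
    simp only [true_iff]
    exact Or.inl (t.trans hu (t.symm hv))
  · rw [if_pos ((qe t _ _).mpr hu), if_neg (fun k => hv ((qe t _ _).mp k)), qe]
    constructor
    · intro h; exact Or.inr (Or.inr ⟨hu, t.symm h⟩)
    · rintro (h | h | h)
      · exact absurd (t.trans (t.symm h) hu) hv
      · exact absurd h.2 hv
      · exact t.symm h.2
  · rw [if_neg (fun k => hu ((qe t _ _).mp k)), if_pos ((qe t _ _).mpr hv), qe]
    constructor
    · intro h; exact Or.inr (Or.inl ⟨h, hv⟩)
    · rintro (h | h | h)
      · exact absurd (t.trans h hv) hu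
      · exact h.1
      · exact absurd h.1 hu
  · rw [if_neg (fun k => hu ((qe t _ _).mp k)), if_neg (fun k => hv ((qe t _ _).mp k)), qe]
    constructor
    · exact Or.inl
    · rintro (h | h | h)
      · exact h
      · exact absurd h.2 hv
      · exact absurd h.1 hu

lemma le_merge (t : Setoid V) (x y : V) : t ≤ merge t x y :=
  fun {u v} h => (merge_apply t x y u v).mpr (Or.inl h)

lemma merge_self (t : Setoid V) (x y : V) : merge t x y x y :=
  (merge_apply t x y x y).mpr (Or.inr (Or.inl ⟨t.refl x, t.refl y⟩))

lemma merge_le {t s : Setoid V} {x y : V} (h : t ≤ s) (hxy : s x y) : merge t x y ≤ s := by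
  intro u v huv
  rcases (merge_apply t x y u v).mp huv with k | k | k
  · exact h k
  · exact s.trans (h k.1) (s.trans hxy (s.symm (h k.2)))
  · exact s.trans (h k.1) (s.trans (s.symm hxy) (s.symm (h k.2)))

lemma merge_eq {t : Setoid V} {x y : V} (h : t x y) : merge t x y = t :=
  le_antisymm (merge_le le_rfl h) (le_merge t x y)

variable [Fintype V]

lemma nc_merge {t : Setoid V} {x y : V} (h : ¬ t x y) : nc (merge t x y) + 1 = nc t := by
  unfold nc
  let f : V → {q : Quotient t // q ≠ ⟦y⟧} := fun u =>
    if hu : (⟦u⟧ : Quotient t) = ⟦y⟧ then ⟨⟦x⟧, fun k => h ((qe t _ _).mp k)⟩ else ⟨⟦u⟧, hu⟩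
  have hf : Function.Surjective f := by
    rintro ⟨q, hq⟩
    induction q using Quotient.inductionOn with
    | _ u =>
      refine ⟨u, ?_⟩
      simp only [f]
      rw [dif_neg hq]
  have hk : Setoid.ker f = merge t x y := by
    unfold merge
    ext u v
    rw [Setoid.ker_def, Setoid.ker_def]
    simp only [f]
    by_cases hu : (⟦u⟧ : Quotient t) = ⟦y⟧ <;> by_cases hv : (⟦v⟧ : Quotient t) = ⟦y⟧ <;>
      simp [hu, hv, Subtype.ext_iff]
  rw [← hk, Nat.card_congr (Setoid.quotientKerEquivOfSurjective f hf)]
  rw [Nat.card_eq_fintype_card, Nat.card_eq_fintype_card, Fintype.card_subtype_compl,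
    Fintype.card_subtype_eq]
  have : 0 < Fintype.card (Quotient t) := Fintype.card_pos_iff.mpr ⟨⟦x⟧⟩
  omega

lemma nc_pos [Nonempty V] (t : Setoid V) : 1 ≤ nc t := by
  unfold nc
  have : Nonempty (Quotient t) := ⟨⟦Classical.arbitrary V⟧⟩
  exact Nat.card_pos

lemma nc_bot : nc (⊥ : Setoid V) = Fintype.card V := by
  unfold nc
  rw [← Nat.card_eq_fintype_card]
  exact Nat.card_congr (Equiv.ofBijective (fun v => ⟦v⟧)
    ⟨fun u v h => (qe ⊥ u v).mp h, fun q => Quotient.inductionOn q fun v => ⟨v, rfl⟩⟩).symm

end

section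
variable {V E : Type}

/-- the components of `(V, S)` -/
def rel (a b : E → V) (S : Finset E) : Setoid V :=
  Relation.EqvGen.setoid (fun x y => ∃ e ∈ S, a e = x ∧ b e = y)

variable {a b : E → V}

lemma rel_self {S : Finset E} {e : E} (he : e ∈ S) : rel a b S (a e) (b e) :=
  Relation.EqvGen.rel _ _ ⟨e, he, rfl, rfl⟩

lemma rel_le {S : Finset E} {t : Setoid V} (h : ∀ e ∈ S, t (a e) (b e)) : rel a b S ≤ t := by
  apply Setoid.eqvGen_le
  rintro x y ⟨e, he, rfl, rfl⟩
  exact h e he

lemma rel_mono {S T : Finset E} (h : S ⊆ T) : rel a b S ≤ rel a b T :=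
  rel_le fun _ he => rel_self (h he)

lemma rel_empty : rel a b ∅ = ⊥ := by
  rw [eq_bot_iff]
  exact rel_le fun e he => absurd he (Finset.notMem_empty e)

lemma rel_insert (S : Finset E) (e : E) :
    rel a b (insert e S) = merge (rel a b S) (a e) (b e) := by
  apply le_antisymm
  · apply rel_le
    intro f hf
    rcases Finset.mem_insert.mp hf with k | k
    · rw [k]; exact merge_self _ _ _
    · exact le_merge _ _ _ (rel_self k)
  · exact merge_le (rel_mono (Finset.subset_insert e S)) (rel_self (Finset.mem_insert_self e S))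

/-- exchange property -/
lemma exchange {S : Finset E} {e f : E} (h1 : rel a b (insert e S) (a f) (b f))
    (h2 : ¬ rel a b S (a f) (b f)) : rel a b (insert f S) (a e) (b e) := by
  rw [rel_insert, merge_apply] at h1 ⊢
  rcases h1 with k | k | k
  · exact absurd k h2
  · exact Or.inr (Or.inl ⟨Setoid.symm' _ k.1, Setoid.symm' _ k.2⟩)
  · exact Or.inr (Or.inr ⟨Setoid.symm' _ k.2, Setoid.symm' _ k.1⟩)

/-- forests -/
def Ind (a b : E → V) (S : Finset E) : Prop := ∀ e ∈ S, ¬ rel a b (S.erase e) (a e) (b e)

lemma Ind.mono {S T : Finset E} (h : Ind a b T) (hS : S ⊆ T) : Ind a b S :=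
  fun e he k => h e (hS he) (rel_mono (Finset.erase_subset_erase e hS) k)

lemma Ind.insert {S : Finset E} (h : Ind a b S) {e : E} (he : ¬ rel a b S (a e) (b e)) :
    Ind a b (insert e S) := by
  have heS : e ∉ S := fun k => he (rel_self k)
  intro f hf k
  rcases Finset.mem_insert.mp hf with hf | hf
  · subst hf
    rw [Finset.erase_insert heS] at k
    exact he k
  · have hfe : f ≠ e := fun k => heS (k ▸ hf)
    rw [Finset.erase_insert_of_ne hfe.symm] at k
    have := exchange k (h f hf)
    rw [Finset.insert_erase hf] at this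
    exact he this

lemma Ind.loop {S : Finset E} (h : Ind a b S) {x : E} (hx : x ∈ S) : a x ≠ b x := by
  intro hab
  apply h x hx
  rw [hab]

lemma Ind.parallel {S : Finset E} (h : Ind a b S) {x y : E} (hx : x ∈ S) (hy : y ∈ S)
    (h1 : a x = a y) (h2 : b x = b y) : x = y := by
  by_contra hne
  apply h x hx
  rw [h1, h2]
  exact rel_self (Finset.mem_erase.mpr ⟨fun k => hne k.symm, hy⟩)

variable [Fintype V]

lemma Ind.card {S : Finset E} (h : Ind a b S) : S.card + nc (rel a b S) = Fintype.card V := by
  induction S using Finset.induction_on with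
  | empty => rw [rel_empty, nc_bot]; simp
  | insert e S he ih =>
    have h1 := ih (h.mono (Finset.subset_insert e S))
    have h2 := h e (Finset.mem_insert_self e S)
    rw [Finset.erase_insert he] at h2
    rw [Finset.card_insert_of_notMem he, rel_insert]
    have := nc_merge h2
    omega

variable [Fintype E]

/-- valid tuples of forests -/
def Val (a b : E → V) {k : ℕ} (F : Fin k → Finset E) : Prop :=
  (∀ i j, i ≠ j → Disjoint (F i) (F j)) ∧ ∀ i, Ind a b (F i)

/-- total number of edges -/
def tot {k : ℕ} (F : Fin k → Finset E) : ℕ := ∑ i, (F i).card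

/-- valid with the maximal number of edges -/
def Mx (a b : E → V) {k : ℕ} (F : Fin k → Finset E) : Prop :=
  Val a b F ∧ ∀ F' : Fin k → Finset E, Val a b F' → tot F' ≤ tot F

/-- uncovered edge -/
def Unc {k : ℕ} (F : Fin k → Finset E) (e : E) : Prop := ∀ i, e ∉ F i

/-- one exchange step -/
def Step (a b : E → V) {k : ℕ} (F F' : Fin k → Finset E) : Prop :=
  ∃ e j f, Unc F e ∧ f ∈ F j ∧ ¬ rel a b ((F j).erase f) (a e) (b e) ∧
    F' = Function.update F j (insert e ((F j).erase f))

variable {k : ℕ} {F F' : Fin k → Finset E}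

lemma tot_update (F : Fin k → Finset E) (j : Fin k) (S : Finset E) :
    tot (Function.update F j S) + (F j).card = tot F + S.card := by
  unfold tot
  rw [← Finset.add_sum_erase _ _ (Finset.mem_univ j), ← Finset.add_sum_erase _ _ (Finset.mem_univ j)]
  rw [Function.update_self]
  have : ∑ x ∈ Finset.univ.erase j, (Function.update F j S x).card =
      ∑ x ∈ Finset.univ.erase j, (F x).card := by
    apply Finset.sum_congr rfl
    intro x hx
    rw [Function.update_of_ne (Finset.ne_of_mem_erase hx)]
  rw [this]
  omega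

lemma Val.update (h : Val a b F) (j : Fin k) {S : Finset E} (hS : Ind a b S)
    (hd : ∀ i, i ≠ j → Disjoint (F i) S) : Val a b (Function.update F j S) := by
  constructor
  · intro i i' hii
    by_cases h1 : i = j
    · subst h1
      rw [Function.update_self, Function.update_of_ne hii.symm]
      exact (hd i' hii.symm).symm
    · by_cases h2 : i' = j
      · subst h2
        rw [Function.update_self, Function.update_of_ne hii]
        exact hd i hii
      · rw [Function.update_of_ne h1, Function.update_of_ne h2]
        exact h.1 i i' hii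
  · intro i
    by_cases h1 : i = j
    · subst h1
      rw [Function.update_self]
      exact hS
    · rw [Function.update_of_ne h1]
      exact h.2 i

lemma unc_rel (h : Mx a b F) {e : E} (he : Unc F e) (j : Fin k) : rel a b (F j) (a e) (b e) := by
  by_contra hc
  have h1 := h.2 _ (h.1.update j ((h.1.2 j).insert hc) (fun i hi => by
    rw [Finset.disjoint_insert_right]
    exact ⟨he i, h.1.1 i j hi⟩))
  have h2 := tot_update F j (insert e (F j))
  rw [Finset.card_insert_of_notMem (he j)] at h2
  omega

lemma Step.mx (h : Mx a b F) (hs : Step a b F F') : Mx a b F' := by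
  obtain ⟨e, j, f, he, hf, hr, rfl⟩ := hs
  have h1 : Val a b (Function.update F j (insert e ((F j).erase f))) :=
    h.1.update j (((h.1.2 j).mono (Finset.erase_subset _ _)).insert hr) (fun i hi => by
      rw [Finset.disjoint_insert_right]
      exact ⟨he i, (h.1.1 i j hi).mono_right (Finset.erase_subset _ _)⟩)
  refine ⟨h1, fun F' hF' => ?_⟩
  have h2 := tot_update F j (insert e ((F j).erase f))
  rw [Finset.card_insert_of_notMem (fun k => he j (Finset.mem_of_mem_erase k)),
    Finset.card_erase_of_mem hf] at h2
  have h3 : 0 < (F j).card := Finset.card_pos.mpr ⟨f, hf⟩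
  have := h.2 F' hF'
  omega

lemma Step.unc (h : Mx a b F) {e : E} {j : Fin k} {f : E} (he : Unc F e) (hf : f ∈ F j) :
    Unc (Function.update F j (insert e ((F j).erase f))) f := by
  intro i
  by_cases h1 : i = j
  · subst h1
    rw [Function.update_self]
    simp only [Finset.mem_insert, Finset.mem_erase, ne_eq, not_true_eq_false, false_and, or_false]
    intro k
    exact he i (k ▸ hf)
  · rw [Function.update_of_ne h1]
    intro k
    exact Finset.disjoint_left.mp (h.1.1 i j h1) k hf

/-- the exchangeable edges -/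
def E0 (a b : E → V) (F0 : Fin k → Finset E) : Finset E :=
  Finset.univ.filter (fun e => ∃ F, Relation.ReflTransGen (Step a b) F0 F ∧ Unc F e)

lemma reach_mx {F0 : Fin k → Finset E} (h0 : Mx a b F0) (h : Relation.ReflTransGen (Step a b) F0 F) :
    Mx a b F := by
  induction h with
  | refl => exact h0
  | tail _ hs ih => exact hs.mx ih

/-- Claim A -/
lemma claimA {F0 : Fin k → Finset E} (h0 : Mx a b F0) (h : Relation.ReflTransGen (Step a b) F0 F)
    {e : E} (he : Unc F e) (j : Fin k) : rel a b (F j ∩ E0 a b F0) (a e) (b e) := by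
  have hm := reach_mx h0 h
  have hex : ∃ n, ∃ S ⊆ F j, S.card = n ∧ rel a b S (a e) (b e) :=
    ⟨_, F j, Finset.Subset.refl _, rfl, unc_rel hm he j⟩
  obtain ⟨S, hS, hcard, hr⟩ := Nat.find_spec hex
  refine rel_mono ?_ hr
  intro f hf
  rw [Finset.mem_inter]
  refine ⟨hS hf, ?_⟩
  have h1 : ¬ rel a b (S.erase f) (a e) (b e) := by
    intro k
    have := Nat.find_min' hex ⟨S.erase f, (Finset.erase_subset f S).trans hS, rfl, k⟩
    rw [← hcard, Finset.card_erase_of_mem hf] at this
    have : 0 < S.card := Finset.card_pos.mpr ⟨f, hf⟩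
    omega
  have h2 : ¬ rel a b ((F j).erase f) (a e) (b e) := by
    intro k
    have h3 : rel a b (insert e (S.erase f)) (a f) (b f) := by
      apply exchange _ h1
      rw [Finset.insert_erase hf]
      exact hr
    have h4 : rel a b (insert e ((F j).erase f)) (a f) (b f) :=
      rel_mono (Finset.insert_subset_insert e (Finset.erase_subset_erase f hS)) h3
    rw [rel_insert, merge_eq k] at h4
    exact hm.1.2 j f (hS hf) h4
  unfold E0
  rw [Finset.mem_filter]
  exact ⟨Finset.mem_univ _, _, h.tail ⟨e, j, f, he, hS hf, h2, rfl⟩, Step.unc hm he (hS hf)⟩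

lemma claimB {F0 : Fin k → Finset E} (h0 : Mx a b F0) (h : Relation.ReflTransGen (Step a b) F0 F)
    (hs : Step a b F F') (i : Fin k) :
    rel a b (F' i ∩ E0 a b F0) = rel a b (F i ∩ E0 a b F0) := by
  have h' : Relation.ReflTransGen (Step a b) F0 F' := h.tail hs
  have hm := reach_mx h0 h
  obtain ⟨e, j, f, he, hf, hr, rfl⟩ := hs
  by_cases h1 : i = j
  · subst h1
    have hf' := Step.unc hm he hf (j := i)
    apply le_antisymm
    · apply rel_le
      intro g hg
      rw [Finset.mem_inter, Function.update_self, Finset.mem_insert, Finset.mem_erase] at hg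
      rcases hg.1 with k | k
      · rw [k]; exact claimA h0 h he i
      · exact rel_self (Finset.mem_inter.mpr ⟨k.2, hg.2⟩)
    · apply rel_le
      intro g hg
      rw [Finset.mem_inter] at hg
      by_cases hgf : g = f
      · rw [hgf]; exact claimA h0 h' hf' i
      · apply rel_self
        rw [Finset.mem_inter, Function.update_self, Finset.mem_insert, Finset.mem_erase]
        exact ⟨Or.inr ⟨hgf, hg.1⟩, hg.2⟩
  · rw [Function.update_of_ne h1]

lemma claimC {F0 : Fin k → Finset E} (h0 : Mx a b F0) (i : Fin k) :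
    rel a b (F0 i ∩ E0 a b F0) = rel a b (E0 a b F0) := by
  apply le_antisymm (rel_mono Finset.inter_subset_right)
  apply rel_le
  intro e he
  unfold E0 at he
  rw [Finset.mem_filter] at he
  obtain ⟨F, hF, hu⟩ := he.2
  have h1 := claimA h0 hF hu i
  have h2 : rel a b (F i ∩ E0 a b F0) = rel a b (F0 i ∩ E0 a b F0) := by
    clear h1 hu he
    induction hF with
    | refl => rfl
    | tail hab hs ih => rw [claimB h0 hab hs i, ih]
  rw [← h2]
  exact h1

/-- The tree packing theorem (Nash-Williams, Tutte). -/
theorem packing [Nonempty V] (a b : E → V) (k : ℕ)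
    (h : ∀ t : Setoid V, k * (nc t - 1) ≤
      ((Finset.univ : Finset E).filter (fun e => ¬ t (a e) (b e))).card) :
    ∃ F : Fin k → Finset E, (∀ i j, i ≠ j → Disjoint (F i) (F j)) ∧
      ∀ i, Ind a b (F i) ∧ nc (rel a b (F i)) = 1 := by
  -- a maximal tuple
  have hval : Val a b (fun _ : Fin k => (∅ : Finset E)) :=
    ⟨fun _ _ _ => Finset.disjoint_empty_left _, fun _ e he => absurd he (Finset.notMem_empty e)⟩
  obtain ⟨F0, hF0, hmax⟩ := Finset.exists_max_image
    ((Finset.univ : Finset (Fin k → Finset E)).filter (fun F => Val a b F)) tot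
    ⟨_, Finset.mem_filter.mpr ⟨Finset.mem_univ _, hval⟩⟩
  have h0 : Mx a b F0 := ⟨(Finset.mem_filter.mp hF0).2,
    fun F' hF' => hmax F' (Finset.mem_filter.mpr ⟨Finset.mem_univ _, hF'⟩)⟩
  set D := E0 a b F0 with hD
  have hc := h (rel a b D)
  have hpos := nc_pos (rel a b D)
  -- the crossing edges are covered
  have hsub : ((Finset.univ : Finset E).filter (fun e => ¬ rel a b D (a e) (b e))).card ≤
      ∑ i, (F0 i \ D).card := by
    rw [← Finset.card_biUnion]
    · apply Finset.card_le_card
      intro e he
      have heD : e ∉ D := fun k => (Finset.mem_filter.mp he).2 (rel_self k)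
      rw [Finset.mem_biUnion]
      by_contra hcon
      push Not at hcon
      apply heD
      rw [hD]
      unfold E0
      rw [Finset.mem_filter]
      refine ⟨Finset.mem_univ _, F0, Relation.ReflTransGen.refl, fun i hi => ?_⟩
      exact hcon i (Finset.mem_univ _) (Finset.mem_sdiff.mpr ⟨hi, heD⟩)
    · intro i _ j _ hij
      exact ((h0.1.1 i j hij).mono_left Finset.sdiff_subset).mono_right Finset.sdiff_subset
  have hcard : ∀ i, (F0 i).card = (F0 i \ D).card + (Fintype.card V - nc (rel a b D)) := by
    intro i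
    have h1 := ((h0.1.2 i).mono (Finset.inter_subset_left (s₂ := D))).card
    rw [hD, claimC h0 i] at h1
    have h2 := Finset.card_sdiff_add_card_inter (F0 i) D
    rw [hD] at h2 ⊢
    omega
  have hle : ∀ i, (F0 i).card ≤ Fintype.card V - 1 := by
    intro i
    have h1 := (h0.1.2 i).card
    have h2 := nc_pos (rel a b (F0 i))
    omega
  have hncV : nc (rel a b D) ≤ Fintype.card V := by
    unfold nc
    rw [← Nat.card_eq_fintype_card]
    exact Nat.card_le_card_of_surjective (fun v => (⟦v⟧ : Quotient (rel a b D)))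
      (fun q => Quotient.inductionOn q fun v => ⟨v, rfl⟩)
  have hsum : k * (Fintype.card V - 1) ≤ ∑ i, (F0 i).card := by
    have h1 : ∑ i, (F0 i).card = ∑ i, (F0 i \ D).card + k * (Fintype.card V - nc (rel a b D)) := by
      rw [Finset.sum_congr rfl (fun i _ => hcard i), Finset.sum_add_distrib, Finset.sum_const,
        Finset.card_univ, Fintype.card_fin, smul_eq_mul]
    rw [h1]
    have h2 : k * (Fintype.card V - 1) = k * (nc (rel a b D) - 1) +
        k * (Fintype.card V - nc (rel a b D)) := by
      rw [← Nat.mul_add]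
      congr 1
      omega
    rw [h2]
    have := hc.trans hsub
    omega
  refine ⟨F0, h0.1.1, fun i => ⟨h0.1.2 i, ?_⟩⟩
  have hall : (F0 i).card = Fintype.card V - 1 := by
    by_contra hne
    have hlt : (F0 i).card < Fintype.card V - 1 := lt_of_le_of_ne (hle i) hne
    have : ∑ i, (F0 i).card < ∑ _i : Fin k, (Fintype.card V - 1) :=
      Finset.sum_lt_sum (fun j _ => hle j) ⟨i, Finset.mem_univ i, hlt⟩
    rw [Finset.sum_const, Finset.card_univ, Fintype.card_fin, smul_eq_mul] at this
    omega
  have h1 := (h0.1.2 i).card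
  have h2 : 0 < Fintype.card V := Fintype.card_pos
  omega

end

end Pool.Agent.H52.MG.NWT
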