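import Pool.Agent.H52.MG.Basic

/-!
# Orthogonal matrices: helper lemmas
-/

set_option autoImplicit false
set_option linter.unusedSectionVars false

noncomputable section

open Classical Module
open scoped Matrix

namespace Pool.Agent.H52.MG

lemma orth_dot {L : Matrix (Fin 3) (Fin 3) ℝ} (hL : Orth L) (a b : Vec) :
    (L *ᵥ a) ⬝ᵥ (L *ᵥ b) = a ⬝ᵥ b := by
  rw [Matrix.dotProduct_mulVec, Matrix.vecMul_mulVec, ← Matrix.dotProduct_mulVec]
  have : Lᵀ * L = 1 := hL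
  rw [dotProduct_comm]
  simp [this, dotProduct_comm]

/-- two matrices which agree on three independent vectors are equal -/
lemma mat_ext {L L' : Matrix (Fin 3) (Fin 3) ℝ} {a b e : Vec} (hd : a ⬝ᵥ (b ⨯₃ e) ≠ 0)
    (ha : L *ᵥ a = L' *ᵥ a) (hb : L *ᵥ b = L' *ᵥ b) (he : L *ᵥ e = L' *ᵥ e) : L = L' := by
  have key : ∀ v : Vec, L *ᵥ v = L' *ᵥ v := by
    intro v
    have hv : v = (a ⬝ᵥ (b ⨯₃ e))⁻¹ • ((v ⬝ᵥ (b ⨯₃ e)) • a + (v ⬝ᵥ (e ⨯₃ a)) • b +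
        (v ⬝ᵥ (a ⨯₃ b)) • e) := by
      rw [eq_inv_smul_iff₀ hd]
      apply vec_ext <;> simp only [dot3, cross_eq, Pi.add_apply, Pi.smul_apply, smul_eq_mul,
        Matrix.cons_val] <;> ring
    rw [hv, Matrix.mulVec_smul, Matrix.mulVec_add, Matrix.mulVec_add, Matrix.mulVec_smul,
      Matrix.mulVec_smul, Matrix.mulVec_smul, ha, hb, he, Matrix.mulVec_smul, Matrix.mulVec_add,
      Matrix.mulVec_add, Matrix.mulVec_smul, Matrix.mulVec_smul, Matrix.mulVec_smul]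
  ext i j
  have := congrFun (key (Pi.single j 1)) i
  simpa using this

/-- a vector orthogonal to `a` and `b` (not parallel) is a multiple of `a × b` -/
lemma mul_cross {a b v : Vec} (h : a ⨯₃ b ≠ 0) (ha : v ⬝ᵥ a = 0) (hb : v ⬝ᵥ b = 0) :
    ∃ r : ℝ, v = r • (a ⨯₃ b) := by
  apply cross_zero _ _ h
  rw [dot3] at ha hb
  apply vec_ext <;> simp only [cross_eq, Pi.zero_apply, Matrix.cons_val]
  · linear_combination (a 0) * hb - (b 0) * ha
  · linear_combination (a 1) * hb - (b 1) * ha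
  · linear_combination (a 2) * hb - (b 2) * ha

/-- two isometries which agree at three non collinear points and satisfy one more distance
condition for points outside the plane are equal -/
lemma iso_eq {L L' : Matrix (Fin 3) (Fin 3) ℝ} {t t' : Vec} (hL : Orth L) (hL' : Orth L')
    {a b e u w : Vec} (hn : (b - a) ⨯₃ (e - a) ≠ 0) (ha : L *ᵥ a + t = L' *ᵥ a + t')
    (hb : L *ᵥ b + t = L' *ᵥ b + t') (he : L *ᵥ e + t = L' *ᵥ e + t')
    (hd : dsq (L *ᵥ u + t) (L' *ᵥ w + t') = dsq u w)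
    (hu : (u - a) ⬝ᵥ ((b - a) ⨯₃ (e - a)) ≠ 0) (hw : (w - a) ⬝ᵥ ((b - a) ⨯₃ (e - a)) ≠ 0) :
    L = L' ∧ t = t' := by
  set d1 := b - a with hd1
  set d2 := e - a with hd2
  set n := d1 ⨯₃ d2 with hndef
  have e1 : L *ᵥ d1 = L' *ᵥ d1 := by
    rw [hd1, Matrix.mulVec_sub, Matrix.mulVec_sub]
    have : L *ᵥ b - L *ᵥ a = (L *ᵥ b + t) - (L *ᵥ a + t) := by abel
    rw [this, hb, ha]; abel
  have e2 : L *ᵥ d2 = L' *ᵥ d2 := by
    rw [hd2, Matrix.mulVec_sub, Matrix.mulVec_sub]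
    have : L *ᵥ e - L *ᵥ a = (L *ᵥ e + t) - (L *ᵥ a + t) := by abel
    rw [this, he, ha]; abel
  have hn1 : n ⬝ᵥ d1 = 0 := by
    simp only [hndef, dot3, cross_eq, Matrix.cons_val]; ring
  have hn2 : n ⬝ᵥ d2 = 0 := by
    simp only [hndef, dot3, cross_eq, Matrix.cons_val]; ring
  -- the image plane
  have hc : (L *ᵥ d1) ⨯₃ (L *ᵥ d2) ≠ 0 := by
    intro h0
    have h1 : ((L *ᵥ d1) ⨯₃ (L *ᵥ d2)) ⬝ᵥ ((L *ᵥ d1) ⨯₃ (L *ᵥ d2)) = n ⬝ᵥ n := by
      have lag : ∀ x y : Vec, (x ⨯₃ y) ⬝ᵥ (x ⨯₃ y) = (x ⬝ᵥ x) * (y ⬝ᵥ y) - (x ⬝ᵥ y) ^ 2 := by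
        intro x y
        simp only [dot3, cross_eq, Matrix.cons_val]; ring
      rw [lag, orth_dot hL, orth_dot hL, orth_dot hL, hndef, lag]
    rw [h0, zero_dotProduct] at h1
    exact hn (dotProduct_self_eq_zero.mp h1.symm)
  obtain ⟨r, hr⟩ := mul_cross hc (v := L *ᵥ n) (by rw [orth_dot hL, hn1]) (by rw [orth_dot hL, hn2])
  obtain ⟨r', hr'⟩ := mul_cross hc (v := L' *ᵥ n) (by rw [e1, orth_dot hL', hn1])
    (by rw [e2, orth_dot hL', hn2])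
  have hnn : n ⬝ᵥ n ≠ 0 := fun h => hn (dotProduct_self_eq_zero.mp h)
  set m := (L *ᵥ d1) ⨯₃ (L *ᵥ d2) with hm
  have q1 : r ^ 2 * (m ⬝ᵥ m) = n ⬝ᵥ n := by
    rw [← orth_dot hL n n, hr, dotProduct_smul, smul_dotProduct, smul_eq_mul, smul_eq_mul]; ring
  have q2 : r' ^ 2 * (m ⬝ᵥ m) = n ⬝ᵥ n := by
    rw [← orth_dot hL' n n, hr', dotProduct_smul, smul_dotProduct, smul_eq_mul, smul_eq_mul]; ring
  have hmm : m ⬝ᵥ m ≠ 0 := fun h => hc (dotProduct_self_eq_zero.mp h)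
  have hr2 : r' = r ∨ r' = -r := by
    have : r' ^ 2 = r ^ 2 := by
      have := q1.trans q2.symm
      exact (mul_right_cancel₀ hmm this).symm
    exact sq_eq_sq_iff_eq_or_eq_neg.mp this
  have hdet : n ⬝ᵥ (d1 ⨯₃ d2) ≠ 0 := hnn
  have fin : L = L' → L = L' ∧ t = t' := by
    intro h
    refine ⟨h, ?_⟩
    rw [h] at ha
    exact add_left_cancel ha
  rcases hr2 with h | h
  · apply fin
    exact mat_ext hdet (by rw [hr, hr', h]) e1 e2
  · exfalso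
    have hneg : L' *ᵥ n = - (L *ᵥ n) := by rw [hr, hr', h, neg_smul]
    -- decomposition of w - a
    set u0 := u - a with hu0
    set w0 := w - a with hw0
    have hdec : L' *ᵥ w0 = L *ᵥ w0 - (2 * (w0 ⬝ᵥ n) / (n ⬝ᵥ n)) • (L *ᵥ n) := by
      have hv : (n ⬝ᵥ n) • w0 = (w0 ⬝ᵥ n) • n + (w0 ⬝ᵥ (d2 ⨯₃ n)) • d1 +
          (w0 ⬝ᵥ (n ⨯₃ d1)) • d2 := by
        rw [hndef]
        apply vec_ext <;> simp only [dot3, cross_eq, Pi.add_apply, Pi.smul_apply, smul_eq_mul,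
          Matrix.cons_val] <;> ring
      have h1 : (n ⬝ᵥ n) • (L' *ᵥ w0) = (n ⬝ᵥ n) • (L *ᵥ w0) - (2 * (w0 ⬝ᵥ n)) • (L *ᵥ n) := by
        rw [← Matrix.mulVec_smul, ← Matrix.mulVec_smul, hv]
        simp only [Matrix.mulVec_add, Matrix.mulVec_smul, hneg, ← e1, ← e2]
        rw [smul_neg, mul_smul, two_smul]
        abel
      have h2 := congrArg (fun v => (n ⬝ᵥ n)⁻¹ • v) h1
      simp only [smul_sub, smul_smul, inv_mul_cancel₀ hnn, one_smul] at h2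
      rw [h2]
      congr 2
      field_simp
    have hdiff : (L *ᵥ u + t) - (L' *ᵥ w + t') = L *ᵥ u0 - L' *ᵥ w0 := by
      rw [hu0, hw0, Matrix.mulVec_sub, Matrix.mulVec_sub]
      have : (L *ᵥ u + t) - (L' *ᵥ w + t') = (L *ᵥ u - L *ᵥ a) - (L' *ᵥ w - L' *ᵥ a) +
        ((L *ᵥ a + t) - (L' *ᵥ a + t')) := by abel
      rw [this, ha]; abel
    have hprod : (L *ᵥ u0) ⬝ᵥ (L' *ᵥ w0) = u0 ⬝ᵥ w0 := by
      unfold dsq at hd
      rw [hdiff] at hd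
      have h1 : u - w = u0 - w0 := by rw [hu0, hw0]; abel
      rw [h1] at hd
      have ex : ∀ x y : Vec, (x - y) ⬝ᵥ (x - y) = x ⬝ᵥ x + y ⬝ᵥ y - 2 * (x ⬝ᵥ y) := by
        intro x y; simp only [dot3, Pi.sub_apply]; ring
      rw [ex, ex, orth_dot hL, orth_dot hL'] at hd
      linarith
    rw [hdec, dotProduct_sub, dotProduct_smul, orth_dot hL, orth_dot hL, smul_eq_mul] at hprod
    have : 2 * (w0 ⬝ᵥ n) / (n ⬝ᵥ n) * (u0 ⬝ᵥ n) = 0 := by linarith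
    rcases mul_eq_zero.mp this with h | h
    · rw [div_eq_zero_iff] at h
      rcases h with h | h
      · exact hw (by linarith)
      · exact hnn h
    · exact hu h

end Pool.Agent.H52.MG
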