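import Pool.Agent.H52.MG.Basic
import Pool.Agent.H52.MG.Targets

/-!
# THB: the sufficiency theorem, assembly
-/

set_option autoImplicit false
set_option linter.unusedSectionVars false

noncomputable section

open Classical Module
open scoped Matrix

namespace Pool.Agent.H52.MG

section
variable {V : Type} [Fintype V]

lemma mrg_eq_iff {c : V → V} {a b : V} (z v : V) :
    mrg c a b z = mrg c a b v ↔
      (c z = c v ∨ ((c z = c a ∨ c z = c b) ∧ (c v = c a ∨ c v = c b))) := by
  unfold mrg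
  split_ifs with h1 h2 h2 <;> grind

lemma mrg_coarse {c : V → V} {a b : V} : Coarse c (mrg c a b) := by
  intro u w h
  rw [mrg_eq_iff]; left; exact h

lemma pt_mrg_lt {c : V → V} {a b : V} (h : c a ≠ c b) : pt (mrg c a b) < pt c := by
  unfold pt
  apply Finset.card_lt_card
  rw [Finset.ssubset_iff_of_subset]
  · refine ⟨c b, Finset.mem_image_of_mem _ (Finset.mem_univ _), ?_⟩
    intro hb
    obtain ⟨v, -, hv⟩ := Finset.mem_image.mp hb
    unfold mrg at hv
    by_cases h1 : c v = c b
    · rw [if_pos h1] at hv; exact h hv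
    · rw [if_neg h1] at hv; exact h1 hv
  · intro x hx
    obtain ⟨v, -, hv⟩ := Finset.mem_image.mp hx
    unfold mrg at hv
    by_cases h1 : c v = c b
    · rw [if_pos h1] at hv; rw [← hv]; exact Finset.mem_image_of_mem _ (Finset.mem_univ _)
    · rw [if_neg h1] at hv; rw [← hv]; exact Finset.mem_image_of_mem _ (Finset.mem_univ _)

lemma cr2_mono {G : SimpleGraph V} {c c' : V → V} (h : Coarse c c') : cr2 G c' ≤ cr2 G c := by
  unfold cr2
  apply Finset.card_le_card
  intro x hx
  simp only [Finset.mem_filter, Finset.mem_univ, true_and] at hx ⊢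
  exact ⟨hx.1, fun e => hx.2 (h _ _ e)⟩

lemma Tt_coarse {G : SimpleGraph V} {c c' : V → V} (h : Coarse c c') (hT : Tt G c) : Tt G c' :=
  fun d hd h2 => hT d (fun u w e => hd u w (h u w e)) h2

lemma Cp_coarse {G : SimpleGraph V} {c c' : V → V} (h : Coarse c c') (hT : Cp G c) : Cp G c' :=
  fun Z hZ => hT Z (fun u w e hu => hZ u w (h u w e) hu)

lemma Eqv_mrg {G : SimpleGraph V} {c : V → V} {p q : V → Vec} {a b : V}
    (hq : Eqv (HP G c) p q) (hab : Cgr (Bd G c a ∪ Bd G c b) p q) :
    Eqv (HP G (mrg c a b)) p q := by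
  rintro u w ⟨huw, v, hu, hw⟩
  have key : ∀ z, z ∈ Bd G (mrg c a b) v → (z ∈ Bd G c v) ∨
      ((c v = c a ∨ c v = c b) ∧ z ∈ Bd G c a ∪ Bd G c b) := by
    intro z hz
    have h1 : ∀ y, mrg c a b y = mrg c a b v → c y = c v ∨
        ((c v = c a ∨ c v = c b) ∧ (c y = c a ∨ c y = c b)) := by
      intro y hy
      rcases (mrg_eq_iff y v).mp hy with h | h
      · exact Or.inl h
      · exact Or.inr ⟨h.2, h.1⟩
    rcases hz with hz | ⟨y, hy, hz⟩
    · rcases h1 z hz with h | ⟨h, h2⟩
      · exact Or.inl (Or.inl h)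
      · refine Or.inr ⟨h, ?_⟩
        rcases h2 with h2 | h2
        · exact Or.inl (Or.inl h2)
        · exact Or.inr (Or.inl h2)
    · rcases h1 y hz with h | ⟨h, h2⟩
      · exact Or.inl (Or.inr ⟨y, hy, h⟩)
      · refine Or.inr ⟨h, ?_⟩
        rcases h2 with h2 | h2
        · exact Or.inl (Or.inr ⟨y, hy, h2⟩)
        · exact Or.inr (Or.inr ⟨y, hy, h2⟩)
  by_cases hv : c v = c a ∨ c v = c b
  · have hsub : ∀ z, z ∈ Bd G (mrg c a b) v → z ∈ Bd G c a ∪ Bd G c b := by
      intro z hz
      rcases key z hz with h | h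
      · rcases hv with hv | hv
        · rw [Bd_congr hv] at h; exact Or.inl h
        · rw [Bd_congr hv] at h; exact Or.inr h
      · exact h.2
    exact hab u (hsub u hu) w (hsub w hw)
  · have h1 : u ∈ Bd G c v := (key u hu).resolve_right (fun h => hv h.1)
    have h2 : w ∈ Bd G c v := (key w hw).resolve_right (fun h => hv h.1)
    exact hq u w ⟨huw, v, h1, h2⟩

lemma cr2_delE {G : SimpleGraph V} {x y : V} (h : G.Adj x y) {L : Type} (d : V → L) :
    cr2 (delE G x y) d + (if d x ≠ d y then 2 else 0) = cr2 G d := by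
  unfold cr2
  by_cases hd : d x = d y
  · rw [if_neg (by simpa using hd), add_zero]
    congr 1
    ext z
    simp only [Finset.mem_filter, Finset.mem_univ, true_and, delE]
    constructor
    · rintro ⟨h1, h2⟩; exact ⟨h1.1, h2⟩
    · rintro ⟨h1, h2⟩
      refine ⟨⟨h1, ?_, ?_⟩, h2⟩
      · rintro ⟨e1, e2⟩; rw [e1, e2] at h2; exact h2 hd
      · rintro ⟨e1, e2⟩; rw [e1, e2] at h2; exact h2 hd.symm
  · rw [if_pos hd]
    have hxy : x ≠ y := h.ne
    have e : ((Finset.univ : Finset (V × V)).filter (fun z => G.Adj z.1 z.2 ∧ d z.1 ≠ d z.2)) =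
        insert (x, y) (insert (y, x) ((Finset.univ : Finset (V × V)).filter
          (fun z => (delE G x y).Adj z.1 z.2 ∧ d z.1 ≠ d z.2))) := by
      ext z
      simp only [Finset.mem_filter, Finset.mem_univ, true_and, delE, Finset.mem_insert]
      constructor
      · rintro ⟨h1, h2⟩
        by_cases e1 : z = (x, y)
        · exact Or.inl e1
        · by_cases e2 : z = (y, x)
          · exact Or.inr (Or.inl e2)
          · refine Or.inr (Or.inr ⟨⟨h1, ?_, ?_⟩, h2⟩)
            · rintro ⟨k1, k2⟩; exact e1 (Prod.ext k1 k2)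
            · rintro ⟨k1, k2⟩; exact e2 (Prod.ext k1 k2)
      · rintro (k | k | ⟨h1, h2⟩)
        · rw [k]; exact ⟨h, hd⟩
        · rw [k]; exact ⟨h.symm, fun k => hd k.symm⟩
        · exact ⟨h1.1, h2⟩
    rw [e, Finset.card_insert_of_notMem, Finset.card_insert_of_notMem]
    · simp [delE]
    · simp only [Finset.mem_insert, Finset.mem_filter, Finset.mem_univ, true_and, delE]
      rintro (k | k)
      · exact hxy (congrArg Prod.fst k)
      · exact k.1.2.1 (by simp)

lemma s2_delE {G : SimpleGraph V} {x y : V} (h : G.Adj x y) {L : Type} (d : V → L) :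
    s2 (delE G x y) d = s2 G d - (if d x ≠ d y then 10 else 0) := by
  have := cr2_delE h d
  unfold s2
  rw [← this]
  by_cases hd : d x = d y
  · simp [hd]
  · simp only [ne_eq, hd, not_false_eq_true, if_true]; push_cast; ring

lemma HP_mono {G G' : SimpleGraph V} {c : V → V} (h : G' ≤ G) : HP G' c ≤ HP G c := by
  rintro u w ⟨huw, v, hu, hw⟩
  have key : ∀ z, z ∈ Bd G' c v → z ∈ Bd G c v := by
    rintro z (hz | ⟨y, hy, hz⟩)
    · exact Or.inl hz
    · exact Or.inr ⟨y, h hy, hz⟩
  exact ⟨huw, v, key u hu, key w hw⟩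

lemma delE_le (G : SimpleGraph V) (x y : V) : delE G x y ≤ G := fun _ _ h => h.1

lemma Cp_delE {G : SimpleGraph V} {c : V → V} {x y : V} (hC : Cp G c)
    (h4 : ∀ Z : Set V, ClU c Z → x ∈ Z → y ∉ Z → 4 ≤ ((Finset.univ : Finset (V × V)).filter
      (fun z => z.1 ∈ Z ∧ z.2 ∉ Z ∧ G.Adj z.1 z.2)).card)
    (h4' : ∀ Z : Set V, ClU c Z → y ∈ Z → x ∉ Z → 4 ≤ ((Finset.univ : Finset (V × V)).filter
      (fun z => z.1 ∈ Z ∧ z.2 ∉ Z ∧ G.Adj z.1 z.2)).card) :
    Cp (delE G x y) c := by
  intro Z hZ a u w ha hu hw huw hau haw hall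
  have small : ∀ x' y', (∀ z1 z2, z1 ∈ Z → z2 ∉ Z → G.Adj z1 z2 →
      (z1 = x' ∧ z2 = y') ∨ (delE G x y).Adj z1 z2) →
      ((Finset.univ : Finset (V × V)).filter
      (fun z => z.1 ∈ Z ∧ z.2 ∉ Z ∧ G.Adj z.1 z.2)).card ≤ 3 := by
    intro x' y' hz
    have : ((Finset.univ : Finset (V × V)).filter
      (fun z => z.1 ∈ Z ∧ z.2 ∉ Z ∧ G.Adj z.1 z.2)) ⊆ {(x', y'), (a, u), (a, w)} := by
      intro z hz'
      simp only [Finset.mem_filter, Finset.mem_univ, true_and] at hz'
      simp only [Finset.mem_insert, Finset.mem_singleton]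
      rcases hz z.1 z.2 hz'.1 hz'.2.1 hz'.2.2 with h | h
      · exact Or.inl (Prod.ext h.1 h.2)
      · rcases hall z.1 z.2 hz'.1 hz'.2.1 h with ⟨h1, h2 | h2⟩
        · exact Or.inr (Or.inl (Prod.ext h1 h2))
        · exact Or.inr (Or.inr (Prod.ext h1 h2))
    exact (Finset.card_le_card this).trans Finset.card_le_three
  by_cases hx : x ∈ Z
  · by_cases hy : y ∈ Z
    · refine hC Z hZ a u w ha hu hw huw hau.1 haw.1 fun z1 z2 h1 h2 h3 => ?_
      refine hall z1 z2 h1 h2 ⟨h3, ?_, ?_⟩
      · rintro ⟨e1, e2⟩; rw [e2] at h2; exact h2 hy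
      · rintro ⟨e1, e2⟩; rw [e2] at h2; exact h2 hx
    · exfalso
      have h1 := h4 Z hZ hx hy
      have h2 := small x y (fun z1 z2 k1 k2 k3 => by
        by_cases e : z1 = x ∧ z2 = y
        · exact Or.inl e
        · refine Or.inr ⟨k3, e, ?_⟩
          rintro ⟨e1, e2⟩; rw [e1] at k1; exact hy k1)
      omega
  · by_cases hy : y ∈ Z
    · exfalso
      have h1 := h4' Z hZ hy hx
      have h2 := small y x (fun z1 z2 k1 k2 k3 => by
        by_cases e : z1 = y ∧ z2 = x
        · exact Or.inl e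
        · refine Or.inr ⟨k3, ?_, e⟩
          rintro ⟨e1, e2⟩; rw [e1] at k1; exact hx k1)
      omega
    · refine hC Z hZ a u w ha hu hw huw hau.1 haw.1 fun z1 z2 h1 h2 h3 => ?_
      refine hall z1 z2 h1 h2 ⟨h3, ?_, ?_⟩
      · rintro ⟨e1, e2⟩; rw [e1] at h1; exact hx h1
      · rintro ⟨e1, e2⟩; rw [e1] at h1; exact hy h1

lemma Cgr_of_pt_le_one {G : SimpleGraph V} {c : V → V} {p q : V → Vec} (h : pt c ≤ 1)
    (hq : Eqv (HP G c) p q) : Cgr Set.univ p q := by
  intro u _ w _
  have huw : c w = c u := by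
    have h1 : c w ∈ Finset.univ.image c := Finset.mem_image_of_mem _ (Finset.mem_univ _)
    have h2 : c u ∈ Finset.univ.image c := Finset.mem_image_of_mem _ (Finset.mem_univ _)
    exact Finset.card_le_one.mp h _ h1 _ h2
  exact Cgr_Bd hq u u (mem_Bd_self _ _ _) w (Or.inl huw)

end

theorem thb (hI : T_INST) (hALD : T_ALD) (hAL0 : T_AL0) (hAL : T_AL) (hS4 : T_S4)
    (hS3 : T_S3) (hS5 : T_S5) (hS6 : T_S6) : T_THB := by
  have main : ∀ (N : ℕ) (V : Type) [Fintype V] (G : SimpleGraph V) (c : V → V) (p q : V → Vec),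
      pt c + cr2 G c = N → Tt G c → Cp G c → Gen p → Eqv (HP G c) p q → Cgr Set.univ p q := by
    intro N
    induction N using Nat.strong_induction_on with
    | _ N ih =>
      intro V _ G c p q hN hT hC hp hq
      rcases Nat.lt_or_ge 1 (pt c) with h1 | h1
      · have merge : Mrg G c p q → Cgr Set.univ p q := by
          rintro ⟨a, b, hab, hc⟩
          have h1 := pt_mrg_lt hab
          have h2 := cr2_mono (G := G) (mrg_coarse (c := c) (a := a) (b := b))
          exact ih (pt (mrg c a b) + cr2 G (mrg c a b)) (by omega) V G (mrg c a b) p q rfl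
            (Tt_coarse mrg_coarse hT) (Cp_coarse mrg_coarse hC) hp (Eqv_mrg hq hc)
        rcases hI V G c hT h1 with h | h | h | h | h | h
        · obtain ⟨x, y, hxy, hc, hx, hy⟩ := h
          apply merge
          rcases hALD V G c x y hT hxy hc hx hy with h | h
          · obtain ⟨x, y, x', y', e1, e2, e3, e4, e5, e6, e7, e8⟩ := h
            exact hAL0 V G c p q x y x' y' hp hC hq e1 e2 e3 e4 e5 e6 e7 e8
          · obtain ⟨s, x, x', y, y', t, h⟩ := h
            exact hAL V G c p q s x x' y y' t hp hT hC hq h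
        · obtain ⟨x, h1, h2, h3⟩ := h
          exact merge (hS4 V G c p q x hp hT hC hq h1 h2 h3)
        · obtain ⟨x, h1, h2, h3, h4⟩ := h
          exact merge (hS3 V G c p q x hp hT hq h1 h2 h3 h4)
        · obtain ⟨x, y, hxy, hc, h2, h3⟩ := h
          have hcut : ∀ Z : Set V, ClU c Z → y ∈ Z → x ∉ Z →
              4 ≤ ((Finset.univ : Finset (V × V)).filter
                (fun z => z.1 ∈ Z ∧ z.2 ∉ Z ∧ G.Adj z.1 z.2)).card := by
            intro Z hZ hy hx
            obtain ⟨W, hW⟩ : ∃ W : Set V, ∀ v, v ∈ W ↔ v ∉ Z := ⟨Zᶜ, fun v => Iff.rfl⟩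
            have h4 := h3 W (fun u w e hu => (hW w).mpr (fun hw => (hW u).mp hu
              (hZ w u e.symm hw))) ((hW x).mpr hx) (fun k => (hW y).mp k hy)
            refine h4.trans (le_of_eq ?_)
            refine Finset.card_bij' (fun z _ => (z.2, z.1)) (fun z _ => (z.2, z.1))
              ?_ ?_ (fun z _ => rfl) (fun z _ => rfl)
            · intro z hz
              rw [Finset.mem_filter] at hz ⊢
              refine ⟨Finset.mem_univ _, ?_, (hW _).mp hz.2.1, hz.2.2.2.symm⟩
              have := hz.2.2.1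
              rw [hW] at this
              exact not_not.mp this
            · intro z hz
              rw [Finset.mem_filter] at hz ⊢
              refine ⟨Finset.mem_univ _, (hW _).mpr hz.2.2.1, ?_, hz.2.2.2.symm⟩
              rw [hW]
              exact not_not.mpr hz.2.1
          have hd := cr2_delE hxy c
          rw [if_pos hc] at hd
          refine ih (pt c + cr2 (delE G x y) c) (by omega) V (delE G x y) c p q rfl ?_
            (Cp_delE hC h3 hcut) hp (fun u w h => hq u w (HP_mono (delE_le G x y) h))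
          intro d hd hd2
          rw [s2_delE hxy]
          by_cases e : d x = d y
          · simp only [e, ne_eq, not_true_eq_false, if_false, sub_zero]
            exact hT d hd hd2
          · rw [if_pos e]
            have := h2 d hd e
            omega
        · obtain ⟨x₀, x₁, h1, h2, h3, h4, h5, h6, h7⟩ := h
          exact merge (hS5 V G c p q x₀ x₁ hp hT hq h1 h2 h3 h4 h5 h6 h7)
        · obtain ⟨x₀, x₁, h1, h2, h3, h4, h5⟩ := h
          exact merge (hS6 V G c p q x₀ x₁ hp hT hq h1 h2 h3 h4 h5)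
      · exact Cgr_of_pt_le_one h1 hq
  intro V _ G c p hT hC hp q hq
  exact main _ V G c p q rfl hT hC hp hq

end Pool.Agent.H52.MG
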