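import Pool.Agent.H52.MG.NWT
import Pool.Agent.H52.MG.Clean

/-!
# Spanning trees in the multigraph `5 G` and the partition condition
-/

set_option autoImplicit false
set_option linter.unusedSectionVars false

noncomputable section

open Classical

namespace Pool.Agent.H52.MG.Clean

/-- The edges of the multigraph `m G`: every edge `e` of `G` has the `m` parallel copies
`(e, 0), ..., (e, m - 1)`. -/
def multiple {V : Type} (m : ℕ) (G : SimpleGraph V) : Set (Sym2 V × Fin m) :=
  {x | x.1 ∈ G.edgeSet}

/-- `T` is the edge set of a spanning tree of the vertex set `V`: it contains at most one of the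
parallel copies of each edge, and the underlying graph is a tree. -/
def IsSpanningTree {V : Type} {m : ℕ} (T : Set (Sym2 V × Fin m)) : Prop :=
  Set.InjOn Prod.fst T ∧ (SimpleGraph.fromEdgeSet (Prod.fst '' T)).IsTree

/-- The multigraph with edge set `E` contains `k` edge-disjoint spanning trees. -/
def IsTreeConnected {V : Type} {m : ℕ} (k : ℕ) (E : Set (Sym2 V × Fin m)) : Prop :=
  ∃ T : Fin k → Set (Sym2 V × Fin m), (∀ i, T i ⊆ E ∧ IsSpanningTree (T i)) ∧
    ∀ i j, i ≠ j → Disjoint (T i) (T j)

/-- After the deletion of any edge the multigraph still contains `k` edge-disjoint spanning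
trees. -/
def IsHighlyTreeConnected {V : Type} {m : ℕ} (k : ℕ) (E : Set (Sym2 V × Fin m)) : Prop :=
  ∀ e ∈ E, IsTreeConnected k (E \ {e})

/-! ### crossing edges -/

/-- the edge joins two classes -/
def Cross {V : Type} (r : Setoid V) (e : Sym2 V) : Prop := ∃ u w, e = s(u, w) ∧ ¬ r u w

lemma cross_mk {V : Type} (r : Setoid V) (u w : V) : Cross r s(u, w) ↔ ¬ r u w := by
  constructor
  · rintro ⟨u', w', he, hr⟩ k
    rcases Sym2.eq_iff.mp he with ⟨e1, e2⟩ | ⟨e1, e2⟩
    · rw [e1, e2] at k; exact hr k
    · rw [e1, e2] at k; exact hr (r.symm k)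
  · intro h; exact ⟨u, w, rfl, h⟩

/-- first end -/
def fs {V : Type} (e : Sym2 V) : V := (Quot.out e).1
/-- second end -/
def sn {V : Type} (e : Sym2 V) : V := (Quot.out e).2

lemma fs_sn {V : Type} (e : Sym2 V) : e = s(fs e, sn e) := (Quot.out_eq e).symm

lemma cross_iff {V : Type} (r : Setoid V) (e : Sym2 V) : Cross r e ↔ ¬ r (fs e) (sn e) := by
  conv_lhs => rw [fs_sn e]
  exact cross_mk r _ _

section
variable {V : Type} [Fintype V]

lemma merges (t : Setoid V) (C : Finset (Sym2 V)) : ∃ s : Setoid V, t ≤ s ∧
    (∀ e ∈ C, s (fs e) (sn e)) ∧ NWT.nc t ≤ NWT.nc s + C.card := by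
  induction C using Finset.induction_on with
  | empty => exact ⟨t, le_rfl, fun e he => absurd he (Finset.notMem_empty e), by simp⟩
  | insert e C he ih =>
    obtain ⟨s, h1, h2, h3⟩ := ih
    refine ⟨NWT.merge s (fs e) (sn e), h1.trans (NWT.le_merge s _ _), ?_, ?_⟩
    · intro f hf
      rcases Finset.mem_insert.mp hf with k | k
      · rw [k]; exact NWT.merge_self _ _ _
      · exact NWT.le_merge _ _ _ (h2 f k)
    · rw [Finset.card_insert_of_notMem he]
      by_cases hs : s (fs e) (sn e)
      · rw [NWT.merge_eq hs]; omega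
      · have := NWT.nc_merge hs
        omega

lemma conn_cross (H : SimpleGraph V) (hH : H.Connected) (t : Setoid V) :
    NWT.nc t ≤ {e ∈ H.edgeSet | Cross t e}.ncard + 1 := by
  obtain ⟨s, h1, h2, h3⟩ := merges t ({e ∈ H.edgeSet | Cross t e} : Set (Sym2 V)).toFinset
  rw [← Set.ncard_eq_toFinset_card'] at h3
  have hadj : ∀ u w, H.Adj u w → s u w := by
    intro u w huw
    by_cases htr : t u w
    · exact h1 htr
    · have hmem : s(u, w) ∈ ({e ∈ H.edgeSet | Cross t e} : Set (Sym2 V)).toFinset := by
        rw [Set.mem_toFinset]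
        exact ⟨huw, (cross_mk t u w).mpr htr⟩
      have h4 := h2 _ hmem
      rcases Sym2.eq_iff.mp (fs_sn s(u, w)) with ⟨e1, e2⟩ | ⟨e1, e2⟩
      · rw [← e1, ← e2] at h4; exact h4
      · rw [← e1, ← e2] at h4; exact s.symm h4
  have hall : ∀ u w, s u w := by
    intro u w
    obtain ⟨p⟩ := hH.preconnected u w
    induction p with
    | nil => exact s.refl _
    | cons h _ ih => exact s.trans (hadj _ _ h) ih
  have hnc : NWT.nc s ≤ 1 := by
    unfold NWT.nc
    have : Subsingleton (Quotient s) := by
      constructor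
      intro x y
      induction x using Quotient.inductionOn with
      | _ u =>
        induction y using Quotient.inductionOn with
        | _ w => exact Quotient.sound (hall u w)
    exact Finite.card_le_one_iff_subsingleton.mpr this
  omega

/-- The tree packing theorem for sets of parallel edges. -/
theorem tree_iff [Nonempty V] {m : ℕ} (k : ℕ) (E : Set (Sym2 V × Fin m)) :
    IsTreeConnected k E ↔ ∀ t : Setoid V, k * (NWT.nc t - 1) ≤ {x ∈ E | Cross t x.1}.ncard := by
  constructor
  · rintro ⟨T, hT, hd⟩ t
    have h1 : ∀ i, NWT.nc t - 1 ≤ {x ∈ T i | Cross t x.1}.ncard := by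
      intro i
      have h2 := conn_cross _ (hT i).2.2.connected t
      have h3 : {e ∈ (SimpleGraph.fromEdgeSet (Prod.fst '' T i)).edgeSet | Cross t e} ⊆
          Prod.fst '' {x ∈ T i | Cross t x.1} := by
        rintro e ⟨he, hc⟩
        rw [SimpleGraph.edgeSet_fromEdgeSet] at he
        obtain ⟨x, hx, rfl⟩ := he.1
        exact ⟨x, ⟨hx, hc⟩, rfl⟩
      have h4 := (Set.ncard_le_ncard h3 (Set.toFinite _)).trans (Set.ncard_image_le (Set.toFinite _))
      omega
    have h2 : ∑ i, {x ∈ T i | Cross t x.1}.ncard ≤ {x ∈ E | Cross t x.1}.ncard := by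
      have h3 : ∀ i, {x ∈ T i | Cross t x.1}.ncard = ({x ∈ T i | Cross t x.1}).toFinset.card :=
        fun i => Set.ncard_eq_toFinset_card' _
      rw [Finset.sum_congr rfl (fun i _ => h3 i), ← Finset.card_biUnion,
        Set.ncard_eq_toFinset_card']
      · apply Finset.card_le_card
        intro x hx
        rw [Finset.mem_biUnion] at hx
        obtain ⟨i, _, hi⟩ := hx
        rw [Set.mem_toFinset] at hi ⊢
        exact ⟨(hT i).1 hi.1, hi.2⟩
      · intro i _ j _ hij
        rw [Function.onFun, Set.disjoint_toFinset]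
        exact (hd i j hij).mono (fun x hx => hx.1) (fun x hx => hx.1)
    have h3 : k * (NWT.nc t - 1) = ∑ _i : Fin k, (NWT.nc t - 1) := by
      rw [Finset.sum_const, Finset.card_univ, Fintype.card_fin, smul_eq_mul]
    rw [h3]
    exact (Finset.sum_le_sum fun i _ => h1 i).trans h2
  · intro h
    let a : E → V := fun e => fs e.1.1
    let b : E → V := fun e => sn e.1.1
    have hcr : ∀ (t : Setoid V), {x ∈ E | Cross t x.1}.ncard =
        ((Finset.univ : Finset E).filter (fun e => ¬ t (a e) (b e))).card := by
      intro t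
      rw [← Set.ncard_coe_finset, ← Set.ncard_image_of_injective _ Subtype.val_injective]
      congr 1
      ext x
      simp only [Finset.coe_filter, Finset.mem_univ, true_and, Set.mem_image, Subtype.exists]
      constructor
      · rintro ⟨hx, hc⟩
        exact ⟨x, hx, (cross_iff t x.1).mp hc, rfl⟩
      · rintro ⟨y, hy, hc, rfl⟩
        exact ⟨hy, (cross_iff t y.1).mpr hc⟩
    obtain ⟨F, hF, hFi⟩ := NWT.packing a b k (fun t => by rw [← hcr t]; exact h t)
    refine ⟨fun i => Subtype.val '' (F i : Set E), fun i => ⟨?_, ?_, ?_⟩, ?_⟩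
    · rintro x ⟨y, _, rfl⟩; exact y.2
    · rintro _ ⟨x, hx, rfl⟩ _ ⟨y, hy, rfl⟩ hxy
      have h1 : a x = a y := congrArg fs hxy
      have h2 : b x = b y := congrArg sn hxy
      rw [(hFi i).1.parallel hx hy h1 h2]
    · have hinj : Set.InjOn (fun e : E => e.1.1) (F i : Set E) := by
        intro x hx y hy hxy
        have h1 : a x = a y := congrArg fs hxy
        have h2 : b x = b y := congrArg sn hxy
        exact (hFi i).1.parallel hx hy h1 h2
      have hnd : ∀ x ∈ F i, a x ≠ b x := fun x hx => (hFi i).1.loop hx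
      have himg : (Prod.fst '' (Subtype.val '' (F i : Set E))) =
          (fun e : E => e.1.1) '' (F i : Set E) := by
        rw [Set.image_image]
      rw [himg, SimpleGraph.isTree_iff_connected_and_card]
      have hadj : ∀ x ∈ F i, (SimpleGraph.fromEdgeSet ((fun e : E => e.1.1) '' (F i : Set E))).Adj
          (a x) (b x) := by
        intro x hx
        rw [SimpleGraph.fromEdgeSet_adj]
        exact ⟨⟨x, hx, fs_sn x.1.1⟩, hnd x hx⟩
      constructor
      · rw [SimpleGraph.connected_iff]
        refine ⟨?_, inferInstance⟩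
        intro u w
        have h1 : NWT.rel a b (F i) ≤
            (SimpleGraph.fromEdgeSet ((fun e : E => e.1.1) '' (F i : Set E))).reachableSetoid :=
          NWT.rel_le fun e he => (hadj e he).reachable
        apply h1
        have h2 := (hFi i).2
        unfold NWT.nc at h2
        have h3 : Subsingleton (Quotient (NWT.rel a b (F i))) := 
          Finite.card_le_one_iff_subsingleton.mp h2.le
        exact Quotient.exact (Subsingleton.elim (⟦u⟧ : Quotient (NWT.rel a b (F i))) ⟦w⟧)
      · have h1 := (hFi i).1.card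
        rw [(hFi i).2] at h1
        rw [Nat.card_eq_fintype_card (α := V), ← h1]
        congr 1
        rw [SimpleGraph.edgeSet_fromEdgeSet]
        have h2 : ((fun e : E => e.1.1) '' (F i : Set E)) \ Sym2.diagSet =
            (fun e : E => e.1.1) '' (F i : Set E) := by
          rw [sdiff_eq_left, Set.disjoint_left]
          rintro _ ⟨x, hx, rfl⟩ hdiag
          apply hnd x hx
          simp only at hdiag
          rw [fs_sn x.1.1] at hdiag
          simpa using hdiag
        rw [h2, Nat.card_coe_set_eq, Set.InjOn.ncard_image hinj, Set.ncard_coe_finset]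
    · intro i j hij
      rw [Set.disjoint_left]
      rintro _ ⟨x, hx, rfl⟩ ⟨y, hy, hxy⟩
      have : y = x := Subtype.ext hxy
      subst this
      exact Finset.disjoint_left.mp (hF i j hij) hx hy

/-! ### the multigraph `5 G` -/

lemma ncard_multiple (m : ℕ) (G : SimpleGraph V) (t : Setoid V) :
    {x ∈ multiple m G | Cross t x.1}.ncard = m * numCrossing G t := by
  have h1 : {x ∈ multiple m G | Cross t x.1} =
      {e ∈ G.edgeSet | Cross t e} ×ˢ (Set.univ : Set (Fin m)) := by
    ext ⟨e, j⟩
    simp only [multiple, Set.mem_prod, Set.mem_univ, and_true]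
    rfl
  rw [h1, Set.ncard_prod, Set.ncard_univ, Nat.card_eq_fintype_card, Fintype.card_fin, mul_comm]
  rfl

/-- the partition condition for all partitions -/
def AllPart {V : Type} (G : SimpleGraph V) : Prop :=
  ∀ t : Setoid V, 2 ≤ Nat.card (Quotient t) →
    6 * (Nat.card (Quotient t) - 1) + 1 ≤ 5 * numCrossing G t

lemma highly_iff (G : SimpleGraph V) (hG : G.Connected) :
    IsHighlyTreeConnected 6 (multiple 5 G) ↔ AllPart G := by
  have : Nonempty V := hG.nonempty
  constructor
  · intro h t ht
    have h1 := conn_cross G hG t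
    have h2 : 0 < {e ∈ G.edgeSet | Cross t e}.ncard := by
      unfold NWT.nc at h1
      omega
    obtain ⟨e, he, hc⟩ := (Set.ncard_pos (Set.toFinite _)).mp h2
    have hx : (e, (0 : Fin 5)) ∈ multiple 5 G := he
    have h3 := (tree_iff 6 _).mp (h _ hx) t
    have h4 : {x ∈ multiple 5 G \ {(e, (0 : Fin 5))} | Cross t x.1} =
        {x ∈ multiple 5 G | Cross t x.1} \ {(e, (0 : Fin 5))} := by
      ext x
      constructor
      · rintro ⟨⟨h1, h2⟩, h3⟩; exact ⟨⟨h1, h3⟩, h2⟩
      · rintro ⟨⟨h1, h2⟩, h3⟩; exact ⟨⟨h1, h3⟩, h2⟩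
    have hmem : (e, (0 : Fin 5)) ∈ {x ∈ multiple 5 G | Cross t x.1} := ⟨hx, hc⟩
    rw [h4, Set.ncard_sdiff_singleton_of_mem hmem, ncard_multiple] at h3
    have h5 : 0 < 5 * numCrossing G t := by
      rw [← ncard_multiple]
      exact (Set.ncard_pos (Set.toFinite _)).mpr ⟨_, hmem⟩
    unfold NWT.nc at h3
    omega
  · intro h x hx
    rw [tree_iff]
    intro t
    by_cases ht : 2 ≤ Nat.card (Quotient t)
    · have h1 := h t ht
      have h2 : {y ∈ multiple 5 G | Cross t y.1} \ {x} ⊆ {y ∈ multiple 5 G \ {x} | Cross t y.1} := by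
        rintro y ⟨⟨h1, h2⟩, h3⟩; exact ⟨⟨h1, h3⟩, h2⟩
      have h3 := Set.ncard_le_ncard h2 (Set.toFinite _)
      have h4 := Set.pred_ncard_le_ncard_sdiff_singleton {y ∈ multiple 5 G | Cross t y.1} x
      rw [ncard_multiple] at h4
      unfold NWT.nc
      omega
    · have : NWT.nc t - 1 = 0 := by unfold NWT.nc; omega
      rw [this]
      omega

/-! ### vertices of degree one -/

/-- the vertices whose degree is not one -/
def core {V : Type} (G : SimpleGraph V) : Set V := {v | (G.neighborSet v).ncard ≠ 1}

lemma core_exists (G : SimpleGraph V) (hG : G.Connected) (h3 : 3 ≤ Fintype.card V) (v : V)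
    (hv : v ∉ core G) : ∃ w ∈ core G, G.neighborSet v = {w} := by
  have h1 : (G.neighborSet v).ncard = 1 := by
    by_contra h; exact hv h
  obtain ⟨w, hw⟩ := Set.ncard_eq_one.mp h1
  refine ⟨w, ?_, hw⟩
  intro h2
  obtain ⟨v', hv'⟩ := Set.ncard_eq_one.mp h2
  have hvw : G.Adj v w := by
    have : w ∈ G.neighborSet v := by rw [hw]; rfl
    exact this
  have hvv : v' = v := by
    have : v ∈ G.neighborSet w := hvw.symm
    rw [hv'] at this
    exact this.symm
  subst hvv
  have hall : ∀ x y : V, G.Reachable x y → (x = v' ∨ x = w) → (y = v' ∨ y = w) := by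
    rintro x y ⟨p⟩
    induction p with
    | nil => exact id
    | @cons a b _ hab _ ih =>
      intro ha
      apply ih
      rcases ha with k | k
      · right
        subst k
        have : b ∈ G.neighborSet a := hab
        rw [hw] at this
        exact this
      · left
        subst k
        have : b ∈ G.neighborSet a := hab
        rw [hv'] at this
        exact this
  have hsub : (Finset.univ : Finset V) ⊆ {v', w} := by
    intro x _
    rw [Finset.mem_insert, Finset.mem_singleton]
    exact hall v' x (hG.preconnected v' x) (Or.inl rfl)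
  have h4 := Finset.card_le_card hsub
  have h5 := Finset.card_le_two (a := v') (b := w)
  rw [Finset.card_univ] at h4
  omega

lemma core_part (G : SimpleGraph V) (hG : G.Connected) (h3 : 3 ≤ Fintype.card V) (t : Setoid V)
    (ht : ∀ u w, G.Adj u w → (G.neighborSet u).ncard = 1 → t u w) :
    Nat.card (Quotient (t.comap (Subtype.val : core G → V))) = Nat.card (Quotient t) ∧
    numCrossing (G.induce (core G)) (t.comap (Subtype.val : core G → V)) = numCrossing G t := by
  constructor
  · apply Nat.card_congr
    refine Equiv.ofBijective (Quotient.map Subtype.val (fun a b h => h)) ⟨?_, ?_⟩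
    · intro x y hxy
      induction x using Quotient.inductionOn with
      | _ u =>
        induction y using Quotient.inductionOn with
        | _ w =>
          have h : (⟦u.1⟧ : Quotient t) = ⟦w.1⟧ := hxy
          have h' : t u.1 w.1 := (NWT.qe t _ _).mp h
          exact Quotient.sound h'
    · intro x
      induction x using Quotient.inductionOn with
      | _ v =>
        by_cases hv : v ∈ core G
        · exact ⟨⟦⟨v, hv⟩⟧, rfl⟩
        · obtain ⟨w, hw, hN⟩ := core_exists G hG h3 v hv
          refine ⟨⟦⟨w, hw⟩⟧, ?_⟩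
          apply Quotient.sound
          apply t.symm
          apply ht
          · have : w ∈ G.neighborSet v := by rw [hN]; rfl
            exact this
          · by_contra h; exact hv h
  · unfold numCrossing
    rw [← Set.ncard_image_of_injective _ (Sym2.map.injective
      (Subtype.val_injective (p := fun v => v ∈ core G)))]
    congr 1
    ext e
    constructor
    · rintro ⟨e', ⟨he', u, w, rfl, hr⟩, rfl⟩
      exact ⟨he', u.1, w.1, rfl, hr⟩
    · rintro ⟨he, u, w, rfl, hr⟩
      have hu : u ∈ core G := by
        intro h; exact hr (ht u w he h)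
      have hw : w ∈ core G := by
        intro h; exact hr (t.symm (ht w u he.symm h))
      exact ⟨s(⟨u, hu⟩, ⟨w, hw⟩), ⟨he, _, _, rfl, hr⟩, rfl⟩

lemma core_iff (G : SimpleGraph V) (hG : G.Connected) (h3 : 3 ≤ Fintype.card V) :
    PartitionCondition G ↔ AllPart (G.induce (core G)) := by
  constructor
  · intro h t' ht'
    let φ : V → core G := fun v => if hv : v ∈ core G then ⟨v, hv⟩ else
      ⟨(core_exists G hG h3 v hv).choose, (core_exists G hG h3 v hv).choose_spec.1⟩
    have hφ : ∀ x : core G, φ x.1 = x := by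
      intro x
      simp only [φ]
      rw [dif_pos x.2]
    have hφ' : ∀ u w, G.Adj u w → (G.neighborSet u).ncard = 1 → φ u = φ w := by
      intro u w huw h1
      have hu : u ∉ core G := fun k => k h1
      obtain ⟨h2, h4⟩ := (core_exists G hG h3 u hu).choose_spec
      have h5 : w = (core_exists G hG h3 u hu).choose := by
        have : w ∈ G.neighborSet u := huw
        rw [h4] at this
        exact this
      have h6 : φ u = ⟨(core_exists G hG h3 u hu).choose, h2⟩ := by
        simp only [φ]
        rw [dif_neg hu]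
      rw [h6]
      have h7 : w ∈ core G := by rw [h5]; exact h2
      have h8 : φ w = ⟨w, h7⟩ := hφ ⟨w, h7⟩
      rw [h8]
      exact Subtype.ext h5.symm
    have hcomap : (t'.comap φ).comap (Subtype.val : core G → V) = t' := by
      ext x y
      rw [Setoid.comap_rel, Setoid.comap_rel, hφ, hφ]
    obtain ⟨h1, h2⟩ := core_part G hG h3 (t'.comap φ) (fun u w huw h1 => by
      rw [Setoid.comap_rel, hφ' u w huw h1])
    rw [hcomap] at h1 h2
    rw [h1] at ht' ⊢
    rw [h2]
    exact h _ ht' (fun u w huw h1 => by
      rw [Setoid.comap_rel, hφ' u w huw h1])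
  · intro h t ht hleaf
    obtain ⟨h1, h2⟩ := core_part G hG h3 t hleaf
    rw [← h1] at ht ⊢
    rw [← h2]
    exact h _ ht

lemma core_connected (G : SimpleGraph V) (hG : G.Connected) (h3 : 3 ≤ Fintype.card V) :
    (G.induce (core G)).Connected := by
  have hne : Nonempty (core G) := by
    obtain ⟨v⟩ := hG.nonempty
    by_cases hv : v ∈ core G
    · exact ⟨⟨v, hv⟩⟩
    · obtain ⟨w, hw, _⟩ := core_exists G hG h3 v hv
      exact ⟨⟨w, hw⟩⟩
  rw [SimpleGraph.connected_iff]
  refine ⟨?_, hne⟩
  let φ : V → core G := fun v => if hv : v ∈ core G then ⟨v, hv⟩ else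
    ⟨(core_exists G hG h3 v hv).choose, (core_exists G hG h3 v hv).choose_spec.1⟩
  have hφ : ∀ x : core G, φ x.1 = x := by
    intro x
    simp only [φ]
    rw [dif_pos x.2]
  have hφ' : ∀ u w, G.Adj u w → u ∉ core G → φ u = φ w := by
    intro u w huw hu
    obtain ⟨h2, h4⟩ := (core_exists G hG h3 u hu).choose_spec
    have h5 : w = (core_exists G hG h3 u hu).choose := by
      have : w ∈ G.neighborSet u := huw
      rw [h4] at this
      exact this
    have h6 : φ u = ⟨(core_exists G hG h3 u hu).choose, h2⟩ := by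
      simp only [φ]
      rw [dif_neg hu]
    rw [h6]
    have h7 : w ∈ core G := by rw [h5]; exact h2
    have h8 : φ w = ⟨w, h7⟩ := hφ ⟨w, h7⟩
    rw [h8]
    exact Subtype.ext h5.symm
  have hadj : ∀ u w, G.Adj u w → (G.induce (core G)).Reachable (φ u) (φ w) := by
    intro u w huw
    by_cases hu : u ∈ core G
    · by_cases hw : w ∈ core G
      · have h1 : φ u = ⟨u, hu⟩ := hφ ⟨u, hu⟩
        have h2 : φ w = ⟨w, hw⟩ := hφ ⟨w, hw⟩
        rw [h1, h2]
        exact SimpleGraph.Adj.reachable huw
      · rw [hφ' w u huw.symm hw]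
    · rw [hφ' u w huw hu]
  intro x y
  obtain ⟨p⟩ := hG.preconnected x.1 y.1
  have key : ∀ u w : V, G.Walk u w → (G.induce (core G)).Reachable (φ u) (φ w) := by
    intro u w p
    induction p with
    | nil => exact SimpleGraph.Reachable.refl _
    | cons h _ ih => exact (hadj _ _ h).trans ih
  have := key _ _ p
  rwa [hφ, hφ] at this

end

end Pool.Agent.H52.MG.Clean
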